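import Pool.Agent.H699.RM.LemT2

set_option autoImplicit false
set_option linter.unusedSectionVars false

namespace Pool.Agent.H699.RM

open Module

variable {F : Type} [Field F] [Fintype F] {n : ℕ}

/-- The monomial semilinear map with permutation `σ`, multipliers `t` and field automorphism `τ`. -/
def monoA (σ : Equiv.Perm (Fin n)) (t : Fin n → Fˣ) (τ : F ≃+* F) : (Fin n → F) ≃+ (Fin n → F) where
  toFun v i := (t i : F) * τ (v (σ i))
  invFun w k := τ.symm (((t (σ.symm k))⁻¹ : Fˣ) * w (σ.symm k))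
  left_inv v := by
    funext k
    simp
  right_inv w := by
    funext i
    simp
  map_add' u v := by
    funext i
    simp [mul_add]

/-- The same map as a permutation of `F ^ n`. -/
def mono (σ : Equiv.Perm (Fin n)) (t : Fin n → Fˣ) (τ : F ≃+* F) : Equiv.Perm (Fin n → F) :=
  (monoA σ t τ).toEquiv

theorem mono_apply (σ : Equiv.Perm (Fin n)) (t : Fin n → Fˣ) (τ : F ≃+* F) (v : Fin n → F)
    (i : Fin n) : mono σ t τ v i = (t i : F) * τ (v (σ i)) := rfl

theorem mono_semiLin (σ : Equiv.Perm (Fin n)) (t : Fin n → Fˣ) (τ : F ≃+* F) :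
    SemiLin τ (monoA σ t τ) := by
  intro c v
  funext i
  change (t i : F) * τ (c * v (σ i)) = τ c * ((t i : F) * τ (v (σ i)))
  rw [map_mul]
  ring

theorem mono_mul (σ σ' : Equiv.Perm (Fin n)) (t t' : Fin n → Fˣ) (τ τ' : F ≃+* F) :
    mono σ t τ * mono σ' t' τ' =
      mono (σ' * σ) (fun i => t i * Units.map τ.toRingHom.toMonoidHom (t' (σ i)))
        (τ'.trans τ) := by
  ext v i
  rw [Equiv.Perm.mul_apply, mono_apply, mono_apply, mono_apply, map_mul]
  simp [mul_assoc]

theorem mono_one : mono (1 : Equiv.Perm (Fin n)) (fun _ => (1 : Fˣ)) (RingEquiv.refl F) = 1 := by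
  ext v i
  rw [mono_apply]
  simp

theorem mono_inv (σ : Equiv.Perm (Fin n)) (t : Fin n → Fˣ) (τ : F ≃+* F) :
    (mono σ t τ)⁻¹ =
      mono σ⁻¹ (fun k => Units.map τ.symm.toRingHom.toMonoidHom (t (σ⁻¹ k))⁻¹) τ.symm := by
  rw [inv_eq_iff_mul_eq_one, mono_mul, ← mono_one]
  congr 1
  · simp
  · funext i
    ext
    simp
  · ext x
    simp

/-- The group of monomial semilinear maps. -/
def Gam (F : Type) [Field F] [Fintype F] (n : ℕ) : Subgroup (Equiv.Perm (Fin n → F)) where
  carrier := {g | ∃ σ t τ, g = mono σ t τ}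
  mul_mem' := by
    rintro _ _ ⟨σ, t, τ, rfl⟩ ⟨σ', t', τ', rfl⟩
    exact ⟨_, _, _, mono_mul σ σ' t t' τ τ'⟩
  one_mem' := ⟨_, _, _, mono_one.symm⟩
  inv_mem' := by
    rintro _ ⟨σ, t, τ, rfl⟩
    exact ⟨_, _, _, mono_inv σ t τ⟩

/-- The parameters of monomial semilinear maps. -/
abbrev Par (F : Type) [Field F] (n : ℕ) : Type :=
  Equiv.Perm (Fin n) × (Fin n → Fˣ) × (F ≃+* F)

/-- The monomial map with given parameters. -/
def toGam (x : Par F n) : Gam F n := ⟨mono x.1 x.2.1 x.2.2, x.1, x.2.1, x.2.2, rfl⟩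

theorem toGam_surjective : Function.Surjective (toGam : Par F n → Gam F n) := by
  rintro ⟨_, σ, t, τ, rfl⟩
  exact ⟨(σ, t, τ), rfl⟩

theorem mono_injective (hn : 0 < n) {σ σ' : Equiv.Perm (Fin n)} {t t' : Fin n → Fˣ}
    {τ τ' : F ≃+* F} (h : mono σ t τ = mono σ' t' τ') : σ = σ' ∧ t = t' ∧ τ = τ' := by
  classical
  have h1 : ∀ (k : Fin n) (c : F) (i : Fin n),
      (t i : F) * τ (if σ i = k then c else 0) = (t' i : F) * τ' (if σ' i = k then c else 0) := by
    intro k c i
    have := congrFun (DFunLike.congr_fun h (fun m => if m = k then c else 0)) i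
    rw [mono_apply, mono_apply] at this
    exact this
  have hσ : ∀ i, σ i = σ' i := by
    intro i
    by_contra hne
    have := h1 (σ i) 1 i
    rw [if_pos rfl, if_neg (fun h => hne h.symm), map_one, map_zero, mul_zero, mul_one] at this
    exact (t i).ne_zero this
  have ht : ∀ i, t i = t' i := by
    intro i
    have := h1 (σ i) 1 i
    rw [if_pos rfl, if_pos (hσ i).symm, map_one, map_one, mul_one, mul_one] at this
    exact Units.ext this
  refine ⟨Equiv.ext hσ, funext ht, ?_⟩
  ext c
  have := h1 (σ ⟨0, hn⟩) c ⟨0, hn⟩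
  rw [if_pos rfl, if_pos (hσ _).symm, ht] at this
  exact mul_left_cancel₀ (t' _).ne_zero this

theorem toGam_bijective (hn : 0 < n) : Function.Bijective (toGam : Par F n → Gam F n) := by
  refine ⟨?_, toGam_surjective⟩
  rintro ⟨σ, t, τ⟩ ⟨σ', t', τ'⟩ h
  obtain ⟨h1, h2, h3⟩ := mono_injective hn (congrArg Subtype.val h)
  simp only at h1 h2 h3
  rw [h1, h2, h3]

/-- The image of a subspace under an element of the group. -/
def act (g : Gam F n) (U : Submodule F (Fin n → F)) : Submodule F (Fin n → F) where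
  carrier := g.1 '' U
  add_mem' := by
    rintro _ _ ⟨a, ha, rfl⟩ ⟨b, hb, rfl⟩
    obtain ⟨_, σ, t, τ, rfl⟩ := g
    exact ⟨a + b, U.add_mem ha hb, map_add (monoA σ t τ) a b⟩
  zero_mem' := by
    obtain ⟨_, σ, t, τ, rfl⟩ := g
    exact ⟨0, U.zero_mem, map_zero (monoA σ t τ)⟩
  smul_mem' := by
    rintro c _ ⟨a, ha, rfl⟩
    obtain ⟨_, σ, t, τ, rfl⟩ := g
    refine ⟨τ.symm c • a, U.smul_mem _ ha, ?_⟩
    have := mono_semiLin σ t τ (τ.symm c) a
    rw [RingEquiv.apply_symm_apply] at this
    exact this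

instance : MulAction (Gam F n) (Submodule F (Fin n → F)) where
  smul := act
  one_smul U := by
    apply SetLike.coe_injective
    change (1 : Gam F n).1 '' (U : Set (Fin n → F)) = U
    simp
  mul_smul g h U := by
    apply SetLike.coe_injective
    change (g * h).1 '' (U : Set (Fin n → F)) = g.1 '' (h.1 '' (U : Set (Fin n → F)))
    rw [Set.image_image]
    rfl

theorem smul_def (x : Par F n) (U : Submodule F (Fin n → F)) :
    toGam x • U = gmap (mono_semiLin x.1 x.2.1 x.2.2) U := by
  apply SetLike.coe_injective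
  rfl

instance : Finite (F ≃+* F) := Finite.of_injective (fun e : F ≃+* F => (e : F → F)) DFunLike.coe_injective

instance : Finite (Gam F n) := Finite.of_surjective _ toGam_surjective

/-- Burnside's lemma for the monomial semilinear group. -/
theorem burnside (hn : 0 < n) :
    ∑ᶠ x : Par F n, Nat.card {U : Submodule F (Fin n → F) // gmap (mono_semiLin x.1 x.2.1 x.2.2) U = U} =
      Nat.card (MulAction.orbitRel.Quotient (Gam F n) (Submodule F (Fin n → F))) *
        (n.factorial * (Fintype.card F - 1) ^ n * Nat.card (F ≃+* F)) := by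
  classical
  have : Fintype (F ≃+* F) := Fintype.ofFinite _
  have : Fintype (Gam F n) := Fintype.ofFinite _
  have : Fintype (Submodule F (Fin n → F)) := Fintype.ofFinite _
  have hfix : ∀ g : Gam F n, Fintype (MulAction.fixedBy (Submodule F (Fin n → F)) g) :=
    fun g => Fintype.ofFinite _
  have : Fintype (MulAction.orbitRel.Quotient (Gam F n) (Submodule F (Fin n → F))) :=
    Fintype.ofFinite _
  have h := MulAction.sum_card_fixedBy_eq_card_orbits_mul_card_group (Gam F n)
    (Submodule F (Fin n → F))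
  have hcard : Fintype.card (Gam F n) =
      n.factorial * (Fintype.card F - 1) ^ n * Nat.card (F ≃+* F) := by
    rw [← Fintype.card_of_bijective (toGam_bijective (F := F) hn), Fintype.card_prod,
      Fintype.card_prod, Fintype.card_perm, Fintype.card_fin, Fintype.card_fun, Fintype.card_fin,
      Fintype.card_units, Nat.card_eq_fintype_card, mul_assoc]
  rw [hcard] at h
  rw [Nat.card_eq_fintype_card (α := MulAction.orbitRel.Quotient (Gam F n) _)]
  rw [← h, finsum_eq_sum_of_fintype]
  rw [← (Equiv.ofBijective _ (toGam_bijective (F := F) hn)).sum_comp]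
  apply Finset.sum_congr rfl
  intro x _
  rw [← Nat.card_eq_fintype_card]
  apply Nat.card_congr
  apply Equiv.subtypeEquivRight
  intro U
  rw [← smul_def x U]
  rfl

end Pool.Agent.H699.RM
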