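import Pool.Agent.H699.RM.Defs
import Pool.Agent.H699.RM.Group

set_option autoImplicit false
set_option linter.unusedSectionVars false

namespace Pool.Agent.H699.RM

open Module

variable {F : Type} [Field F] [Fintype F] {n : ℕ}

/-- Independence of a set of coordinates for a subspace `U` of `F ^ n`: no nonzero vector
orthogonal to `U` is supported in the set. -/
def IndU (U : Submodule F (Fin n → F)) (I : Set (Fin n)) : Prop :=
  ∀ c : Fin n → F, (∀ i, i ∉ I → c i = 0) → (∀ u ∈ U, ∑ i, c i * u i = 0) → c = 0

theorem linearIndepOn_iff_sum {d : ℕ} (v : Fin n → Fin d → F) (I : Set (Fin n)) :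
    LinearIndepOn F v I ↔
      ∀ c : Fin n → F, (∀ i, i ∉ I → c i = 0) → ∑ i, c i • v i = 0 → c = 0 := by
  classical
  have hI : (I : Set (Fin n)) = ((I.toFinset : Finset (Fin n)) : Set (Fin n)) := by simp
  rw [hI, linearIndepOn_finset_iff]
  constructor
  · intro h c hc hs
    funext i
    by_cases hi : i ∈ I.toFinset
    · apply h c _ i hi
      rw [← hs]
      apply Finset.sum_subset (Finset.subset_univ _)
      intro j _ hj
      rw [hc j (by simpa using hj), zero_smul]
    · exact hc i (by simpa using hi)
  · intro h c hs i hi
    have h1 := h (fun j => if j ∈ I.toFinset then c j else 0) (by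
      intro j hj
      rw [if_neg]
      simpa using hj) (by
      rw [← hs]
      rw [← Finset.sum_subset (Finset.subset_univ I.toFinset)]
      · apply Finset.sum_congr rfl
        intro j hj
        rw [if_pos hj]
      · intro j _ hj
        rw [if_neg hj, zero_smul])
    have := congrFun h1 i
    simpa [hi] using this

/-- The row space of a matrix with columns `v i`. -/
def rowSpace {d : ℕ} (v : Fin n → Fin d → F) : Submodule F (Fin n → F) :=
  Submodule.span F (Set.range fun k : Fin d => fun i => v i k)

theorem indU_rowSpace {d : ℕ} (v : Fin n → Fin d → F) (I : Set (Fin n)) :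
    LinearIndepOn F v I ↔ IndU (rowSpace v) I := by
  rw [linearIndepOn_iff_sum]
  have key : ∀ c : Fin n → F, (∑ i, c i • v i = 0) ↔ ∀ u ∈ rowSpace v, ∑ i, c i * u i = 0 := by
    intro c
    constructor
    · intro h u hu
      unfold rowSpace at hu
      induction hu using Submodule.span_induction with
      | mem x hx =>
        obtain ⟨k, rfl⟩ := hx
        have := congrFun h k
        simpa [Finset.sum_apply] using this
      | zero => simp
      | add x y _ _ hx hy =>
        simp only [Pi.add_apply, mul_add, Finset.sum_add_distrib, hx, hy, add_zero]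
      | smul a x _ hx =>
        have : ∑ i, c i * (a • x) i = a * ∑ i, c i * x i := by
          rw [Finset.mul_sum]
          apply Finset.sum_congr rfl
          intro i _
          simp only [Pi.smul_apply, smul_eq_mul]
          ring
        rw [this, hx, mul_zero]
    · intro h
      funext k
      have := h (fun i => v i k) (Submodule.subset_span ⟨k, rfl⟩)
      simpa [Finset.sum_apply] using this
  constructor
  · intro h c h1 h2
    exact h c h1 ((key c).mpr h2)
  · intro h c h1 h2
    exact h c h1 ((key c).mp h2)

/-- The matroid of the columns of a matrix. -/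
theorem exists_matroid {d : ℕ} (v : Fin n → Fin d → F) :
    ∃ M : Matroid (Fin n), M.E = Set.univ ∧ ∀ I : Set (Fin n), M.Indep I ↔ LinearIndepOn F v I := by
  classical
  refine ⟨(IndepMatroid.ofFinset (Set.univ : Set (Fin n))
    (fun I => LinearIndepOn F v (I : Set (Fin n))) ?_ ?_ ?_ ?_).matroid, rfl, ?_⟩
  · simp
  · intro I J hJ hIJ
    exact hJ.mono (by exact_mod_cast hIJ)
  · intro I J hI hJ hcard
    by_contra hcon
    push Not at hcon
    have h1 : ∀ e ∈ J, v e ∈ Submodule.span F (v '' (I : Set (Fin n))) := by
      intro e he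
      by_cases heI : e ∈ I
      · exact Submodule.subset_span ⟨e, by exact_mod_cast heI, rfl⟩
      · by_contra hne
        apply hcon e he heI
        rw [Finset.coe_insert]
        exact hI.insert hne
    have h2 : Submodule.span F (v '' (J : Set (Fin n))) ≤
        Submodule.span F (v '' (I : Set (Fin n))) := by
      rw [Submodule.span_le]
      rintro _ ⟨e, he, rfl⟩
      exact h1 e (by exact_mod_cast he)
    have h3 := Submodule.finrank_mono h2
    have hrank : ∀ K : Finset (Fin n), LinearIndepOn F v (K : Set (Fin n)) →
        finrank F (Submodule.span F (v '' (K : Set (Fin n)))) = K.card := by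
      intro K hK
      have e1 : v '' (K : Set (Fin n)) = Set.range (fun x : K => v x) := by
        ext y
        simp
      rw [e1]
      have := finrank_span_eq_card (R := F) (b := fun x : K => v x) hK
      rw [this, Fintype.card_coe]
    rw [hrank I hI, hrank J hJ] at h3
    omega
  · intro I _
    exact Set.subset_univ _
  · intro I
    have hI : (I : Set (Fin n)) = ((I.toFinset : Finset (Fin n)) : Set (Fin n)) := by simp
    rw [hI]
    simp only [IndepMatroid.matroid_Indep]
    rw [IndepMatroid.ofFinset_indep]

/-- Every subspace is a row space. -/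
theorem exists_rowSpace (U : Submodule F (Fin n → F)) :
    ∃ (d : ℕ) (v : Fin n → Fin d → F), rowSpace v = U := by
  let b := Module.finBasis F U
  refine ⟨finrank F U, fun i k => (b k : Fin n → F) i, ?_⟩
  unfold rowSpace
  have h := b.span_eq
  have h2 := congrArg (Submodule.map U.subtype) h
  rw [Submodule.map_span, Submodule.map_top, Submodule.range_subtype] at h2
  refine Eq.trans ?_ h2
  congr 1
  ext x
  simp

theorem exists_rep (U : Submodule F (Fin n → F)) :
    ∃ M : RepMatroid F n, ∀ I, M.1.Indep I ↔ IndU U I := by
  obtain ⟨d, v, rfl⟩ := exists_rowSpace U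
  obtain ⟨M, hM1, hM2⟩ := exists_matroid v
  exact ⟨⟨M, hM1, d, v, hM2⟩, fun I => by rw [hM2, indU_rowSpace]⟩

/-- The matroid of a subspace. -/
noncomputable def matOf (U : Submodule F (Fin n → F)) : RepMatroid F n := (exists_rep U).choose

theorem matOf_indep (U : Submodule F (Fin n → F)) (I : Set (Fin n)) :
    (matOf U).1.Indep I ↔ IndU U I := (exists_rep U).choose_spec I

theorem rep_ext {M N : RepMatroid F n} (h : ∀ I, M.1.Indep I ↔ N.1.Indep I) : M = N := by
  apply Subtype.ext
  apply Matroid.ext_indep
  · rw [M.2.1, N.2.1]
  · intro I _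
    exact h I

theorem matOf_surjective : Function.Surjective (matOf : Submodule F (Fin n → F) → RepMatroid F n) := by
  rintro ⟨M, hE, d, v, hv⟩
  refine ⟨rowSpace v, ?_⟩
  apply rep_ext
  intro I
  rw [matOf_indep, ← indU_rowSpace]
  exact (hv I).symm

theorem matOf_eq_iff {U U' : Submodule F (Fin n → F)} :
    matOf U = matOf U' ↔ ∀ I, IndU U I ↔ IndU U' I := by
  constructor
  · intro h I
    rw [← matOf_indep, ← matOf_indep, h]
  · intro h
    apply rep_ext
    intro I
    rw [matOf_indep, matOf_indep, h]

theorem indU_gmap (σ : Equiv.Perm (Fin n)) (t : Fin n → Fˣ) (τ : F ≃+* F)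
    (U : Submodule F (Fin n → F)) (I : Set (Fin n)) :
    IndU (gmap (mono_semiLin σ t τ) U) I ↔ IndU U (σ '' I) := by
  have hsum : ∀ (c u : Fin n → F), ∑ i, c i * (monoA σ t τ u) i =
      τ (∑ k, τ.symm (c (σ.symm k) * t (σ.symm k)) * u k) := by
    intro c u
    rw [map_sum]
    rw [← Equiv.sum_comp σ (fun k => τ (τ.symm (c (σ.symm k) * t (σ.symm k)) * u k))]
    apply Finset.sum_congr rfl
    intro i _
    change c i * ((t i : F) * τ (u (σ i))) = _
    simp only [Equiv.symm_apply_apply, map_mul, RingEquiv.apply_symm_apply]
    ring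
  constructor
  · intro h c hc hu
    have h1 := h (fun i => τ (c (σ i)) * ((t i)⁻¹ : Fˣ)) (by
      intro i hi
      have : c (σ i) = 0 := hc (σ i) (by
        rintro ⟨j, hj, hji⟩
        rw [σ.injective hji] at hj
        exact hi hj)
      simp [this]) (by
      rintro _ ⟨u, hu', rfl⟩
      rw [hsum]
      have : ∀ k, τ.symm (τ (c (σ (σ.symm k))) * ((t (σ.symm k))⁻¹ : Fˣ) * t (σ.symm k)) = c k := by
        intro k
        simp
      simp only [this]
      rw [hu u hu', map_zero])
    funext k
    have := congrFun h1 (σ.symm k)
    simpa using this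
  · intro h c hc hu
    have h1 := h (fun k => τ.symm (c (σ.symm k) * t (σ.symm k))) (by
      intro k hk
      have : c (σ.symm k) = 0 := hc _ (fun hmem => hk ⟨σ.symm k, hmem, by simp⟩)
      simp [this]) (by
      intro u hu'
      have := hu (monoA σ t τ u) ⟨u, hu', rfl⟩
      rw [hsum] at this
      exact (map_eq_zero τ).mp this)
    funext i
    have := congrFun h1 (σ i)
    simpa using this

theorem iso_smul (g : Gam F n) (U : Submodule F (Fin n → F)) :
    Isomorphic (matOf (g • U)) (matOf U) := by
  obtain ⟨x, rfl⟩ := toGam_surjective g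
  refine ⟨x.1, fun I => ?_⟩
  rw [matOf_indep, matOf_indep, smul_def, indU_gmap]

/-- The number of isomorphism classes is at most the number of orbits. -/
theorem numRep_le :
    numRep F n ≤ Nat.card (MulAction.orbitRel.Quotient (Gam F n) (Submodule F (Fin n → F))) := by
  let f : MulAction.orbitRel.Quotient (Gam F n) (Submodule F (Fin n → F)) →
      Quotient (isoSetoid F n) :=
    Quotient.map' matOf (by
      rintro U U' ⟨g, rfl⟩
      exact iso_smul g U')
  apply Nat.card_le_card_of_surjective f
  intro y
  induction y using Quotient.inductionOn with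
  | h M =>
    obtain ⟨U, rfl⟩ := matOf_surjective M
    exact ⟨Quotient.mk'' U, rfl⟩

instance : Finite (RepMatroid F n) := Finite.of_surjective _ matOf_surjective

/-- Each isomorphism class has at most `n!` labelled members. -/
theorem card_rep_le : Nat.card (RepMatroid F n) ≤ numRep F n * n.factorial := by
  classical
  have h1 : Nat.card (Quotient (isoSetoid F n) × Equiv.Perm (Fin n)) = numRep F n * n.factorial := by
    rw [Nat.card_prod, numRep, Nat.card_eq_fintype_card (α := Equiv.Perm (Fin n)),
      Fintype.card_perm, Fintype.card_fin]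
  rw [← h1]
  have hex : ∀ M : RepMatroid F n, ∃ σ : Equiv.Perm (Fin n), ∀ I : Set (Fin n),
      M.1.Indep I ↔ (Quotient.out (Quotient.mk (isoSetoid F n) M)).1.Indep (σ '' I) := by
    intro M
    have := Quotient.exact (Quotient.out_eq (Quotient.mk (isoSetoid F n) M))
    exact (isoSetoid F n).symm this
  choose s hs using hex
  apply Nat.card_le_card_of_injective (fun M => (Quotient.mk (isoSetoid F n) M, s M))
  intro M N h
  simp only [Prod.mk.injEq] at h
  apply rep_ext
  intro I
  rw [hs M, hs N, h.1, h.2]

end Pool.Agent.H699.RM
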