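import Pool.Agent.H699.RM.Low
import Pool.Agent.H699.RM.Mat

set_option autoImplicit false
set_option linter.unusedSectionVars false

namespace Pool.Agent.H699.RM

open Module Filter Topology

variable {F : Type} [Field F] [Fintype F]

/-- The sum of the Gaussian binomials is the number of subspaces. -/
theorem sum_gaussBinom (n : ℕ) :
    ∑ j ∈ Finset.range (n + 1), (gaussBinom F n j : ℝ) =
      (Nat.card (Submodule F (Fin n → F)) : ℝ) := by
  have hfr : finrank F (Fin n → F) = n := by
    rw [Module.finrank_fintype_fun_eq_card, Fintype.card_fin]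
  have e3 := card_eq_sum_dim (F := F) (V := Fin n → F) (fun _ => True)
  have e4 : Nat.card {U : Submodule F (Fin n → F) // True} = Nat.card (Submodule F (Fin n → F)) :=
    Nat.card_congr (Equiv.subtypeUnivEquiv (fun _ => trivial))
  rw [e4] at e3
  simp only [and_true] at e3
  rw [hfr] at e3
  rw [e3]
  push_cast
  rfl

/-- The lower error term. -/
noncomputable def errLow (q : ℝ) (n : ℕ) : ℝ :=
  4 * errE q n + (n + 1) * (4 * (q * q ^ (-(n : ℝ) ^ 2 / 4096)))

/-- The upper error term. -/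
noncomputable def errUp (q K : ℝ) (n : ℕ) : ℝ := (errB q n + errC q K n) * q

theorem errB_nonneg {q : ℝ} (hq : 0 < q) (n : ℕ) : 0 ≤ errB q n := by
  unfold errB; positivity

theorem errC_nonneg {q K : ℝ} (hq : 0 < q) (hK : 0 ≤ K) (n : ℕ) : 0 ≤ errC q K n := by
  unfold errC; positivity

theorem pow_le_card_submodule (n : ℕ) :
    (Fintype.card F : ℝ) ^ ((n : ℝ) ^ 2 / 4) ≤
      (Fintype.card F : ℝ) * Nat.card (Submodule F (Fin n → F)) := by
  have hq0 := q_pos (F := F)
  have hq1 := one_le_q (F := F)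
  have h := le_card_submodule (F := F) (V := Fin n → F)
  rw [Module.finrank_fintype_fun_eq_card, Fintype.card_fin] at h
  have h1 : (Fintype.card F : ℝ) ^ ((n : ℝ) ^ 2 / 4) ≤
      (Fintype.card F : ℝ) ^ (1 + ((n : ℝ) ^ 2 / 4 - 1 / 4)) :=
    Real.rpow_le_rpow_of_exponent_le hq1 (by linarith)
  rw [Real.rpow_add hq0, Real.rpow_one] at h1
  exact h1.trans (mul_le_mul_of_nonneg_left h hq0.le)

/-- The ratio for a general automorphism count. -/
theorem ratio_le {n : ℕ} (hn : 128 ≤ n)
    (hy : (n : ℝ) ^ 2 * (Fintype.card F : ℝ) * (Fintype.card F : ℝ) ^ (-(n : ℝ) / 12) ≤ 1) :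
    (numRep F n : ℝ) * ((n.factorial : ℝ) * Nat.card (F ≃+* F) *
      ((Fintype.card F : ℝ) - 1) ^ (n - 1)) ≤
      (1 + errUp (Fintype.card F) (Nat.card (F ≃+* F)) n) *
        Nat.card (Submodule F (Fin n → F)) := by
  classical
  have hq0 := q_pos (F := F)
  have hq1 := one_le_q (F := F)
  have hq2 : (2 : ℝ) ≤ (Fintype.card F : ℝ) := by exact_mod_cast two_le_card (F := F)
  have : Fintype (F ≃+* F) := Fintype.ofFinite _
  have h1 := burnside (F := F) (n := n) (by omega)
  rw [finsum_eq_sum_of_fintype] at h1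
  have h2 := sum_fix_le (F := F) (n := n) hn hy
  have h3 : ∑ x : Par F n, (fixC x : ℝ) =
      (Nat.card (MulAction.orbitRel.Quotient (Gam F n) (Submodule F (Fin n → F))) : ℝ) *
        ((n.factorial : ℝ) * ((Fintype.card F : ℝ) - 1) ^ n * Nat.card (F ≃+* F)) := by
    have h4 : ∑ x : Par F n, fixC x =
      Nat.card (MulAction.orbitRel.Quotient (Gam F n) (Submodule F (Fin n → F))) *
        (n.factorial * (Fintype.card F - 1) ^ n * Nat.card (F ≃+* F)) := h1
    have h5 : ((Fintype.card F - 1 : ℕ) : ℝ) = (Fintype.card F : ℝ) - 1 := by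
      rw [Nat.cast_sub (by have := two_le_card (F := F); omega)]
      simp
    rw [← Nat.cast_sum, h4]
    push_cast
    rw [h5]
  have h6 := numRep_le (F := F) (n := n)
  set O := Nat.card (MulAction.orbitRel.Quotient (Gam F n) (Submodule F (Fin n → F)))
  set G := Nat.card (Submodule F (Fin n → F)) with hG
  set K := Nat.card (F ≃+* F)
  set q : ℝ := (Fintype.card F : ℝ)
  have h6' : (numRep F n : ℝ) ≤ O := by exact_mod_cast h6
  rw [h3] at h2
  have hB := errB_nonneg hq0 n
  have hC := errC_nonneg hq0 (show (0 : ℝ) ≤ K by positivity) n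
  have h7 := pow_le_card_submodule (F := F) n
  have hqm : (1 : ℝ) ≤ q - 1 := by linarith
  have hpow : (q - 1) ^ n = (q - 1) * (q - 1) ^ (n - 1) := by
    rw [← pow_succ']
    congr 1
    omega
  have h8 : (q - 1) * ((numRep F n : ℝ) * ((n.factorial : ℝ) * K * (q - 1) ^ (n - 1))) ≤
      (q - 1) * ((1 + errUp q K n) * G) := by
    calc (q - 1) * ((numRep F n : ℝ) * ((n.factorial : ℝ) * K * (q - 1) ^ (n - 1)))
        = (numRep F n : ℝ) * ((n.factorial : ℝ) * (q - 1) ^ n * K) := by rw [hpow]; ring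
      _ ≤ O * ((n.factorial : ℝ) * (q - 1) ^ n * K) := by
          apply mul_le_mul_of_nonneg_right h6'
          have : (0 : ℝ) ≤ (q - 1) ^ n := by apply pow_nonneg; linarith
          positivity
      _ ≤ (q - 1) * G + (errB q n + errC q K n) * q ^ ((n : ℝ) ^ 2 / 4) := h2
      _ ≤ (q - 1) * G + (errB q n + errC q K n) * (q * G) := by
          have := mul_le_mul_of_nonneg_left h7 (show 0 ≤ errB q n + errC q K n by positivity)
          linarith
      _ ≤ (q - 1) * G + (q - 1) * ((errB q n + errC q K n) * (q * G)) := by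
          have h9 : 0 ≤ (errB q n + errC q K n) * (q * G) := by positivity
          nlinarith
      _ = _ := by unfold errUp; ring
  exact le_of_mul_le_mul_left h8 (by linarith)

theorem ratio_ge {n : ℕ} (hn : 128 ≤ n) :
    (1 - errLow (Fintype.card F) n) * Nat.card (Submodule F (Fin n → F)) ≤
    (numRep F n : ℝ) * ((n.factorial : ℝ) * Nat.card (F ≃+* F) *
      ((Fintype.card F : ℝ) - 1) ^ (n - 1)) := by
  classical
  have hq0 := q_pos (F := F)
  have hq1 := one_le_q (F := F)
  have h1 := card_good_ge (F := F) hn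
  have h2 := Pool.Agent.H699.RM.card_good_le (F := F) (n := n) (by omega)
  have h3 := card_rep_le (F := F) (n := n)
  have h5 : ((Fintype.card F - 1 : ℕ) : ℝ) = (Fintype.card F : ℝ) - 1 := by
    rw [Nat.cast_sub (by have := two_le_card (F := F); omega)]
    simp
  have h4 : Nat.card {U : Submodule F (Fin n → F) // Good U} ≤
      numRep F n * n.factorial * ((Fintype.card F - 1) ^ (n - 1) * Nat.card (F ≃+* F)) :=
    h2.trans (Nat.mul_le_mul_right _ h3)
  have h4' : (Nat.card {U : Submodule F (Fin n → F) // Good U} : ℝ) ≤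
      (numRep F n : ℝ) * n.factorial * (((Fintype.card F : ℝ) - 1) ^ (n - 1) *
        Nat.card (F ≃+* F)) := by
    rw [← h5]
    exact_mod_cast h4
  have h7 := pow_le_card_submodule (F := F) n
  set G := Nat.card (Submodule F (Fin n → F)) with hG
  set K := Nat.card (F ≃+* F)
  set q : ℝ := (Fintype.card F : ℝ)
  have h8 : q ^ ((n : ℝ) ^ 2 / 4 - (n : ℝ) ^ 2 / 4096) ≤ q * G * q ^ (-(n : ℝ) ^ 2 / 4096) := by
    have : (n : ℝ) ^ 2 / 4 - (n : ℝ) ^ 2 / 4096 = (n : ℝ) ^ 2 / 4 + (-(n : ℝ) ^ 2 / 4096) := by ring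
    rw [this, Real.rpow_add hq0]
    exact mul_le_mul_of_nonneg_right h7 (by positivity)
  have h9 : ((n : ℝ) + 1) * (4 * q ^ ((n : ℝ) ^ 2 / 4 - (n : ℝ) ^ 2 / 4096)) ≤
      ((n : ℝ) + 1) * (4 * (q * G * q ^ (-(n : ℝ) ^ 2 / 4096))) := by
    apply mul_le_mul_of_nonneg_left _ (by positivity)
    linarith
  have h10 : (1 - errLow q n) * G = G - 4 * errE q n * G -
      ((n : ℝ) + 1) * (4 * (q * G * q ^ (-(n : ℝ) ^ 2 / 4096))) := by
    unfold errLow; ring
  rw [h10]
  calc _ ≤ _ := by linarith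
    _ ≤ _ := h1
    _ ≤ _ := h4'
    _ = _ := by ring

end Pool.Agent.H699.RM
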