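import Pool.Agent.H699.RM.Mono

set_option autoImplicit false
set_option linter.unusedSectionVars false

namespace Pool.Agent.H699.RM

open Module

variable {F : Type} [Field F] [Fintype F] {n : ℕ}

theorem one_le_q : (1 : ℝ) ≤ (Fintype.card F : ℝ) := by
  have := two_le_card (F := F)
  have : (1 : ℕ) ≤ Fintype.card F := by omega
  exact_mod_cast this

theorem q_pos : (0 : ℝ) < (Fintype.card F : ℝ) := lt_of_lt_of_le one_pos one_le_q

theorem fix_small (σ : Equiv.Perm (Fin n)) (t : Fin n → Fˣ) {τ : F ≃+* F}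
    (hτ : ∀ c, τ c = c) (l : F) (hs : 2 * (bad σ t l).card ≤ n) :
    (Nat.card {U : Submodule F (Fin n → F) // gmap (mono_semiLin σ t τ) U = U} : ℝ) ≤
      16 * ((n : ℝ) + 1) ^ 2 *
        (Fintype.card F : ℝ) ^ ((n : ℝ) ^ 2 / 4 - (bad σ t l).card * (n : ℝ) / 12) := by
  set h := hlin (mono_semiLin σ t τ) hτ l with hh
  have h1 : Nat.card {U : Submodule F (Fin n → F) // gmap (mono_semiLin σ t τ) U = U} ≤
      Nat.card (Submodule F (LinearMap.range h)) * Nat.card (Submodule F (LinearMap.ker h)) := by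
    refine le_trans ?_ (card_invariant_le' h)
    apply card_le_of_imp
    intro U hU
    exact hlin_map_le _ hτ l hU.le
  have h2 := card_submodule_le (F := F) (V := LinearMap.range h)
  have h3 := card_submodule_le (F := F) (V := LinearMap.ker h)
  have h4 := LinearMap.finrank_range_add_finrank_ker h
  rw [Module.finrank_fintype_fun_eq_card, Fintype.card_fin] at h4
  have h5 := rank_le_bad σ t hτ l
  have h6 := bad_le_rank σ t hτ l
  rw [← hh] at h5 h6
  set s := (bad σ t l).card
  set r := finrank F (LinearMap.range h)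
  set k := finrank F (LinearMap.ker h)
  have hr : (r : ℝ) ≤ n := by exact_mod_cast (by omega : r ≤ n)
  have hk : (k : ℝ) ≤ n := by exact_mod_cast (by omega : k ≤ n)
  have hrk : (r : ℝ) + k = n := by exact_mod_cast h4
  have hrs : 2 * (r : ℝ) ≤ n := by exact_mod_cast (by omega : 2 * r ≤ n)
  have hsr : (s : ℝ) ≤ 3 * r := by exact_mod_cast h6
  have hq := one_le_q (F := F)
  have hq0 := q_pos (F := F)
  set Q : ℝ := (Fintype.card F : ℝ)
  calc (Nat.card {U : Submodule F (Fin n → F) // gmap (mono_semiLin σ t τ) U = U} : ℝ)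
      ≤ (Nat.card (Submodule F (LinearMap.range h)) : ℝ) *
        (Nat.card (Submodule F (LinearMap.ker h)) : ℝ) := by exact_mod_cast h1
    _ ≤ (4 * ((r : ℝ) + 1) * Q ^ ((r : ℝ) ^ 2 / 4)) * (4 * ((k : ℝ) + 1) * Q ^ ((k : ℝ) ^ 2 / 4)) := by
        apply mul_le_mul h2 h3 (by positivity) (by positivity)
    _ = 16 * (((r : ℝ) + 1) * ((k : ℝ) + 1)) * Q ^ ((r : ℝ) ^ 2 / 4 + (k : ℝ) ^ 2 / 4) := by
        rw [Real.rpow_add hq0]; ring
    _ ≤ 16 * ((n : ℝ) + 1) ^ 2 * Q ^ ((n : ℝ) ^ 2 / 4 - s * (n : ℝ) / 12) := by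
        apply mul_le_mul
        · have : ((r : ℝ) + 1) * ((k : ℝ) + 1) ≤ ((n : ℝ) + 1) ^ 2 := by
            rw [pow_two]
            apply mul_le_mul <;> first | linarith | positivity
          linarith
        · apply Real.rpow_le_rpow_of_exponent_le hq
          have hk' : (k : ℝ) = n - r := by linarith
          rw [hk']
          have hr0 : (0 : ℝ) ≤ r := by positivity
          have hn0 : (0 : ℝ) ≤ n := by positivity
          nlinarith [mul_nonneg hr0 (sub_nonneg.mpr hrs), mul_nonneg hn0 (sub_nonneg.mpr hsr)]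
        · positivity
        · positivity

theorem card_codim_le (j t0 : ℕ) (c : ℝ) (hc0 : 0 ≤ c) (hc : c ≤ (n : ℝ) / 2 - ((j : ℝ) - t0)) :
    (Nat.card {R : Submodule F (Fin n → F) // finrank F R + t0 ≤ j} : ℝ) ≤
      4 * ((n : ℝ) + 1) * (Fintype.card F : ℝ) ^ ((n : ℝ) ^ 2 / 4 - c ^ 2) := by
  have h := card_eq_sum_dim (F := F) (V := Fin n → F) (fun R => finrank F R + t0 ≤ j)
  rw [h]
  rw [Module.finrank_fintype_fun_eq_card, Fintype.card_fin]
  push_cast
  have h2 : ∀ r ∈ Finset.range (n + 1),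
      (Nat.card {U : Submodule F (Fin n → F) // finrank F U = r ∧ finrank F U + t0 ≤ j} : ℝ) ≤
        4 * (Fintype.card F : ℝ) ^ ((n : ℝ) ^ 2 / 4 - c ^ 2) := by
    intro r _
    by_cases hr : r + t0 ≤ j
    · have h3 := card_dim_le_real' (F := F) (V := Fin n → F) r (c ^ 2) (by
        rw [Module.finrank_fintype_fun_eq_card, Fintype.card_fin]
        have : ((r : ℝ) + t0) ≤ j := by exact_mod_cast hr
        apply pow_le_pow_left₀ hc0
        linarith)
      rw [Module.finrank_fintype_fun_eq_card, Fintype.card_fin] at h3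
      refine le_trans ?_ h3
      have h4 : Nat.card {U : Submodule F (Fin n → F) // finrank F U = r ∧ finrank F U + t0 ≤ j} ≤
          Nat.card {U : Submodule F (Fin n → F) // finrank F U = r} :=
        card_le_of_imp (fun U hU => hU.1)
      exact_mod_cast h4
    · have : IsEmpty {U : Submodule F (Fin n → F) // finrank F U = r ∧ finrank F U + t0 ≤ j} := by
        constructor
        rintro ⟨U, h1, h2⟩
        omega
      rw [Nat.card_of_isEmpty, Nat.cast_zero]
      have := q_pos (F := F)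
      positivity
  refine (Finset.sum_le_card_nsmul _ _ _ h2).trans (le_of_eq ?_)
  rw [Finset.card_range, nsmul_eq_mul]
  push_cast
  ring

theorem card_small_le (m : ℕ) :
    (Nat.card {B : Submodule F (Fin n → F) // finrank F B ≤ m} : ℝ) ≤
      4 * ((n : ℝ) + 1) * (Fintype.card F : ℝ) ^ ((m : ℝ) * n) := by
  have h := card_eq_sum_dim (F := F) (V := Fin n → F) (fun R => finrank F R ≤ m)
  rw [h]
  rw [Module.finrank_fintype_fun_eq_card, Fintype.card_fin]
  push_cast
  have h2 : ∀ r ∈ Finset.range (n + 1),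
      (Nat.card {U : Submodule F (Fin n → F) // finrank F U = r ∧ finrank F U ≤ m} : ℝ) ≤
        4 * (Fintype.card F : ℝ) ^ ((m : ℝ) * n) := by
    intro r _
    by_cases hr : r ≤ m
    · have h3 := card_dim_le (F := F) (V := Fin n → F) r
      rw [Module.finrank_fintype_fun_eq_card, Fintype.card_fin] at h3
      have h4 : Nat.card {U : Submodule F (Fin n → F) // finrank F U = r ∧ finrank F U ≤ m} ≤
          4 * Fintype.card F ^ (m * n) := by
        refine (card_le_of_imp (fun U hU => hU.1)).trans (h3.trans ?_)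
        apply Nat.mul_le_mul_left
        apply Nat.pow_le_pow_right (by have := two_le_card (F := F); omega)
        exact Nat.mul_le_mul hr (Nat.sub_le _ _)
      have h5 : (Fintype.card F : ℝ) ^ ((m : ℝ) * n) = (Fintype.card F : ℝ) ^ (m * n) := by
        rw [← Real.rpow_natCast]
        push_cast
        rfl
      rw [h5]
      exact_mod_cast h4
    · have : IsEmpty {U : Submodule F (Fin n → F) // finrank F U = r ∧ finrank F U ≤ m} := by
        constructor
        rintro ⟨U, h1, h2⟩
        omega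
      rw [Nat.card_of_isEmpty, Nat.cast_zero]
      have := q_pos (F := F)
      positivity
  refine (Finset.sum_le_card_nsmul _ _ _ h2).trans (le_of_eq ?_)
  rw [Finset.card_range, nsmul_eq_mul]
  push_cast
  ring

theorem fix_large_dim (hn : 128 ≤ n) (σ : Equiv.Perm (Fin n)) (t : Fin n → Fˣ) {τ : F ≃+* F}
    (hx : (∀ c, τ c = c) → ∀ l, n < 2 * (bad σ t l).card) (j : ℕ) :
    (Nat.card {U : Submodule F (Fin n → F) // finrank F U = j ∧
      gmap (mono_semiLin σ t τ) U ≤ U} : ℝ) ≤
      24 * (Fintype.card F : ℝ) * ((n : ℝ) + 1) ^ 2 *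
        (Fintype.card F : ℝ) ^ ((n : ℝ) ^ 2 / 4 - (n : ℝ) ^ 2 / 16384) := by
  have hq := one_le_q (F := F)
  have hq0 := q_pos (F := F)
  have hnR : (128 : ℝ) ≤ n := by exact_mod_cast hn
  set Q : ℝ := (Fintype.card F : ℝ) with hQ
  set M : ℝ := Q ^ ((n : ℝ) ^ 2 / 4 - (n : ℝ) ^ 2 / 16384) with hM
  have hM0 : 0 < M := by positivity
  by_cases hj : (n : ℝ) ^ 2 / 4096 ≤ ((n : ℝ) / 2 - j) ^ 2
  · have h3 := card_dim_le_real' (F := F) (V := Fin n → F) j ((n : ℝ) ^ 2 / 4096) (by
      rw [Module.finrank_fintype_fun_eq_card, Fintype.card_fin]; exact hj)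
    rw [Module.finrank_fintype_fun_eq_card, Fintype.card_fin, ← hQ] at h3
    have h4 : (Nat.card {U : Submodule F (Fin n → F) // finrank F U = j ∧
        gmap (mono_semiLin σ t τ) U ≤ U} : ℝ) ≤
        (Nat.card {U : Submodule F (Fin n → F) // finrank F U = j} : ℝ) := by
      have h5 : Nat.card {U : Submodule F (Fin n → F) // finrank F U = j ∧
        gmap (mono_semiLin σ t τ) U ≤ U} ≤
          Nat.card {U : Submodule F (Fin n → F) // finrank F U = j} :=
        card_le_of_imp (fun U hU => hU.1)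
      exact_mod_cast h5
    have h5 : Q ^ ((n : ℝ) ^ 2 / 4 - (n : ℝ) ^ 2 / 4096) ≤ M := by
      apply Real.rpow_le_rpow_of_exponent_le hq
      nlinarith
    have h6 : (4 : ℝ) ≤ 24 * Q * ((n : ℝ) + 1) ^ 2 := by nlinarith
    calc _ ≤ _ := h4
      _ ≤ _ := h3
      _ ≤ 4 * M := by linarith
      _ ≤ 24 * Q * ((n : ℝ) + 1) ^ 2 * M := mul_le_mul_of_nonneg_right h6 hM0.le
  · push Not at hj
    have habs := abs_lt_of_sq_lt_sq (show ((n : ℝ) / 2 - j) ^ 2 < ((n : ℝ) / 64) ^ 2 by
      refine lt_of_lt_of_eq hj ?_; ring) (by positivity)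
    rw [abs_lt] at habs
    obtain ⟨hj1, hj2⟩ := habs
    set t0 : ℕ := n / 32 with ht0
    have ht1 : (t0 : ℝ) ≤ n / 32 := by
      have : 32 * t0 ≤ n := by omega
      have : (32 : ℝ) * t0 ≤ n := by exact_mod_cast this
      linarith
    have ht2 : (n : ℝ) / 32 - 1 ≤ t0 := by
      have : n ≤ 32 * t0 + 32 := by omega
      have : (n : ℝ) ≤ 32 * t0 + 32 := by exact_mod_cast this
      linarith
    have hjt : 2 * t0 ≤ j := by
      have : (2 : ℝ) * t0 ≤ j := by linarith
      exact_mod_cast this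
    have hA := card_codim_le (F := F) (n := n) j t0 ((n : ℝ) / 128) (by positivity) (by linarith)
    have hA' : (n : ℝ) ^ 2 / 4 - ((n : ℝ) / 128) ^ 2 = (n : ℝ) ^ 2 / 4 - (n : ℝ) ^ 2 / 16384 := by
      ring
    rw [hA', ← hQ, ← hM] at hA
    by_cases hτ : ∀ c, τ c = c
    · have h1 := card_inv_lin (mono_semiLin σ t τ) hτ j t0 hjt
      have hB := card_small_le (F := F) (n := n) (2 * t0)
      have hl : ∀ l : F, (Nat.card {B : Submodule F (Fin n → F) // finrank F B ≤ 2 * t0} *
          Nat.card (Submodule F (LinearMap.ker (hlin (mono_semiLin σ t τ) hτ l))) : ℝ) ≤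
          16 * ((n : ℝ) + 1) ^ 2 * M := by
        intro l
        have h2 := card_submodule_le (F := F)
          (V := LinearMap.ker (hlin (mono_semiLin σ t τ) hτ l))
        have h4 := LinearMap.finrank_range_add_finrank_ker (hlin (mono_semiLin σ t τ) hτ l)
        rw [Module.finrank_fintype_fun_eq_card, Fintype.card_fin] at h4
        have h6 := bad_le_rank σ t hτ l
        have h7 := hx hτ l
        set r := finrank F (LinearMap.range (hlin (mono_semiLin σ t τ) hτ l))
        set k := finrank F (LinearMap.ker (hlin (mono_semiLin σ t τ) hτ l))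
        have hk6 : 6 * k ≤ 5 * n := by omega
        have hk : (k : ℝ) ≤ 5 / 6 * n := by
          have : (6 : ℝ) * k ≤ 5 * n := by exact_mod_cast hk6
          linarith
        have hkn : (k : ℝ) ≤ n := by exact_mod_cast (by omega : k ≤ n)
        have hk0 : (0 : ℝ) ≤ k := by positivity
        calc (Nat.card {B : Submodule F (Fin n → F) // finrank F B ≤ 2 * t0} *
            Nat.card (Submodule F (LinearMap.ker (hlin (mono_semiLin σ t τ) hτ l))) : ℝ)
            ≤ (4 * ((n : ℝ) + 1) * Q ^ (((2 * t0 : ℕ) : ℝ) * n)) *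
              (4 * ((k : ℝ) + 1) * Q ^ ((k : ℝ) ^ 2 / 4)) := by
              apply mul_le_mul hB h2 (by positivity) (by positivity)
          _ = 16 * (((n : ℝ) + 1) * ((k : ℝ) + 1)) *
              Q ^ (((2 * t0 : ℕ) : ℝ) * n + (k : ℝ) ^ 2 / 4) := by
              rw [Real.rpow_add hq0]; ring
          _ ≤ 16 * ((n : ℝ) + 1) ^ 2 * M := by
              apply mul_le_mul
              · have : ((n : ℝ) + 1) * ((k : ℝ) + 1) ≤ ((n : ℝ) + 1) ^ 2 := by
                  rw [pow_two]
                  apply mul_le_mul <;> first | linarith | positivity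
                linarith
              · apply Real.rpow_le_rpow_of_exponent_le hq
                push_cast
                have e1 : (2 * (t0 : ℝ)) * n ≤ (n : ℝ) ^ 2 / 16 := by nlinarith
                have e2 : (k : ℝ) ^ 2 / 4 ≤ 25 / 144 * (n : ℝ) ^ 2 := by nlinarith
                nlinarith
              · positivity
              · positivity
      have h1' : (Nat.card {U : Submodule F (Fin n → F) // finrank F U = j ∧
          gmap (mono_semiLin σ t τ) U ≤ U} : ℝ) ≤
          (Nat.card {R : Submodule F (Fin n → F) // finrank F R + t0 ≤ j} : ℝ) +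
          ∑ l : F, (Nat.card {B : Submodule F (Fin n → F) // finrank F B ≤ 2 * t0} : ℝ) *
            (Nat.card (Submodule F (LinearMap.ker (hlin (mono_semiLin σ t τ) hτ l))) : ℝ) := by
        exact_mod_cast h1
      have h8 : ∑ l : F, (Nat.card {B : Submodule F (Fin n → F) // finrank F B ≤ 2 * t0} : ℝ) *
            (Nat.card (Submodule F (LinearMap.ker (hlin (mono_semiLin σ t τ) hτ l))) : ℝ) ≤
          Q * (16 * ((n : ℝ) + 1) ^ 2 * M) := by
        refine (Finset.sum_le_card_nsmul _ _ _ (fun l _ => hl l)).trans (le_of_eq ?_)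
        rw [Finset.card_univ, nsmul_eq_mul]
      have h9 : 4 * ((n : ℝ) + 1) * M ≤ 8 * Q * ((n : ℝ) + 1) ^ 2 * M := by
        apply mul_le_mul_of_nonneg_right _ hM0.le
        nlinarith [mul_nonneg (show (0 : ℝ) ≤ Q by linarith) (show (0 : ℝ) ≤ (n : ℝ) + 1 by linarith)]
      calc _ ≤ _ := h1'
        _ ≤ 4 * ((n : ℝ) + 1) * M + Q * (16 * ((n : ℝ) + 1) ^ 2 * M) := add_le_add hA h8
        _ ≤ 8 * Q * ((n : ℝ) + 1) ^ 2 * M + Q * (16 * ((n : ℝ) + 1) ^ 2 * M) := by linarith
        _ = 24 * Q * ((n : ℝ) + 1) ^ 2 * M := by ring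
    · have h1 := card_inv_semi (mono_semiLin σ t τ) hτ j t0 hjt
      have h1' : (Nat.card {U : Submodule F (Fin n → F) // finrank F U = j ∧
          gmap (mono_semiLin σ t τ) U ≤ U} : ℝ) ≤
          (Nat.card {R : Submodule F (Fin n → F) // finrank F R + t0 ≤ j} : ℝ) := by
        exact_mod_cast h1
      have h9 : 4 * ((n : ℝ) + 1) * M ≤ 24 * Q * ((n : ℝ) + 1) ^ 2 * M := by
        apply mul_le_mul_of_nonneg_right _ hM0.le
        nlinarith [mul_nonneg (show (0 : ℝ) ≤ Q by linarith) (show (0 : ℝ) ≤ (n : ℝ) + 1 by linarith)]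
      calc _ ≤ _ := h1'
        _ ≤ _ := hA
        _ ≤ _ := h9

theorem fix_large (hn : 128 ≤ n) (σ : Equiv.Perm (Fin n)) (t : Fin n → Fˣ) {τ : F ≃+* F}
    (hx : (∀ c, τ c = c) → ∀ l, n < 2 * (bad σ t l).card) :
    (Nat.card {U : Submodule F (Fin n → F) // gmap (mono_semiLin σ t τ) U = U} : ℝ) ≤
      24 * (Fintype.card F : ℝ) * ((n : ℝ) + 1) ^ 3 *
        (Fintype.card F : ℝ) ^ ((n : ℝ) ^ 2 / 4 - (n : ℝ) ^ 2 / 16384) := by
  have h := card_eq_sum_dim (F := F) (V := Fin n → F)
    (fun U => gmap (mono_semiLin σ t τ) U ≤ U)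
  have h0 : Nat.card {U : Submodule F (Fin n → F) // gmap (mono_semiLin σ t τ) U = U} ≤
      Nat.card {U : Submodule F (Fin n → F) // gmap (mono_semiLin σ t τ) U ≤ U} :=
    card_le_of_imp (fun U hU => hU.le)
  rw [h, Module.finrank_fintype_fun_eq_card, Fintype.card_fin] at h0
  have h1 : (Nat.card {U : Submodule F (Fin n → F) // gmap (mono_semiLin σ t τ) U = U} : ℝ) ≤
      ∑ j ∈ Finset.range (n + 1), (Nat.card {U : Submodule F (Fin n → F) // finrank F U = j ∧
        gmap (mono_semiLin σ t τ) U ≤ U} : ℝ) := by exact_mod_cast h0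
  refine h1.trans ?_
  refine (Finset.sum_le_card_nsmul _ _ _ (fun j _ => fix_large_dim hn σ t hx j)).trans
    (le_of_eq ?_)
  rw [Finset.card_range, nsmul_eq_mul]
  push_cast
  ring

end Pool.Agent.H699.RM
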