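import Mathlib

set_option autoImplicit false

namespace Pool.Agent.H699.RM

open Module

/-- A matroid on the ground set `α` (all of `α`) is representable over the field `F` if there is a
matrix over `F` with columns `v a` indexed by `a : α` such that a set is independent in the matroid
exactly when the corresponding columns are linearly independent. -/
def IsRepresentable (F : Type) [Field F] {α : Type} (M : Matroid α) : Prop :=
  M.E = Set.univ ∧
    ∃ (d : ℕ) (v : α → Fin d → F), ∀ I : Set α, M.Indep I ↔ LinearIndepOn F v I

/-- The `F`-representable matroids with ground set `{0, …, n - 1}`. -/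
def RepMatroid (F : Type) [Field F] (n : ℕ) : Type :=
  {M : Matroid (Fin n) // IsRepresentable F M}

/-- Isomorphism of matroids: a bijection of the ground sets mapping independent sets onto
independent sets. -/
def Isomorphic {F : Type} [Field F] {n : ℕ} (M N : RepMatroid F n) : Prop :=
  ∃ σ : Equiv.Perm (Fin n), ∀ I : Set (Fin n), M.1.Indep I ↔ N.1.Indep (σ '' I)

/-- Isomorphism as an equivalence relation. -/
def isoSetoid (F : Type) [Field F] (n : ℕ) : Setoid (RepMatroid F n) where
  r := Isomorphic
  iseqv := by
    refine ⟨fun M => ⟨1, fun I => by simp⟩, ?_, ?_⟩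
    · rintro M N ⟨σ, h⟩
      refine ⟨σ.symm, fun I => ?_⟩
      rw [h, Set.image_image]
      simp
    · rintro M N P ⟨σ, h⟩ ⟨σ', h'⟩
      refine ⟨σ.trans σ', fun I => ?_⟩
      rw [h, h', Set.image_image]
      rfl

/-- The number of isomorphism classes of `F`-representable matroids on `n` elements. -/
noncomputable def numRep (F : Type) [Field F] (n : ℕ) : ℕ :=
  Nat.card (Quotient (isoSetoid F n))

/-- The Gaussian binomial coefficient: the number of `j`-dimensional subspaces of `F ^ n`. -/
noncomputable def gaussBinom (F : Type) [Field F] (n j : ℕ) : ℕ :=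
  Nat.card {W : Submodule F (Fin n → F) // finrank F W = j}

/-- The comparison function
`F_q(n) = (1 / (n! k (q - 1) ^ (n - 1))) * ∑_j [n choose j]_q` for `q = |F|`. -/
noncomputable def comparison (F : Type) [Field F] [Fintype F] (k n : ℕ) : ℝ :=
  1 / ((n.factorial : ℝ) * k * ((Fintype.card F : ℝ) - 1) ^ (n - 1)) *
    ∑ j ∈ Finset.range (n + 1), (gaussBinom F n j : ℝ)

end Pool.Agent.H699.RM
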