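import Pool.Agent.H699.RM.Ftpg

set_option autoImplicit false
set_option linter.unusedSectionVars false

namespace Pool.Agent.H699.RM

open Module

variable {F : Type} [Field F] [Fintype F] {n : ℕ}

/-- Subspaces having a rich standard matrix. -/
def Good (U : Submodule F (Fin n → F)) : Prop :=
  ∃ (j : ℕ) (b : Fin j → Fin n) (A : Matrix (Fin j) (Fin n) F), 3 ≤ j ∧ StdForm U b A ∧ Rich A

theorem gmap_le_of {U U' : Submodule F (Fin n → F)} {j : ℕ} {A : Matrix (Fin j) (Fin n) F}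
    (hU : U = Submodule.span F (Set.range A)) (t : Fin n → Fˣ) (τ : F ≃+* F)
    (h : ∀ a, monoA 1 t τ (A a) ∈ U') : gmap (mono_semiLin 1 t τ) U ≤ U' := by
  rintro _ ⟨u, hu, rfl⟩
  rw [hU] at hu
  change u ∈ Submodule.span F (Set.range A) at hu
  induction hu using Submodule.span_induction with
  | mem x hx =>
    obtain ⟨a, rfl⟩ := hx
    exact h a
  | zero => rw [map_zero]; exact U'.zero_mem
  | add x y _ _ hx hy => rw [map_add]; exact U'.add_mem hx hy
  | smul r x _ hx =>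
    rw [mono_semiLin 1 t τ]
    exact U'.smul_mem _ hx

theorem gmap_scale (U : Submodule F (Fin n → F)) (t : Fin n → Fˣ) (τ : F ≃+* F) (s : Fˣ) :
    gmap (mono_semiLin 1 (fun i => s * t i) τ) U = gmap (mono_semiLin 1 t τ) U := by
  have h : ∀ u : Fin n → F, monoA 1 (fun i => s * t i) τ u = (s : F) • monoA 1 t τ u := by
    intro u
    funext i
    change ((s * t i : Fˣ) : F) * τ (u _) = (s : F) * ((t i : F) * τ (u _))
    push_cast
    ring
  apply le_antisymm
  · rintro _ ⟨u, hu, rfl⟩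
    rw [h]
    exact Submodule.smul_mem _ _ ⟨u, hu, rfl⟩
  · rintro _ ⟨u, hu, rfl⟩
    have : monoA 1 t τ u = ((s⁻¹ : Fˣ) : F) • monoA 1 (fun i => s * t i) τ u := by
      rw [h, smul_smul]
      simp
    rw [this]
    exact Submodule.smul_mem _ _ ⟨u, hu, rfl⟩

/-- Unique representability of the matroid of a good subspace. -/
theorem unique_rep (hn : 0 < n) {U U' : Submodule F (Fin n → F)} (hG : Good U)
    (hI : ∀ I, IndU U I ↔ IndU U' I) :
    ∃ (t : Fin n → Fˣ) (τ : F ≃+* F), t ⟨0, hn⟩ = 1 ∧ U' = gmap (mono_semiLin 1 t τ) U := by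
  obtain ⟨j, b, A, hj, hA, hR⟩ := hG
  obtain ⟨A', hA'⟩ := exists_std hA hI
  obtain ⟨τ, d, t, hd, hdt⟩ := ftpg hj hR (fun k κ γ => minor_iff hA hA' hI κ γ)
  have h1 : ∀ a, A' a = d a • monoA 1 t τ (A a) := by
    intro a
    funext c
    exact hdt a c
  have h2 : U' = gmap (mono_semiLin 1 t τ) U := by
    apply le_antisymm
    · rw [hA'.1, Submodule.span_le]
      rintro _ ⟨a, rfl⟩
      rw [h1]
      apply Submodule.smul_mem
      refine ⟨A a, ?_, rfl⟩
      rw [hA.1]
      exact Submodule.subset_span ⟨a, rfl⟩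
    · apply gmap_le_of hA.1
      intro a
      have h3 : monoA 1 t τ (A a) = (d a)⁻¹ • A' a := by
        rw [h1, smul_smul, inv_mul_cancel₀ (hd a), one_smul]
      rw [h3, hA'.1]
      apply Submodule.smul_mem
      exact Submodule.subset_span ⟨a, rfl⟩
  refine ⟨fun i => (t ⟨0, hn⟩)⁻¹ * t i, τ, by simp, ?_⟩
  rw [gmap_scale, h2]

theorem card_good_le (hn : 0 < n) :
    Nat.card {U : Submodule F (Fin n → F) // Good U} ≤
      Nat.card (RepMatroid F n) * ((Fintype.card F - 1) ^ (n - 1) * Nat.card (F ≃+* F)) := by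
  classical
  obtain ⟨m, rfl⟩ : ∃ m, n = m + 1 := ⟨n - 1, by omega⟩
  have key : ∀ M : RepMatroid F (m + 1), ∃ U0 : Submodule F (Fin (m + 1) → F),
      ∀ U, Good U → matOf U = M →
      ∃ (t : Fin (m + 1) → Fˣ) (τ : F ≃+* F), t 0 = 1 ∧ U = gmap (mono_semiLin 1 t τ) U0 := by
    intro M
    by_cases h : ∃ U0, Good U0 ∧ matOf U0 = M
    · obtain ⟨U0, h1, h2⟩ := h
      refine ⟨U0, fun U hU hM => ?_⟩
      exact unique_rep (Nat.succ_pos m) h1 (matOf_eq_iff.mp (h2.trans hM.symm))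
    · refine ⟨⊥, fun U hU hM => ?_⟩
      exact absurd ⟨U, hU, hM⟩ h
  choose U0 hU0 using key
  have key2 : ∀ U : {U : Submodule F (Fin (m + 1) → F) // Good U},
      ∃ x : (Fin m → Fˣ) × (F ≃+* F), U.1 = gmap (mono_semiLin 1 (Fin.cons 1 x.1) x.2)
        (U0 (matOf U.1)) := by
    intro U
    obtain ⟨t, τ, h1, h2⟩ := hU0 (matOf U.1) U.1 U.2 rfl
    refine ⟨(Fin.tail t, τ), ?_⟩
    have : (Fin.cons 1 (Fin.tail t) : Fin (m + 1) → Fˣ) = t := by
      rw [← h1]
      exact Fin.cons_self_tail t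
    simp only
    rw [this]
    exact h2
  choose f hf using key2
  have h1 : Nat.card (RepMatroid F (m + 1) × ((Fin m → Fˣ) × (F ≃+* F))) =
      Nat.card (RepMatroid F (m + 1)) * ((Fintype.card F - 1) ^ m * Nat.card (F ≃+* F)) := by
    rw [Nat.card_prod, Nat.card_prod, Nat.card_eq_fintype_card (α := Fin m → Fˣ),
      Fintype.card_fun, Fintype.card_fin, Fintype.card_units]
  rw [Nat.add_sub_cancel, ← h1]
  apply Nat.card_le_card_of_injective (fun U => (matOf U.1, f U))
  intro U U' h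
  simp only [Prod.mk.injEq] at h
  apply Subtype.ext
  rw [hf U, hf U', h.1, h.2]

end Pool.Agent.H699.RM
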