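import Pool.Agent.H699.RM.Gauss

set_option autoImplicit false
set_option linter.unusedSectionVars false

namespace Pool.Agent.H699.RM

open Module

variable {F : Type} [Field F] [Fintype F] {V : Type} [AddCommGroup V] [Module F V] [Finite V]

theorem finrank_map_add {W : Type} [AddCommGroup W] [Module F W] (f : V →ₗ[F] W)
    (C : Submodule F V) (hC : LinearMap.ker f ≤ C) :
    finrank F (C.map f) + finrank F (LinearMap.ker f) = finrank F C := by
  have : Module.Finite F V := Module.Finite.of_finite
  have h := LinearMap.finrank_range_add_finrank_ker (f.domRestrict C)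
  rw [LinearMap.range_domRestrict] at h
  have h2 : finrank F (LinearMap.ker (f.domRestrict C)) = finrank F (LinearMap.ker f) := by
    rw [LinearMap.ker_domRestrict]
    exact (Submodule.comapSubtypeEquivOfLe hC).finrank_eq
  rw [h2] at h
  exact h

/-- The number of subspaces between `B` and `C`. -/
theorem card_interval_le (B C : Submodule F V) (hBC : B ≤ C) {W : Type} [AddCommGroup W]
    [Module F W] [Finite W] (hW : finrank F W + finrank F B = finrank F C) :
    Nat.card {U : Submodule F V // B ≤ U ∧ U ≤ C} ≤ Nat.card (Submodule F W) := by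
  have : Module.Finite F V := Module.Finite.of_finite
  let D : Submodule F (V ⧸ B) := C.map B.mkQ
  have hfin : Finite (V ⧸ B) := Finite.of_surjective _ (Submodule.mkQ_surjective B)
  have hD : finrank F D = finrank F W := by
    have h := finrank_map_add B.mkQ C (by rw [Submodule.ker_mkQ]; exact hBC)
    rw [Submodule.ker_mkQ] at h
    change finrank F (C.map B.mkQ) = _
    omega
  rw [← card_submodule_congr hD]
  let f : {U : Submodule F V // B ≤ U ∧ U ≤ C} → Submodule F D :=
    fun U => (U.1.map B.mkQ).comap D.subtype
  apply Nat.card_le_card_of_injective f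
  rintro ⟨U, hU1, hU2⟩ ⟨U', hU1', hU2'⟩ h
  simp only [f] at h
  have h1 : (U.map B.mkQ) = (U'.map B.mkQ) := by
    have h2 := congrArg (Submodule.map D.subtype) h
    rw [Submodule.map_comap_subtype, Submodule.map_comap_subtype] at h2
    rw [inf_eq_right.mpr (Submodule.map_mono hU2), inf_eq_right.mpr (Submodule.map_mono hU2')] at h2
    exact h2
  have h3 := congrArg (Submodule.comap B.mkQ) h1
  rw [Submodule.comap_map_mkQ, Submodule.comap_map_mkQ, sup_eq_right.mpr hU1,
    sup_eq_right.mpr hU1'] at h3
  exact Subtype.ext h3

/-- Invariant subspaces `U` of a linear map `h` are counted by the image `h U` and a subspace of a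
space of dimension `dim ker h`. -/
theorem card_invariant_le (h : V →ₗ[F] V) (Q : Submodule F V → Prop) :
    Nat.card {U : Submodule F V // U.map h ≤ U ∧ Q (U.map h)} ≤
      Nat.card {B : Submodule F V // B ≤ LinearMap.range h ∧ Q B} *
        Nat.card (Submodule F (LinearMap.ker h)) := by
  classical
  let X := {B : Submodule F V // B ≤ LinearMap.range h ∧ Q B}
  have : Fintype X := Fintype.ofFinite X
  let Y := Σ B : X, {U : Submodule F V // B.1 ≤ U ∧ U ≤ B.1.comap h ∧ True}
  have hY : Nat.card Y ≤ Nat.card X * Nat.card (Submodule F (LinearMap.ker h)) := by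
    rw [Nat.card_sigma, Nat.card_eq_fintype_card (α := X), ← smul_eq_mul]
    apply Finset.sum_le_card_nsmul
    intro B _
    by_cases hB : B.1 ≤ B.1.comap h
    · have h1 := card_interval_le (F := F) B.1 (B.1.comap h) hB (W := LinearMap.ker h) (by
        have h2 := finrank_map_add h (B.1.comap h) (by
          intro x hx
          rw [LinearMap.mem_ker] at hx
          rw [Submodule.mem_comap, hx]
          exact B.1.zero_mem)
        rw [Submodule.map_comap_eq, inf_eq_right.mpr B.2.1] at h2
        omega)
      refine le_trans (le_of_eq ?_) h1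
      apply Nat.card_congr
      exact Equiv.subtypeEquivRight (fun U => by simp)
    · have : IsEmpty {U : Submodule F V // B.1 ≤ U ∧ U ≤ B.1.comap h ∧ True} := by
        constructor
        rintro ⟨U, h1, h2, -⟩
        exact hB (h1.trans h2)
      rw [Nat.card_of_isEmpty]
      exact Nat.zero_le _
  refine le_trans ?_ hY
  have : Finite Y := Finite.instSigma
  let f : {U : Submodule F V // U.map h ≤ U ∧ Q (U.map h)} → Y := fun U =>
    ⟨⟨U.1.map h, LinearMap.map_le_range, U.2.2⟩, ⟨U.1, U.2.1, Submodule.le_comap_map _ _, trivial⟩⟩
  apply Nat.card_le_card_of_injective f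
  intro U U' hUU
  let k : Y → Submodule F V := fun y => y.2.1
  have : k (f U) = k (f U') := congrArg k hUU
  exact Subtype.ext this

/-- Subspaces contained in a given subspace. -/
theorem card_le_sub (C : Submodule F V) (Q : Submodule F V → Prop) :
    Nat.card {B : Submodule F V // B ≤ C ∧ Q B} =
      Nat.card {B : Submodule F C // Q (B.map C.subtype)} := by
  apply Nat.card_congr
  refine ⟨fun B => ⟨B.1.comap C.subtype, ?_⟩, fun B => ⟨B.1.map C.subtype, ?_, B.2⟩, ?_, ?_⟩
  · rw [Submodule.map_comap_subtype, inf_eq_right.mpr B.2.1]
    exact B.2.2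
  · exact Submodule.map_subtype_le C B.1
  · intro B
    apply Subtype.ext
    simp only
    rw [Submodule.map_comap_subtype, inf_eq_right.mpr B.2.1]
  · intro B
    apply Subtype.ext
    simp only
    exact Submodule.comap_map_eq_of_injective (Submodule.injective_subtype C) B.1

theorem card_invariant_le' (h : V →ₗ[F] V) :
    Nat.card {U : Submodule F V // U.map h ≤ U} ≤
      Nat.card (Submodule F (LinearMap.range h)) * Nat.card (Submodule F (LinearMap.ker h)) := by
  have h1 := card_invariant_le h (fun _ => True)
  have h2 := card_le_sub (LinearMap.range h) (fun _ => True)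
  rw [h2] at h1
  have h3 : Nat.card {B : Submodule F (LinearMap.range h) // True} =
      Nat.card (Submodule F (LinearMap.range h)) :=
    Nat.card_congr (Equiv.subtypeUnivEquiv (fun _ => trivial))
  rw [h3] at h1
  refine le_trans (le_of_eq ?_) h1
  apply Nat.card_congr
  exact Equiv.subtypeEquivRight (fun U => by simp)

end Pool.Agent.H699.RM
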