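import Pool.Agent.H699.RM.Std

set_option autoImplicit false
set_option linter.unusedSectionVars false

namespace Pool.Agent.H699.RM

open Module

variable {F : Type} [Field F] [Fintype F] {n j : ℕ}

/-- Every triple of rows shows every vector of `F ^ 3` in some column. -/
def Rich (A : Matrix (Fin j) (Fin n) F) : Prop :=
  ∀ a b e : Fin j, a ≠ b → a ≠ e → b ≠ e → ∀ x y z : F, ∃ c, A a c = x ∧ A b c = y ∧ A e c = z

/-- The coordinate form of the fundamental theorem of projective geometry that we need. -/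
theorem ftpg (hj : 3 ≤ j) {A A' : Matrix (Fin j) (Fin n) F} (hR : Rich A)
    (hm : ∀ (k : ℕ) (κ : Fin k → Fin j) (γ : Fin k → Fin n),
      (A.submatrix κ γ).det = 0 ↔ (A'.submatrix κ γ).det = 0) :
    ∃ (τ : F ≃+* F) (d : Fin j → F) (t : Fin n → Fˣ),
      (∀ a, d a ≠ 0) ∧ ∀ a c, A' a c = d a * ((t c : F) * τ (A a c)) := by
  classical
  have hthird : ∀ a b : Fin j, ∃ e, e ≠ a ∧ e ≠ b := by
    intro a b
    by_contra hcon
    push Not at hcon
    have h1 : (Finset.univ : Finset (Fin j)) ⊆ {a, b} := by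
      intro e _
      by_cases he : e = a
      · simp [he]
      · simp [hcon e he]
    have h2 := Finset.card_le_card h1
    have h3 := Finset.card_le_two (a := a) (b := b)
    rw [Finset.card_univ, Fintype.card_fin] at h2
    omega
  -- vanishing patterns
  have Z : ∀ a c, A a c = 0 ↔ A' a c = 0 := by
    intro a c
    have := hm 1 (fun _ => a) (fun _ => c)
    simpa using this
  have T2 : ∀ a b c c', A a c * A b c' = A a c' * A b c ↔ A' a c * A' b c' = A' a c' * A' b c := by
    intro a b c c'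
    have := hm 2 ![a, b] ![c, c']
    simp only [Matrix.det_fin_two, Matrix.submatrix_apply, Matrix.cons_val_zero,
      Matrix.cons_val_one, sub_eq_zero] at this
    exact this
  have R2 : ∀ a b : Fin j, a ≠ b → ∀ x y : F, ∃ c, A a c = x ∧ A b c = y := by
    intro a b hab x y
    obtain ⟨e, he1, he2⟩ := hthird a b
    obtain ⟨c, h1, h2, -⟩ := hR a b e hab he1.symm he2.symm x y 0
    exact ⟨c, h1, h2⟩
  have hφ : ∀ (a b : Fin j) (x : F), ∃ y : F, a ≠ b →
      ∀ c, A a c = x * A b c → A b c ≠ 0 → A' a c = y * A' b c := by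
    intro a b x
    by_cases hab : a = b
    · exact ⟨0, fun h => absurd hab h⟩
    · obtain ⟨c0, h1, h2⟩ := R2 a b hab x 1
      have hb0 : A' b c0 ≠ 0 := by
        rw [Ne, ← Z, h2]
        exact one_ne_zero
      refine ⟨A' a c0 / A' b c0, fun _ c hc hc' => ?_⟩
      have h3 := (T2 a b c c0).mp (by rw [h1, h2, hc, mul_one])
      field_simp
      rw [h3]
  choose φ hφ using hφ
  have P : ∀ a b, a ≠ b → ∀ x c, A a c = x * A b c → A b c ≠ 0 → A' a c = φ a b x * A' b c :=
    fun a b hab x c h1 h2 => hφ a b x hab c h1 h2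
  have P1 : ∀ a b, a ≠ b → ∀ x c, A a c = x → A b c = 1 → A' a c = φ a b x * A' b c :=
    fun a b hab x c h1 h2 => P a b hab x c (by rw [h1, h2, mul_one]) (by rw [h2]; exact one_ne_zero)
  have φ0 : ∀ a b, a ≠ b → φ a b 0 = 0 := by
    intro a b hab
    obtain ⟨c, h1, h2⟩ := R2 a b hab 0 1
    have h3 := P1 a b hab 0 c h1 h2
    rw [(Z a c).mp h1] at h3
    have hb0 : A' b c ≠ 0 := by
      rw [Ne, ← Z, h2]
      exact one_ne_zero
    exact (mul_eq_zero.mp h3.symm).resolve_right hb0
  have φne : ∀ a b, a ≠ b → ∀ x, x ≠ 0 → φ a b x ≠ 0 := by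
    intro a b hab x hx h0
    obtain ⟨c, h1, h2⟩ := R2 a b hab x 1
    have h3 := P1 a b hab x c h1 h2
    rw [h0, zero_mul, ← Z, h1] at h3
    exact hx h3
  have φinj : ∀ a b, a ≠ b → ∀ x y, φ a b x = φ a b y → x = y := by
    intro a b hab x y hxy
    obtain ⟨c, h1, h2⟩ := R2 a b hab x 1
    obtain ⟨c', h1', h2'⟩ := R2 a b hab y 1
    have h3 := P1 a b hab x c h1 h2
    have h3' := P1 a b hab y c' h1' h2'
    have h4 := (T2 a b c c').mpr (by rw [h3, h3', hxy]; ring)
    rw [h1, h2, h1', h2', mul_one, mul_one] at h4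
    exact h4
  -- multiplicativity
  have M : ∀ a b e, a ≠ b → a ≠ e → b ≠ e → ∀ x y, φ a e (x * y) = φ a b x * φ b e y := by
    intro a b e hab hae hbe x y
    by_cases hy : y = 0
    · rw [hy, mul_zero, φ0 a e hae, φ0 b e hbe, mul_zero]
    · obtain ⟨c, h1, h2, h3⟩ := hR a b e hab hae hbe (x * y) y 1
      have e1 := P a b hab x c (by rw [h1, h2]) (by rw [h2]; exact hy)
      have e2 := P1 b e hbe y c h2 h3
      have e3 := P1 a e hae (x * y) c h1 h3
      have he0 : A' e c ≠ 0 := by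
        rw [Ne, ← Z, h3]
        exact one_ne_zero
      apply mul_right_cancel₀ he0
      rw [← e3, e1, e2, mul_assoc]
  -- additivity
  have Ad : ∀ a b e, a ≠ b → a ≠ e → b ≠ e → ∀ x y,
      φ a e (x + y) = φ b e 1 * φ a b x + φ a e y := by
    intro a b e hab hae hbe x y
    obtain ⟨c1, p1, p2, p3⟩ := hR a b e hab hae hbe x 1 0
    obtain ⟨c2, q1, q2, q3⟩ := hR a b e hab hae hbe y 0 1
    obtain ⟨c3, r1, r2, r3⟩ := hR a b e hab hae hbe (x + y) 1 1
    have h := (hm 3 ![a, b, e] ![c1, c2, c3]).mp (by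
      rw [Matrix.det_fin_three]
      simp only [Matrix.submatrix_apply]
      simp [p1, p2, p3, q1, q2, q3, r1, r2, r3])
    have f1 := P1 a b hab x c1 p1 p2
    have f2 : A' e c1 = 0 := (Z e c1).mp p3
    have f3 := P1 a e hae y c2 q1 q3
    have f4 : A' b c2 = 0 := (Z b c2).mp q2
    have f5 := P1 a e hae (x + y) c3 r1 r3
    have f6 := P1 b e hbe 1 c3 r2 r3
    have g1 : A' b c1 ≠ 0 := by rw [Ne, ← Z, p2]; exact one_ne_zero
    have g2 : A' e c2 ≠ 0 := by rw [Ne, ← Z, q3]; exact one_ne_zero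
    have g3 : A' e c3 ≠ 0 := by rw [Ne, ← Z, r3]; exact one_ne_zero
    rw [Matrix.det_fin_three] at h
    simp only [Matrix.submatrix_apply] at h
    simp [f2, f4] at h
    rw [f1, f3, f5, f6] at h
    have h5 : A' b c1 * A' e c2 * A' e c3 *
        (φ a e (x + y) - (φ b e 1 * φ a b x + φ a e y)) = 0 := by
      linear_combination h
    have h6 : A' b c1 * A' e c2 * A' e c3 ≠ 0 := mul_ne_zero (mul_ne_zero g1 g2) g3
    exact sub_eq_zero.mp ((mul_eq_zero.mp h5).resolve_left h6)
  -- the field automorphism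
  let a0 : Fin j := ⟨0, by omega⟩
  let b0 : Fin j := ⟨1, by omega⟩
  let e0 : Fin j := ⟨2, by omega⟩
  have hab0 : a0 ≠ b0 := by simp [a0, b0]
  have hae0 : a0 ≠ e0 := by simp [a0, e0]
  have hbe0 : b0 ≠ e0 := by simp [b0, e0]
  let ψ : Fin j → Fin j → F → F := fun a b x => φ a b x / φ a b 1
  have hψ : ∀ a b, a ≠ b → ∀ x, φ a b x = φ a b 1 * ψ a b x := by
    intro a b hab x
    simp only [ψ]
    rw [mul_div_cancel₀ _ (φne a b hab 1 one_ne_zero)]
  have C1 : ∀ a b e, a ≠ b → a ≠ e → b ≠ e → ψ a e = ψ a b := by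
    intro a b e hab hae hbe
    funext x
    have h1 := M a b e hab hae hbe x 1
    have h2 := M a b e hab hae hbe 1 1
    rw [mul_one] at h1 h2
    simp only [ψ]
    rw [h1, h2, mul_div_mul_right _ _ (φne b e hbe 1 one_ne_zero)]
  have C2 : ∀ a b e, a ≠ b → a ≠ e → b ≠ e → ψ a e = ψ b e := by
    intro a b e hab hae hbe
    funext x
    have h1 := M a b e hab hae hbe 1 x
    have h2 := M a b e hab hae hbe 1 1
    rw [one_mul] at h1 h2
    simp only [ψ]
    rw [h1, h2, mul_div_mul_left _ _ (φne a b hab 1 one_ne_zero)]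
  have hall : ∀ a b, a ≠ b → ψ a b = ψ a0 b0 := by
    intro a b hab
    by_cases h1 : a = a0
    · subst h1
      by_cases h2 : b = b0
      · rw [h2]
      · exact C1 a0 b0 b hab0 hab (Ne.symm h2)
    · by_cases h2 : b = b0
      · subst h2
        exact C2 a a0 b0 h1 hab hab0
      · by_cases h3 : a = b0
        · subst h3
          by_cases h4 : b = a0
          · rw [h4]
            calc ψ b0 a0 = ψ b0 e0 := C1 b0 e0 a0 hbe0 hab0.symm hae0.symm
              _ = ψ a0 e0 := C2 b0 a0 e0 hab0.symm hbe0 hae0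
              _ = ψ a0 b0 := C1 a0 b0 e0 hab0 hae0 hbe0
          · calc ψ b0 b = ψ a0 b := C2 b0 a0 b hab0.symm hab (Ne.symm h4)
              _ = ψ a0 b0 := C1 a0 b0 b hab0 (Ne.symm h4) (Ne.symm h2)
        · calc ψ a b = ψ a b0 := C1 a b0 b h3 hab (Ne.symm h2)
            _ = ψ a0 b0 := C2 a a0 b0 h1 h3 hab0
  let θ : F → F := ψ a0 b0
  have hθ : ∀ a b, a ≠ b → ∀ x, φ a b x = φ a b 1 * θ x := by
    intro a b hab x
    rw [hψ a b hab x, hall a b hab]
  have hM1 := M a0 b0 e0 hab0 hae0 hbe0 1 1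
  rw [one_mul] at hM1
  have n1 := φne a0 b0 hab0 1 one_ne_zero
  have n2 := φne b0 e0 hbe0 1 one_ne_zero
  have n3 := φne a0 e0 hae0 1 one_ne_zero
  let τ0 : F →+* F :=
    { toFun := θ
      map_one' := by
        simp only [θ, ψ]
        exact div_self n1
      map_zero' := by
        simp only [θ, ψ]
        rw [φ0 a0 b0 hab0, zero_div]
      map_mul' := by
        intro x y
        have h1 := M a0 b0 e0 hab0 hae0 hbe0 x y
        rw [hθ a0 e0 hae0, hθ a0 b0 hab0 x, hθ b0 e0 hbe0 y, hM1] at h1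
        apply mul_left_cancel₀ (mul_ne_zero n1 n2)
        rw [h1]
        ring
      map_add' := by
        intro x y
        have h1 := Ad a0 b0 e0 hab0 hae0 hbe0 x y
        rw [hθ a0 e0 hae0 (x + y), hθ a0 b0 hab0 x, hθ a0 e0 hae0 y, hM1] at h1
        apply mul_left_cancel₀ (mul_ne_zero n1 n2)
        rw [h1]
        ring }
  let τ : F ≃+* F := RingEquiv.ofBijective τ0 (Finite.injective_iff_bijective.mp τ0.injective)
  have hτ : ∀ x, τ x = θ x := fun x => rfl
  -- row multipliers
  let d : Fin j → F := fun a => if a = a0 then 1 else φ a a0 1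
  have hd0 : ∀ a, d a ≠ 0 := by
    intro a
    simp only [d]
    by_cases h : a = a0
    · rw [if_pos h]; exact one_ne_zero
    · rw [if_neg h]; exact φne a a0 h 1 one_ne_zero
  have hd : ∀ a b, a ≠ b → φ a b 1 * d b = d a := by
    intro a b hab
    by_cases h1 : b = a0
    · have h2 : a ≠ a0 := fun h => hab (h.trans h1.symm)
      simp only [d]
      rw [if_pos h1, if_neg h2, h1, mul_one]
    · by_cases h2 : a = a0
      · simp only [d]
        rw [if_neg h1, if_pos h2, h2]
        obtain ⟨c, p1, p2⟩ := R2 a0 b (Ne.symm h1) 1 1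
        have q1 := P1 a0 b (Ne.symm h1) 1 c p1 p2
        have q2 := P1 b a0 h1 1 c p2 p1
        have g1 : A' a0 c ≠ 0 := by rw [Ne, ← Z, p1]; exact one_ne_zero
        apply mul_right_cancel₀ g1
        rw [one_mul, mul_assoc, ← q2, ← q1]
      · simp only [d]
        rw [if_neg h1, if_neg h2]
        have := M a b a0 hab h2 h1 1 1
        rw [one_mul] at this
        exact this.symm
  -- column multipliers
  have ht : ∀ c, ∃ u : Fˣ, ∀ a, A' a c = d a * ((u : F) * τ (A a c)) := by
    intro c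
    by_cases hc : ∃ b, A b c ≠ 0
    · obtain ⟨b, hb⟩ := hc
      have hb' : A' b c ≠ 0 := fun h => hb ((Z b c).mpr h)
      have hτb : τ (A b c) ≠ 0 := (map_ne_zero τ).mpr hb
      refine ⟨Units.mk0 (A' b c / (d b * τ (A b c)))
        (div_ne_zero hb' (mul_ne_zero (hd0 b) hτb)), fun a => ?_⟩
      rw [Units.val_mk0]
      by_cases hab : a = b
      · subst hab
        field_simp [hd0 a]
      · have h1 := P a b hab (A a c / A b c) c (by field_simp) hb
        rw [hθ a b hab, ← hτ, map_div₀] at h1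
        rw [h1, ← hd a b hab]
        have := hd0 b
        field_simp
    · push Not at hc
      refine ⟨1, fun a => ?_⟩
      rw [(Z a c).mp (hc a), hc a, map_zero, mul_zero, mul_zero]
  choose t ht using ht
  exact ⟨τ, d, t, hd0, fun a c => ht c a⟩

end Pool.Agent.H699.RM
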