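import Mathlib

set_option autoImplicit false
set_option linter.unusedSectionVars false

namespace Pool.Agent.H699.RM

open Module

/-- The number of ordered bases of a `j`-dimensional space. -/
def glc (q j : ℕ) : ℕ := ∏ i : Fin j, (q ^ j - q ^ i.val)

section Count

variable {F : Type} [Field F] [Fintype F] {V : Type} [AddCommGroup V] [Module F V] [Finite V]

instance finite_submodule : Finite (Submodule F V) :=
  Finite.of_injective (fun W : Submodule F V => (W : Set V)) SetLike.coe_injective

theorem span_coe_eq {j : ℕ} (U : Submodule F V) (hU : finrank F U = j) (s : Fin j → U)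
    (hs : LinearIndependent F s) :
    Submodule.span F (Set.range fun i => (s i : V)) = U := by
  have hs' : LinearIndependent F (fun i => (s i : V)) :=
    hs.map' U.subtype (Submodule.ker_subtype U)
  apply Submodule.eq_of_le_of_finrank_eq
  · rw [Submodule.span_le]
    rintro _ ⟨i, rfl⟩
    exact (s i).2
  · rw [finrank_span_eq_card hs', Fintype.card_fin, hU]

/-- Ordered bases of subspaces with a given property embed in tuples. -/
theorem card_mul_le {j : ℕ} (P : Submodule F V → Prop) (Q : (Fin j → V) → Prop)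
    (hPQ : ∀ s : Fin j → V, LinearIndependent F s → P (Submodule.span F (Set.range s)) → Q s) :
    Nat.card {U : Submodule F V // finrank F U = j ∧ P U} * glc (Fintype.card F) j ≤
      Nat.card {s : Fin j → V // Q s} := by
  classical
  let X := {U : Submodule F V // finrank F U = j ∧ P U}
  have : Fintype X := Fintype.ofFinite X
  let Y := Σ U : X, {s : Fin j → U.1 // LinearIndependent F s}
  have hY : Nat.card Y = Nat.card X * glc (Fintype.card F) j := by
    rw [Nat.card_sigma]
    have : ∀ U : X, Nat.card {s : Fin j → U.1 // LinearIndependent F s} =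
        glc (Fintype.card F) j := by
      intro U
      rw [card_linearIndependent (K := F) (V := U.1) (le_of_eq U.2.1.symm), glc, U.2.1]
    rw [Finset.sum_congr rfl (fun U _ => this U)]
    simp [Nat.card_eq_fintype_card]
  rw [← hY]
  let f : Y → {s : Fin j → V // Q s} := fun y => ⟨fun i => (y.2.1 i : V), by
    apply hPQ
    · exact y.2.2.map' y.1.1.subtype (Submodule.ker_subtype _)
    · rw [span_coe_eq y.1.1 y.1.2.1 y.2.1 y.2.2]
      exact y.1.2.2⟩
  apply Nat.card_le_card_of_injective f
  rintro ⟨⟨U, hU⟩, ⟨s, hs⟩⟩ ⟨⟨U', hU'⟩, ⟨s', hs'⟩⟩ h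
  simp only [f, Subtype.mk.injEq] at h
  have h1 : U = U' := by
    rw [← span_coe_eq U hU.1 s hs, ← span_coe_eq U' hU'.1 s' hs', h]
  subst h1
  have h2 : s = s' := by
    funext i
    exact Subtype.ext (congrFun h i)
  subst h2
  rfl

/-- Every independent tuple is an ordered basis of its span. -/
theorem card_indep_le {j : ℕ} (hj : j ≤ finrank F V) :
    ∏ i : Fin j, (Fintype.card F ^ finrank F V - Fintype.card F ^ i.val) ≤
      Nat.card {U : Submodule F V // finrank F U = j} * glc (Fintype.card F) j := by
  classical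
  let X := {U : Submodule F V // finrank F U = j}
  have : Fintype X := Fintype.ofFinite X
  let Y := Σ U : X, {s : Fin j → U.1 // LinearIndependent F s}
  have hY : Nat.card Y = Nat.card X * glc (Fintype.card F) j := by
    rw [Nat.card_sigma]
    have : ∀ U : X, Nat.card {s : Fin j → U.1 // LinearIndependent F s} =
        glc (Fintype.card F) j := by
      intro U
      rw [card_linearIndependent (K := F) (V := U.1) (le_of_eq U.2.symm), glc, U.2]
    rw [Finset.sum_congr rfl (fun U _ => this U)]
    simp [Nat.card_eq_fintype_card]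
  rw [← hY, ← card_linearIndependent (K := F) (V := V) hj]
  have hsub : ∀ (s : {s : Fin j → V // LinearIndependent F s}) (i : Fin j),
      s.1 i ∈ Submodule.span F (Set.range s.1) :=
    fun s i => Submodule.subset_span ⟨i, rfl⟩
  let f : {s : Fin j → V // LinearIndependent F s} → Y := fun s =>
    ⟨⟨Submodule.span F (Set.range s.1), by rw [finrank_span_eq_card s.2, Fintype.card_fin]⟩,
      ⟨fun i => ⟨s.1 i, hsub s i⟩, by
        apply LinearIndependent.of_comp (Submodule.span F (Set.range s.1)).subtype
        exact s.2⟩⟩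
  have : Finite Y := Finite.instSigma
  apply Nat.card_le_card_of_injective f
  intro s s' h
  let k : Y → (Fin j → V) := fun y i => (y.2.1 i : V)
  have : k (f s) = k (f s') := congrArg k h
  exact Subtype.ext this

end Count

theorem glc_pos {q : ℕ} (hq : 2 ≤ q) (j : ℕ) : 0 < glc q j := by
  unfold glc
  apply Finset.prod_pos
  intro i _
  have := Nat.pow_lt_pow_right (a := q) (by omega) i.2
  omega

theorem glc_succ {q : ℕ} (j : ℕ) : glc q (j + 1) = (q ^ (j + 1) - 1) * (q ^ j * glc q j) := by
  unfold glc
  rw [Fin.prod_univ_succ]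
  simp only [Fin.val_zero, pow_zero, Fin.val_succ]
  congr 1
  have : ∀ i : Fin j, q ^ (j + 1) - q ^ (i.val + 1) = q * (q ^ j - q ^ i.val) := by
    intro i
    rw [pow_succ, pow_succ, ← Nat.sub_mul, mul_comm]
  rw [Finset.prod_congr rfl (fun i _ => this i), Finset.prod_mul_distrib]
  simp

theorem le_glc_aux {q : ℕ} (hq : 2 ≤ q) (j : ℕ) :
    (q : ℝ) ^ ((j + 1) * (j + 1)) * (1 + 2 * (1 / 2) ^ (j + 1)) ≤ 4 * (glc q (j + 1) : ℝ) := by
  have hq' : (2 : ℝ) ≤ q := by exact_mod_cast hq
  induction j with
  | zero =>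
    simp [glc]
    rw [Nat.cast_sub (by omega)]
    push_cast
    linarith
  | succ j ih =>
    rw [glc_succ (j + 1)]
    rw [Nat.cast_mul, Nat.cast_mul, Nat.cast_sub (Nat.one_le_pow _ _ (by omega))]
    push_cast
    set y : ℝ := (1 / 2) ^ (j + 1) with hy
    have hy0 : 0 < y := by positivity
    have hy1 : y ≤ 1 / 2 := by
      rw [hy, pow_succ]
      have : ((1 : ℝ) / 2) ^ j ≤ 1 := pow_le_one₀ (by norm_num) (by norm_num)
      linarith
    have h1 : (1 / 2 : ℝ) ^ (j + 1 + 1) = y / 2 := by rw [pow_succ, ← hy]; ring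
    rw [h1]
    have h2 : 2 ≤ (q : ℝ) ^ (j + 1 + 1) * y := by
      have h3 : (2 : ℝ) ^ (j + 1 + 1) ≤ (q : ℝ) ^ (j + 1 + 1) :=
        pow_le_pow_left₀ (by norm_num) hq' _
      have h4 : (2 : ℝ) ^ (j + 1 + 1) * y = 2 := by
        rw [hy, pow_succ, mul_right_comm, ← mul_pow]
        norm_num
      nlinarith
    have hQ : (0 : ℝ) < (q : ℝ) ^ (j + 1) := by positivity
    have hA : (0 : ℝ) < (q : ℝ) ^ ((j + 1) * (j + 1)) := by positivity
    have hB : (1 : ℝ) ≤ (q : ℝ) ^ (j + 1 + 1) := one_le_pow₀ (by linarith)
    have e : (q : ℝ) ^ ((j + 1 + 1) * (j + 1 + 1)) =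
        (q : ℝ) ^ ((j + 1) * (j + 1)) * ((q : ℝ) ^ (j + 1) * (q : ℝ) ^ (j + 1 + 1)) := by
      rw [← pow_add, ← pow_add]
      congr 1
      ring
    rw [e]
    set A : ℝ := (q : ℝ) ^ ((j + 1) * (j + 1))
    set B : ℝ := (q : ℝ) ^ (j + 1 + 1)
    set C : ℝ := (q : ℝ) ^ (j + 1)
    have h5 : (B - 1) * (C * (A * (1 + 2 * y))) ≤ (B - 1) * (C * (4 * (glc q (j + 1) : ℝ))) := by
      apply mul_le_mul_of_nonneg_left _ (by linarith)
      exact mul_le_mul_of_nonneg_left ih hQ.le
    have h6 : B * (1 + y) ≤ (B - 1) * (1 + 2 * y) := by nlinarith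
    have h7 : (A * C) * (B * (1 + y)) ≤ (A * C) * ((B - 1) * (1 + 2 * y)) :=
      mul_le_mul_of_nonneg_left h6 (by positivity)
    calc A * (C * B) * (1 + 2 * (y / 2)) = (A * C) * (B * (1 + y)) := by ring
      _ ≤ (A * C) * ((B - 1) * (1 + 2 * y)) := h7
      _ = (B - 1) * (C * (A * (1 + 2 * y))) := by ring
      _ ≤ (B - 1) * (C * (4 * (glc q (j + 1) : ℝ))) := h5
      _ = 4 * ((B - 1) * (C * (glc q (j + 1) : ℝ))) := by ring

/-- `q ^ (j * j) ≤ 4 * glc q j`. -/
theorem le_glc {q : ℕ} (hq : 2 ≤ q) (j : ℕ) : q ^ (j * j) ≤ 4 * glc q j := by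
  cases j with
  | zero => simp [glc]
  | succ j =>
    have h := le_glc_aux hq j
    have h1 : (q : ℝ) ^ ((j + 1) * (j + 1)) ≤ 4 * (glc q (j + 1) : ℝ) := by
      refine le_trans ?_ h
      have : (0 : ℝ) ≤ (q : ℝ) ^ ((j + 1) * (j + 1)) := by positivity
      have h2 : (0 : ℝ) ≤ 2 * (1 / 2) ^ (j + 1) := by positivity
      nlinarith
    exact_mod_cast h1

section Bounds

variable {F : Type} [Field F] [Fintype F] {V : Type} [AddCommGroup V] [Module F V] [Finite V]

theorem two_le_card : 2 ≤ Fintype.card F := Fintype.one_lt_card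

/-- Upper bound for the number of `j`-dimensional subspaces. -/
theorem card_dim_le (j : ℕ) :
    Nat.card {U : Submodule F V // finrank F U = j} ≤
      4 * Fintype.card F ^ (j * (finrank F V - j)) := by
  classical
  have : Fintype V := Fintype.ofFinite V
  by_cases hj : j ≤ finrank F V
  · have h1 := card_mul_le (F := F) (V := V) (j := j) (fun _ => True) (fun _ => True)
      (fun _ _ _ => trivial)
    have h2 : Nat.card {s : Fin j → V // True} = Fintype.card F ^ (finrank F V * j) := by
      rw [Nat.card_congr (Equiv.subtypeUnivEquiv (fun _ => trivial)), Nat.card_eq_fintype_card,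
        Fintype.card_fun, Module.card_eq_pow_finrank (K := F) (V := V), Fintype.card_fin, ← pow_mul]
    have h3 : Nat.card {U : Submodule F V // finrank F U = j ∧ True} =
        Nat.card {U : Submodule F V // finrank F U = j} := by simp
    rw [h2, h3] at h1
    have h4 := le_glc (two_le_card (F := F)) j
    set x := Nat.card {U : Submodule F V // finrank F U = j}
    set q := Fintype.card F
    have hq : 0 < q := by have := two_le_card (F := F); omega
    have h5 : x * q ^ (j * j) ≤ 4 * q ^ (finrank F V * j) := by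
      calc x * q ^ (j * j) ≤ x * (4 * glc q j) := Nat.mul_le_mul_left _ h4
        _ = 4 * (x * glc q j) := by ring
        _ ≤ 4 * q ^ (finrank F V * j) := Nat.mul_le_mul_left _ h1
    have h6 : q ^ (finrank F V * j) = q ^ (j * (finrank F V - j)) * q ^ (j * j) := by
      rw [← pow_add]
      congr 1
      obtain ⟨k, hk⟩ := Nat.exists_eq_add_of_le hj
      rw [hk, Nat.add_sub_cancel_left]
      ring
    rw [h6, ← mul_assoc] at h5
    exact Nat.le_of_mul_le_mul_right h5 (pow_pos hq _)
  · have : IsEmpty {U : Submodule F V // finrank F U = j} := by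
      constructor
      rintro ⟨U, hU⟩
      have := Submodule.finrank_le U
      omega
    rw [Nat.card_of_isEmpty]
    exact Nat.zero_le _

/-- Lower bound for the number of `j`-dimensional subspaces. -/
theorem le_card_dim (j : ℕ) (hj : j ≤ finrank F V) :
    Fintype.card F ^ (j * (finrank F V - j)) ≤
      Nat.card {U : Submodule F V // finrank F U = j} := by
  have h1 := card_indep_le (F := F) (V := V) hj
  have hq := two_le_card (F := F)
  set x := Nat.card {U : Submodule F V // finrank F U = j}
  set q := Fintype.card F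
  set n := finrank F V
  have h2 : q ^ (j * (n - j)) * glc q j ≤ ∏ i : Fin j, (q ^ n - q ^ i.val) := by
    have : q ^ (j * (n - j)) = ∏ _i : Fin j, q ^ (n - j) := by
      rw [Finset.prod_const, Finset.card_univ, Fintype.card_fin, ← pow_mul, mul_comm]
    rw [this, glc, ← Finset.prod_mul_distrib]
    apply Finset.prod_le_prod'
    intro i _
    rw [Nat.mul_sub, ← pow_add, Nat.sub_add_cancel hj]
    apply Nat.sub_le_sub_left
    exact Nat.le_mul_of_pos_left _ (pow_pos (by omega) _)
  have h3 := h2.trans h1
  exact Nat.le_of_mul_le_mul_right h3 (glc_pos hq j)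

/-- Real form of the upper bound. -/
theorem card_dim_le_real (j : ℕ) :
    (Nat.card {U : Submodule F V // finrank F U = j} : ℝ) ≤
      4 * (Fintype.card F : ℝ) ^ ((finrank F V : ℝ) ^ 2 / 4 - ((finrank F V : ℝ) / 2 - j) ^ 2) := by
  have hq := two_le_card (F := F)
  have hq0 : (0 : ℝ) < (Fintype.card F : ℝ) := by positivity
  by_cases hj : j ≤ finrank F V
  · have h := card_dim_le (F := F) (V := V) j
    have h' : (Nat.card {U : Submodule F V // finrank F U = j} : ℝ) ≤
        4 * (Fintype.card F : ℝ) ^ (j * (finrank F V - j)) := by exact_mod_cast h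
    refine h'.trans (le_of_eq ?_)
    rw [← Real.rpow_natCast]
    congr 2
    rw [Nat.cast_mul, Nat.cast_sub hj]
    ring
  · have : IsEmpty {U : Submodule F V // finrank F U = j} := by
      constructor
      rintro ⟨U, hU⟩
      have := Submodule.finrank_le U
      omega
    rw [Nat.card_of_isEmpty, Nat.cast_zero]
    positivity

/-- Splitting a count of subspaces by dimension. -/
theorem card_eq_sum_dim (P : Submodule F V → Prop) :
    Nat.card {U : Submodule F V // P U} =
      ∑ j ∈ Finset.range (finrank F V + 1), Nat.card {U : Submodule F V // finrank F U = j ∧ P U} := by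
  classical
  have : Fintype (Submodule F V) := Fintype.ofFinite _
  simp only [Nat.card_eq_fintype_card, Fintype.card_subtype]
  rw [Finset.card_eq_sum_card_fiberwise (f := fun U : Submodule F V => finrank F U)
    (t := Finset.range (finrank F V + 1))]
  · apply Finset.sum_congr rfl
    intro j _
    congr 1
    ext U
    simp only [Finset.mem_filter, Finset.mem_univ, true_and]
    tauto
  · intro U _
    have := Submodule.finrank_le U
    simp only [Finset.coe_range, Set.mem_Iio]
    omega

theorem card_le_of_imp {α : Type} [Finite α] {P Q : α → Prop} (h : ∀ a, P a → Q a) :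
    Nat.card {a : α // P a} ≤ Nat.card {a : α // Q a} :=
  Nat.card_le_card_of_injective (fun a => ⟨a.1, h a.1 a.2⟩)
    (fun a b hab => Subtype.ext (by simpa using hab))

/-- Real bound for the number of subspaces of dimension `j` when `(n / 2 - j) ^ 2 ≥ c`. -/
theorem card_dim_le_real' (j : ℕ) (c : ℝ) (hc : c ≤ ((finrank F V : ℝ) / 2 - j) ^ 2) :
    (Nat.card {U : Submodule F V // finrank F U = j} : ℝ) ≤
      4 * (Fintype.card F : ℝ) ^ ((finrank F V : ℝ) ^ 2 / 4 - c) := by
  refine (card_dim_le_real (F := F) (V := V) j).trans ?_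
  have hq := two_le_card (F := F)
  have hq1 : (1 : ℝ) ≤ (Fintype.card F : ℝ) := by
    have : (1 : ℕ) ≤ Fintype.card F := by omega
    exact_mod_cast this
  have := Real.rpow_le_rpow_of_exponent_le hq1
    (show (finrank F V : ℝ) ^ 2 / 4 - ((finrank F V : ℝ) / 2 - j) ^ 2 ≤
      (finrank F V : ℝ) ^ 2 / 4 - c by linarith)
  linarith

/-- The total number of subspaces is at most `4 (n + 1) q ^ (n ^ 2 / 4)`. -/
theorem card_submodule_le :
    (Nat.card (Submodule F V) : ℝ) ≤
      4 * (finrank F V + 1) * (Fintype.card F : ℝ) ^ ((finrank F V : ℝ) ^ 2 / 4) := by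
  have h := card_eq_sum_dim (F := F) (V := V) (fun _ => True)
  have h1 : Nat.card {U : Submodule F V // True} = Nat.card (Submodule F V) :=
    Nat.card_congr (Equiv.subtypeUnivEquiv (fun _ => trivial))
  rw [h1] at h
  rw [h]
  push_cast
  have h2 : ∀ j ∈ Finset.range (finrank F V + 1),
      (Nat.card {U : Submodule F V // finrank F U = j ∧ True} : ℝ) ≤
        4 * (Fintype.card F : ℝ) ^ ((finrank F V : ℝ) ^ 2 / 4) := by
    intro j _
    have h3 := card_dim_le_real' (F := F) (V := V) j 0 (by positivity)
    simpa using h3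
  refine (Finset.sum_le_card_nsmul _ _ _ h2).trans (le_of_eq ?_)
  rw [Finset.card_range, nsmul_eq_mul]
  push_cast
  ring

/-- The total number of subspaces is at least `q ^ (n ^ 2 / 4 - 1 / 4)`. -/
theorem le_card_submodule :
    (Fintype.card F : ℝ) ^ ((finrank F V : ℝ) ^ 2 / 4 - 1 / 4) ≤
      (Nat.card (Submodule F V) : ℝ) := by
  set n := finrank F V with hn
  have h1 := le_card_dim (F := F) (V := V) (n / 2) (by omega)
  have h2 : Nat.card {U : Submodule F V // finrank F U = n / 2} ≤ Nat.card (Submodule F V) :=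
    Nat.card_le_card_of_injective (fun U => U.1) Subtype.val_injective
  have h3 : (Fintype.card F : ℝ) ^ ((n / 2) * (n - n / 2)) ≤ (Nat.card (Submodule F V) : ℝ) := by
    exact_mod_cast h1.trans h2
  refine le_trans ?_ h3
  have e0 : (Fintype.card F : ℝ) ^ ((n / 2) * (n - n / 2)) =
      (Fintype.card F : ℝ) ^ (((n / 2) * (n - n / 2) : ℕ) : ℝ) := (Real.rpow_natCast _ _).symm
  rw [e0]
  have hq1 : (1 : ℝ) ≤ (Fintype.card F : ℝ) := by
    have := two_le_card (F := F)
    have : (1 : ℕ) ≤ Fintype.card F := by omega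
    exact_mod_cast this
  apply Real.rpow_le_rpow_of_exponent_le hq1
  rcases Nat.even_or_odd' n with ⟨m, hm | hm⟩
  · have e1 : n / 2 = m := by omega
    have e2 : n - m = m := by omega
    rw [e1, e2, hm]
    push_cast
    nlinarith
  · have e1 : n / 2 = m := by omega
    have e2 : n - m = m + 1 := by omega
    rw [e1, e2, hm]
    push_cast
    nlinarith

theorem card_submodule_congr {W : Type} [AddCommGroup W] [Module F W] [Finite W]
    (h : finrank F V = finrank F W) :
    Nat.card (Submodule F V) = Nat.card (Submodule F W) := by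
  have : Module.Finite F V := Module.Finite.of_finite
  have : Module.Finite F W := Module.Finite.of_finite
  exact Nat.card_congr (Submodule.orderIsoMapComap (LinearEquiv.ofFinrankEq V W h)).toEquiv

end Bounds

end Pool.Agent.H699.RM
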