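import Pool.Agent.H699.RM.Fix

set_option autoImplicit false
set_option linter.unusedSectionVars false

namespace Pool.Agent.H699.RM

open Module

variable {F : Type} [Field F] [Fintype F] {V : Type} [AddCommGroup V] [Module F V] [Finite V]

/-- Semilinearity of an additive automorphism. -/
def SemiLin (τ : F ≃+* F) (g : V ≃+ V) : Prop := ∀ (c : F) (v : V), g (c • v) = τ c • g v

/-- The image of a subspace under a semilinear automorphism. -/
def gmap {τ : F ≃+* F} {g : V ≃+ V} (hg : SemiLin τ g) (W : Submodule F V) : Submodule F V where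
  carrier := g '' W
  add_mem' := by
    rintro _ _ ⟨a, ha, rfl⟩ ⟨b, hb, rfl⟩
    exact ⟨a + b, W.add_mem ha hb, map_add g a b⟩
  zero_mem' := ⟨0, W.zero_mem, map_zero g⟩
  smul_mem' := by
    rintro c _ ⟨a, ha, rfl⟩
    refine ⟨τ.symm c • a, W.smul_mem _ ha, ?_⟩
    rw [hg, RingEquiv.apply_symm_apply]

variable {τ : F ≃+* F} {g : V ≃+ V} (hg : SemiLin τ g)

theorem mem_gmap {W : Submodule F V} {v : V} : v ∈ gmap hg W ↔ ∃ w ∈ W, g w = v := Iff.rfl

theorem gmap_sup (W W' : Submodule F V) : gmap hg (W ⊔ W') = gmap hg W ⊔ gmap hg W' := by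
  apply le_antisymm
  · rintro _ ⟨x, hx, rfl⟩
    obtain ⟨a, ha, b, hb, rfl⟩ := Submodule.mem_sup.mp hx
    rw [map_add]
    exact Submodule.add_mem_sup ⟨a, ha, rfl⟩ ⟨b, hb, rfl⟩
  · apply sup_le
    · rintro _ ⟨x, hx, rfl⟩
      exact ⟨x, Submodule.mem_sup_left hx, rfl⟩
    · rintro _ ⟨x, hx, rfl⟩
      exact ⟨x, Submodule.mem_sup_right hx, rfl⟩

theorem gmap_span (u : V) : gmap hg (Submodule.span F {u}) = Submodule.span F {g u} := by
  apply le_antisymm
  · rintro _ ⟨x, hx, rfl⟩
    obtain ⟨c, rfl⟩ := Submodule.mem_span_singleton.mp hx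
    rw [hg]
    exact Submodule.smul_mem _ _ (Submodule.mem_span_singleton_self _)
  · rw [Submodule.span_singleton_le_iff_mem]
    exact ⟨u, Submodule.mem_span_singleton_self _, rfl⟩

theorem finrank_sup_span {S : Submodule F V} {u : V} (hu : u ∉ S) :
    finrank F (S ⊔ Submodule.span F {u} : Submodule F V) = finrank F S + 1 := by
  have : Module.Finite F V := Module.Finite.of_finite
  have hu0 : u ≠ 0 := fun h => hu (h ▸ S.zero_mem)
  have h := Submodule.finrank_sup_add_finrank_inf_eq S (Submodule.span F {u})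
  have hd : S ⊓ Submodule.span F {u} = ⊥ := by
    rw [eq_bot_iff]
    rintro x ⟨hx1, hx2⟩
    obtain ⟨c, rfl⟩ := Submodule.mem_span_singleton.mp hx2
    by_cases hc : c = 0
    · simp [hc]
    · exfalso
      apply hu
      have := S.smul_mem c⁻¹ hx1
      rwa [smul_smul, inv_mul_cancel₀ hc, one_smul] at this
  rw [hd, finrank_bot, finrank_span_singleton hu0] at h
  simpa using h

/-- `W` and its image are independent. -/
def GoodSub (U W : Submodule F V) (t : ℕ) : Prop :=
  W ≤ U ∧ finrank F W = t ∧ finrank F (W ⊔ gmap hg W : Submodule F V) = 2 * t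

include hg in
theorem lemmaT (U : Submodule F V) (hU : ∀ u ∈ U, g u ∈ U) :
    ∃ (t : ℕ) (W : Submodule F V), GoodSub hg U W t ∧
      (finrank F U ≤ 2 * t + 1 ∨ ((∀ c, τ c = c) ∧
        ∃ l : F, ∀ u ∈ U, g u - l • u ∈ (W ⊔ gmap hg W : Submodule F V))) := by
  classical
  have : Module.Finite F V := Module.Finite.of_finite
  have hle : ∀ W : Submodule F V, W ≤ U → W ⊔ gmap hg W ≤ U := by
    intro W hW
    apply sup_le hW
    rintro _ ⟨x, hx, rfl⟩
    exact hU x (hW hx)
  have h0 : ∃ W, GoodSub hg U W 0 := by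
    refine ⟨⊥, bot_le, finrank_bot F V, ?_⟩
    have : gmap hg (⊥ : Submodule F V) = ⊥ := by
      rw [eq_bot_iff]
      rintro _ ⟨x, hx, rfl⟩
      have : x = 0 := by simpa using hx
      simp [this]
    rw [this, sup_bot_eq, finrank_bot]
  have hex : ∃ t, ¬ ∃ W, GoodSub hg U W (t + 1) := by
    refine ⟨finrank F U, ?_⟩
    rintro ⟨W, h1, h2, h3⟩
    have := Submodule.finrank_mono h1
    omega
  obtain ⟨t, ⟨W, hW⟩, hn⟩ : ∃ t, (∃ W, GoodSub hg U W t) ∧ ¬ ∃ W, GoodSub hg U W (t + 1) := by
    refine ⟨Nat.find hex, ?_, Nat.find_spec hex⟩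
    by_cases h : Nat.find hex = 0
    · rw [h]; exact h0
    · obtain ⟨m, hm⟩ := Nat.exists_eq_succ_of_ne_zero h
      have := Nat.find_min hex (m := m) (by omega)
      rw [not_not] at this
      rw [hm]
      exact this
  refine ⟨t, W, hW, ?_⟩
  by_cases hdim : finrank F U ≤ 2 * t + 1
  · left; exact hdim
  right
  obtain ⟨hW1, hW2, hW3⟩ := hW
  set S : Submodule F V := W ⊔ gmap hg W with hS
  have hSU : S ≤ U := hle W hW1
  -- first claim
  have c1 : ∀ u ∈ U, u ∉ S → g u ∈ S ⊔ Submodule.span F {u} := by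
    intro u hu huS
    by_contra hgu
    apply hn
    refine ⟨W ⊔ Submodule.span F {u}, sup_le hW1 ?_, ?_, ?_⟩
    · rw [Submodule.span_singleton_le_iff_mem]; exact hu
    · rw [finrank_sup_span (fun h => huS (Submodule.mem_sup_left h)), hW2]
    · have e : (W ⊔ Submodule.span F {u}) ⊔ gmap hg (W ⊔ Submodule.span F {u}) =
          (S ⊔ Submodule.span F {u}) ⊔ Submodule.span F {g u} := by
        rw [gmap_sup, gmap_span, hS]
        ac_rfl
      rw [e, finrank_sup_span hgu, finrank_sup_span huS, hW3]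
      ring
  have c2 : ∀ u ∈ U, u ∉ S → ∃ l : F, g u - l • u ∈ S := by
    intro u hu huS
    obtain ⟨a, ha, b, hb, hab⟩ := Submodule.mem_sup.mp (c1 u hu huS)
    obtain ⟨c, rfl⟩ := Submodule.mem_span_singleton.mp hb
    exact ⟨c, by rw [← hab, add_sub_cancel_right]; exact ha⟩
  -- comparison of the scalars
  have c3 : ∀ u ∈ U, ∀ v ∈ U, u ∉ S → v ∉ S ⊔ Submodule.span F {u} → ∀ a b : F,
      g u - a • u ∈ S → g v - b • v ∈ S → a = b := by
    intro u hu v hv huS hvS a b ha hb
    have huv : u + v ∉ S := by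
      intro h
      apply hvS
      have : v = (u + v) + (-1 : F) • u := by simp
      rw [this]
      exact Submodule.add_mem_sup h (Submodule.smul_mem _ _ (Submodule.mem_span_singleton_self _))
    obtain ⟨m, hm⟩ := c2 (u + v) (U.add_mem hu hv) huv
    have h1 : (a - m) • u + (b - m) • v ∈ S := by
      have : (a - m) • u + (b - m) • v =
          (g (u + v) - m • (u + v)) - (g u - a • u) - (g v - b • v) := by
        rw [map_add, smul_add, sub_smul, sub_smul]
        abel
      rw [this]
      exact S.sub_mem (S.sub_mem hm ha) hb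
    have hbm : b - m = 0 := by
      by_contra hne
      apply hvS
      have : v = (b - m)⁻¹ • ((a - m) • u + (b - m) • v) + (-((b - m)⁻¹ * (a - m))) • u := by
        rw [smul_add, smul_smul, smul_smul, inv_mul_cancel₀ hne, one_smul, neg_smul]
        abel
      rw [this]
      exact Submodule.add_mem_sup (S.smul_mem _ h1)
        (Submodule.smul_mem _ _ (Submodule.mem_span_singleton_self _))
    have ham : a - m = 0 := by
      by_contra hne
      apply huS
      rw [hbm, zero_smul, add_zero] at h1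
      have := S.smul_mem (a - m)⁻¹ h1
      rwa [smul_smul, inv_mul_cancel₀ hne, one_smul] at this
    rw [sub_eq_zero.mp ham, sub_eq_zero.mp hbm]
  have hex2 : ∀ S' : Submodule F V, finrank F S' < finrank F U → ∃ u ∈ U, u ∉ S' := by
    intro S' hS'
    by_contra hcon
    push Not at hcon
    have := Submodule.finrank_mono (show U ≤ S' from hcon)
    omega
  obtain ⟨u0, hu0, hu0S⟩ := hex2 S (by omega)
  obtain ⟨l, hl⟩ := c2 u0 hu0 hu0S
  have c4 : ∀ v ∈ U, v ∉ S → g v - l • v ∈ S := by
    intro v hv hvS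
    obtain ⟨b, hb⟩ := c2 v hv hvS
    by_cases hv2 : v ∈ S ⊔ Submodule.span F {u0}
    · obtain ⟨w, hw, hwS⟩ := hex2 (S ⊔ Submodule.span F {u0}) (by
        rw [finrank_sup_span hu0S]; omega)
      have hwS' : w ∉ S := fun h => hwS (Submodule.mem_sup_left h)
      obtain ⟨e, he⟩ := c2 w hw hwS'
      have h1 := c3 u0 hu0 w hw hu0S hwS l e hl he
      have hwS2 : w ∉ S ⊔ Submodule.span F {v} := by
        intro h
        apply hwS
        have : S ⊔ Submodule.span F {v} ≤ S ⊔ Submodule.span F {u0} :=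
          sup_le le_sup_left (by rw [Submodule.span_singleton_le_iff_mem]; exact hv2)
        exact this h
      have h2 := c3 v hv w hw hvS hwS2 b e hb he
      rw [h1, ← h2]
      exact hb
    · have h1 := c3 u0 hu0 v hv hu0S hv2 l b hl hb
      rw [h1]
      exact hb
  have c5 : ∀ v ∈ U, g v - l • v ∈ S := by
    intro v hv
    by_cases hvS : v ∈ S
    · have hne : u0 + v ∉ S := by
        intro h
        apply hu0S
        have := S.sub_mem h hvS
        rwa [add_sub_cancel_right] at this
      have h1 := c4 (u0 + v) (U.add_mem hu0 hv) hne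
      have : g v - l • v = (g (u0 + v) - l • (u0 + v)) - (g u0 - l • u0) := by
        rw [map_add, smul_add]
        abel
      rw [this]
      exact S.sub_mem h1 hl
    · exact c4 v hv hvS
  have hl0 : l ≠ 0 := by
    intro h
    have h1 : ∀ v ∈ U, g v ∈ S := by
      intro v hv
      have := c5 v hv
      rwa [h, zero_smul, sub_zero] at this
    have h2 : Nat.card U ≤ Nat.card S := by
      apply Nat.card_le_card_of_injective (fun u : U => (⟨g u.1, h1 u.1 u.2⟩ : S))
      intro a b hab
      simp only [Subtype.mk.injEq] at hab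
      exact Subtype.ext (g.injective hab)
    have : Fintype V := Fintype.ofFinite V
    rw [Nat.card_eq_fintype_card, Nat.card_eq_fintype_card,
      Module.card_eq_pow_finrank (K := F) (V := U), Module.card_eq_pow_finrank (K := F) (V := S)]
      at h2
    have h3 := (Nat.pow_le_pow_iff_right (Fintype.one_lt_card (α := F))).mp h2
    omega
  refine ⟨?_, l, c5⟩
  intro c
  have h1 := c5 (c • u0) (U.smul_mem c hu0)
  rw [hg] at h1
  have h2 : (τ c - c) • (l • u0) ∈ S := by
    have : (τ c - c) • (l • u0) = (τ c • g u0 - l • c • u0) - τ c • (g u0 - l • u0) := by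
      rw [smul_sub, sub_smul, smul_comm l c u0]
      abel
    rw [this]
    exact S.sub_mem h1 (S.smul_mem _ hl)
  by_contra hne
  apply hu0S
  have h3 : τ c - c ≠ 0 := sub_ne_zero.mpr hne
  have h4 := S.smul_mem (l⁻¹ * (τ c - c)⁻¹) h2
  rwa [smul_smul, mul_assoc, inv_mul_cancel₀ h3, mul_one, smul_smul, inv_mul_cancel₀ hl0,
    one_smul] at h4

end Pool.Agent.H699.RM
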