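import Pool.Agent.H699.RM.LemT

set_option autoImplicit false
set_option linter.unusedSectionVars false

namespace Pool.Agent.H699.RM

open Module

variable {F : Type} [Field F] [Fintype F] {V : Type} [AddCommGroup V] [Module F V] [Finite V]
variable {τ : F ≃+* F} {g : V ≃+ V} (hg : SemiLin τ g)

theorem exists_gen {U W : Submodule F V} {t : ℕ} (hU : gmap hg U ≤ U) (hW : GoodSub hg U W t) :
    ∃ R : Submodule F V, finrank F R + t ≤ finrank F U ∧ R ⊔ gmap hg R = U := by
  have : Module.Finite F V := Module.Finite.of_finite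
  obtain ⟨h1, h2, h3⟩ := hW
  set S : Submodule F V := W ⊔ gmap hg W with hS
  have hmono : ∀ {A B : Submodule F V}, A ≤ B → gmap hg A ≤ gmap hg B := by
    rintro A B hAB _ ⟨x, hx, rfl⟩
    exact ⟨x, hAB hx, rfl⟩
  have hSU : S ≤ U := sup_le h1 ((hmono h1).trans hU)
  obtain ⟨C', hC'⟩ := Submodule.exists_isCompl (S.comap U.subtype)
  let C := C'.map U.subtype
  have hCU : C ≤ U := Submodule.map_subtype_le U C'
  have hsup : S ⊔ C = U := by
    have := congrArg (Submodule.map U.subtype) hC'.sup_eq_top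
    rw [Submodule.map_sup, Submodule.map_comap_subtype, inf_eq_right.mpr hSU,
      Submodule.map_top, Submodule.range_subtype] at this
    exact this
  have hfin : finrank F S + finrank F C = finrank F U := by
    have h4 := Submodule.finrank_add_eq_of_isCompl hC'
    have h5 : finrank F (S.comap U.subtype) = finrank F S :=
      (Submodule.comapSubtypeEquivOfLe hSU).finrank_eq
    have h6 : finrank F C = finrank F C' :=
      (Submodule.equivMapOfInjective U.subtype (Submodule.injective_subtype U) C').finrank_eq.symm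
    rw [h5] at h4
    rw [h6]
    exact h4
  refine ⟨W ⊔ C, ?_, ?_⟩
  · have := Submodule.finrank_add_le_finrank_add_finrank W C
    omega
  · apply le_antisymm
    · exact sup_le (sup_le h1 hCU) ((hmono (sup_le h1 hCU)).trans hU)
    · rw [← hsup]
      apply sup_le
      · rw [hS]
        exact sup_le (le_sup_left.trans le_sup_left)
          ((hmono le_sup_left).trans le_sup_right)
      · exact le_sup_right.trans le_sup_left

/-- The linear map `v ↦ g v - l v` when `g` is linear. -/
def hlin (hτ : ∀ c, τ c = c) (l : F) : V →ₗ[F] V where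
  toFun v := g v - l • v
  map_add' u v := by rw [map_add, smul_add]; abel
  map_smul' c v := by
    rw [hg, hτ, RingHom.id_apply, smul_sub, smul_comm l c v]

theorem hlin_apply (hτ : ∀ c, τ c = c) (l : F) (v : V) : hlin hg hτ l v = g v - l • v := rfl

theorem hlin_map_le (hτ : ∀ c, τ c = c) (l : F) {U : Submodule F V} (hU : gmap hg U ≤ U) :
    U.map (hlin hg hτ l) ≤ U := by
  rintro _ ⟨x, hx, rfl⟩
  exact U.sub_mem (hU ⟨x, hx, rfl⟩) (U.smul_mem l hx)

/-- Counting invariant subspaces, nonlinear case. -/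
theorem card_inv_semi (hτ : ¬ ∀ c, τ c = c) (j t0 : ℕ) (hj : 2 * t0 ≤ j) :
    Nat.card {U : Submodule F V // finrank F U = j ∧ gmap hg U ≤ U} ≤
      Nat.card {R : Submodule F V // finrank F R + t0 ≤ j} := by
  classical
  have key : ∀ U : {U : Submodule F V // finrank F U = j ∧ gmap hg U ≤ U},
      ∃ R : {R : Submodule F V // finrank F R + t0 ≤ j}, R.1 ⊔ gmap hg R.1 = U.1 := by
    rintro ⟨U, hUj, hU⟩
    obtain ⟨t, W, hW, hor⟩ := lemmaT hg U (fun u hu => hU ⟨u, hu, rfl⟩)
    obtain ⟨R, hR1, hR2⟩ := exists_gen hg hU hW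
    rcases hor with h | h
    · exact ⟨⟨R, by omega⟩, hR2⟩
    · exact absurd h.1 hτ
  choose f hf using key
  apply Nat.card_le_card_of_injective f
  intro U U' h
  apply Subtype.ext
  rw [← hf U, ← hf U', h]

/-- Counting invariant subspaces, linear case. -/
theorem card_inv_lin (hτ : ∀ c, τ c = c) (j t0 : ℕ) (hj : 2 * t0 ≤ j) :
    Nat.card {U : Submodule F V // finrank F U = j ∧ gmap hg U ≤ U} ≤
      Nat.card {R : Submodule F V // finrank F R + t0 ≤ j} +
      ∑ l : F, Nat.card {B : Submodule F V // finrank F B ≤ 2 * t0} *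
        Nat.card (Submodule F (LinearMap.ker (hlin hg hτ l))) := by
  classical
  have : Module.Finite F V := Module.Finite.of_finite
  let A := {R : Submodule F V // finrank F R + t0 ≤ j}
  let B := Σ l : F, {U : Submodule F V // U.map (hlin hg hτ l) ≤ U ∧
    finrank F (U.map (hlin hg hτ l)) ≤ 2 * t0}
  have key : ∀ U : {U : Submodule F V // finrank F U = j ∧ gmap hg U ≤ U},
      ∃ x : A ⊕ B, Sum.elim (fun R : A => R.1 ⊔ gmap hg R.1) (fun b : B => b.2.1) x = U.1 := by
    rintro ⟨U, hUj, hU⟩
    obtain ⟨t, W, hW, hor⟩ := lemmaT hg U (fun u hu => hU ⟨u, hu, rfl⟩)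
    by_cases ht : t0 ≤ t
    · obtain ⟨R, hR1, hR2⟩ := exists_gen hg hU hW
      exact ⟨Sum.inl ⟨R, by omega⟩, hR2⟩
    · rcases hor with h | ⟨-, l, hl⟩
      · omega
      · refine ⟨Sum.inr ⟨l, ⟨U, hlin_map_le hg hτ l hU, ?_⟩⟩, rfl⟩
        have h1 : U.map (hlin hg hτ l) ≤ W ⊔ gmap hg W := by
          rintro _ ⟨x, hx, rfl⟩
          exact hl x hx
        have h2 := Submodule.finrank_mono h1
        have h3 := hW.2.2
        omega
  choose f hf using key
  have h1 : Nat.card {U : Submodule F V // finrank F U = j ∧ gmap hg U ≤ U} ≤ Nat.card (A ⊕ B) := by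
    apply Nat.card_le_card_of_injective f
    intro U U' h
    apply Subtype.ext
    rw [← hf U, ← hf U', h]
  refine h1.trans ?_
  rw [Nat.card_sum]
  apply Nat.add_le_add_left
  rw [Nat.card_sigma]
  apply Finset.sum_le_sum
  intro l _
  refine (card_invariant_le (hlin hg hτ l) (fun B => finrank F B ≤ 2 * t0)).trans ?_
  apply Nat.mul_le_mul_right
  exact card_le_of_imp (fun B hB => hB.2)

end Pool.Agent.H699.RM
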