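import Pool.Agent.H699.RM.Assembly

set_option autoImplicit false
set_option linter.unusedSectionVars false

namespace Pool.Agent.H699.RM

open Module Filter Topology

theorem rpow_lin {q : ℝ} (hq : 0 < q) (c : ℝ) (n : ℕ) : q ^ (-(n : ℝ) / c) = (q ^ (-1 / c)) ^ n := by
  rw [← Real.rpow_natCast (q ^ (-1 / c)), ← Real.rpow_mul hq.le]
  congr 1
  ring

theorem r_lt_one {q : ℝ} (hq : 1 < q) {c : ℝ} (hc : 0 < c) : q ^ (-1 / c) < 1 := by
  apply Real.rpow_lt_one_of_one_lt_of_neg hq
  apply div_neg_of_neg_of_pos _ hc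
  norm_num

theorem tendsto_base {q : ℝ} (hq : 1 < q) {c : ℝ} (hc : 0 < c) (k : ℕ) :
    Tendsto (fun n : ℕ => (n : ℝ) ^ k * q ^ (-(n : ℝ) / c)) atTop (𝓝 0) := by
  have h0 : 0 < q := by linarith
  have h := tendsto_pow_const_mul_const_pow_of_lt_one k (r := q ^ (-1 / c))
    (Real.rpow_nonneg h0.le _) (r_lt_one hq hc)
  refine h.congr (fun n => ?_)
  rw [rpow_lin h0]

theorem tendsto_errB {q : ℝ} (hq : 1 < q) : Tendsto (errB q) atTop (𝓝 0) := by
  have h5 := tendsto_base hq (c := 12) (by norm_num) 5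
  have h4 := tendsto_base hq (c := 12) (by norm_num) 4
  have h3 := tendsto_base hq (c := 12) (by norm_num) 3
  have h := ((h5.add (h4.const_mul 2)).add h3).const_mul (16 * q ^ 2)
  rw [mul_zero, add_zero, add_zero, mul_zero] at h
  refine h.congr (fun n => ?_)
  unfold errB
  ring

theorem tendsto_hy {q : ℝ} (hq : 1 < q) :
    ∀ᶠ n : ℕ in atTop, (n : ℝ) ^ 2 * q * q ^ (-(n : ℝ) / 12) ≤ 1 := by
  have h2 := (tendsto_base hq (c := 12) (by norm_num) 2).const_mul q
  rw [mul_zero] at h2
  filter_upwards [h2.eventually_le_const (show (0 : ℝ) < 1 by norm_num)] with n hn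
  linarith

theorem tendsto_errE {q : ℝ} (hq : 1 < q) : Tendsto (errE q) atTop (𝓝 0) := by
  have h0 : 0 < q := by linarith
  have h1 := tendsto_base hq (c := 8) (by norm_num) 0
  have hb0 : (0 : ℝ) < 1 - 1 / q ^ 3 := by
    rw [sub_pos, div_lt_one (by positivity)]
    exact one_lt_pow₀ hq (by norm_num)
  have hb1 : (1 : ℝ) - 1 / q ^ 3 < 1 := by
    have : 0 < 1 / q ^ 3 := by positivity
    linarith
  have hr : (1 - 1 / q ^ 3) ^ ((1 : ℝ) / 4) < 1 := Real.rpow_lt_one hb0.le hb1 (by norm_num)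
  have h2 := (tendsto_pow_const_mul_const_pow_of_lt_one 3 (Real.rpow_nonneg hb0.le _) hr).const_mul
    (q ^ 3)
  have h := h1.add h2
  rw [mul_zero, add_zero] at h
  refine h.congr (fun n => ?_)
  unfold errE
  have : (1 - 1 / q ^ 3) ^ ((n : ℝ) / 4) = ((1 - 1 / q ^ 3) ^ ((1 : ℝ) / 4)) ^ n := by
    rw [← Real.rpow_natCast ((1 - 1 / q ^ 3) ^ ((1 : ℝ) / 4)), ← Real.rpow_mul hb0.le]
    congr 1
    ring
  rw [this]
  ring

theorem tendsto_errLow {q : ℝ} (hq : 1 < q) : Tendsto (errLow q) atTop (𝓝 0) := by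
  have h0 : 0 < q := by linarith
  have h1 := (tendsto_errE hq).const_mul 4
  have h2 : Tendsto (fun n : ℕ => ((n : ℝ) + 1) * (4 * (q * q ^ (-(n : ℝ) ^ 2 / 4096)))) atTop
      (𝓝 0) := by
    have h3 := ((tendsto_base hq (c := 4096) (by norm_num) 1).add
      (tendsto_base hq (c := 4096) (by norm_num) 0)).const_mul (4 * q)
    rw [add_zero, mul_zero] at h3
    refine squeeze_zero' (Eventually.of_forall fun n => by positivity) ?_ h3
    filter_upwards [eventually_ge_atTop 1] with n hn
    have hn' : (1 : ℝ) ≤ n := by exact_mod_cast hn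
    have h4 : q ^ (-(n : ℝ) ^ 2 / 4096) ≤ q ^ (-(n : ℝ) / 4096) := by
      apply Real.rpow_le_rpow_of_exponent_le hq.le
      nlinarith
    calc ((n : ℝ) + 1) * (4 * (q * q ^ (-(n : ℝ) ^ 2 / 4096)))
        = (((n : ℝ) + 1) * (4 * q)) * q ^ (-(n : ℝ) ^ 2 / 4096) := by ring
      _ ≤ (((n : ℝ) + 1) * (4 * q)) * q ^ (-(n : ℝ) / 4096) :=
          mul_le_mul_of_nonneg_left h4 (by positivity)
      _ = _ := by ring
  have h := h1.add h2
  rw [mul_zero, add_zero] at h
  exact h

theorem tendsto_errC {q K : ℝ} (hq : 1 < q) (hK : 0 ≤ K) : Tendsto (errC q K) atTop (𝓝 0) := by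
  have h0 : 0 < q := by linarith
  have hs := (tendsto_base hq (c := 16384) (by norm_num) 1).const_mul q
  rw [mul_zero] at hs
  have hev := hs.eventually_le_const (show (0 : ℝ) < 1 / 2 by norm_num)
  have g3 := tendsto_pow_const_mul_const_pow_of_lt_one 3 (r := (1 / 2 : ℝ)) (by norm_num)
    (by norm_num)
  have g2 := tendsto_pow_const_mul_const_pow_of_lt_one 2 (r := (1 / 2 : ℝ)) (by norm_num)
    (by norm_num)
  have g1 := tendsto_pow_const_mul_const_pow_of_lt_one 1 (r := (1 / 2 : ℝ)) (by norm_num)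
    (by norm_num)
  have g0 := tendsto_pow_const_mul_const_pow_of_lt_one 0 (r := (1 / 2 : ℝ)) (by norm_num)
    (by norm_num)
  have h := ((((g3.add (g2.const_mul 3)).add (g1.const_mul 3)).add g0)).const_mul (24 * q * K)
  simp only [mul_zero, add_zero] at h
  refine squeeze_zero' (Eventually.of_forall fun n => errC_nonneg h0 hK n) ?_ h
  filter_upwards [hev] with n hn
  have h1 : q ^ (-(n : ℝ) ^ 2 / 16384) = (q ^ (-(n : ℝ) / 16384)) ^ n := by
    rw [← Real.rpow_natCast (q ^ (-(n : ℝ) / 16384)), ← Real.rpow_mul h0.le]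
    congr 1
    ring
  have h2 : errC q K n = (24 * q * K * ((n : ℝ) + 1) ^ 3) *
      (q * ((n : ℝ) ^ 1 * q ^ (-(n : ℝ) / 16384))) ^ n := by
    unfold errC
    rw [h1, mul_pow, mul_pow, pow_one]
    ring
  rw [h2]
  have h3 : (q * ((n : ℝ) ^ 1 * q ^ (-(n : ℝ) / 16384))) ^ n ≤ (1 / 2) ^ n :=
    pow_le_pow_left₀ (by positivity) hn n
  calc _ ≤ (24 * q * K * ((n : ℝ) + 1) ^ 3) * (1 / 2) ^ n :=
        mul_le_mul_of_nonneg_left h3 (by positivity)
    _ = _ := by ring

variable {F : Type} [Field F] [Fintype F]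

/-- The asymptotic count, with `K = |Aut F|`. -/
theorem tendsto_ratio (K : ℕ) (hK : Nat.card (F ≃+* F) = K) :
    Tendsto (fun n => (numRep F n : ℝ) / comparison F K n) atTop (𝓝 1) := by
  have hq2 : (2 : ℝ) ≤ (Fintype.card F : ℝ) := by exact_mod_cast two_le_card (F := F)
  have hq : (1 : ℝ) < (Fintype.card F : ℝ) := by linarith
  have hq0 := q_pos (F := F)
  have hlow : Tendsto (fun n : ℕ => 1 - errLow (Fintype.card F : ℝ) n) atTop (𝓝 1) := by
    have := (tendsto_errLow hq).const_sub 1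
    simpa using this
  have hup : Tendsto (fun n : ℕ => 1 + errUp (Fintype.card F : ℝ) K n) atTop (𝓝 1) := by
    have h1 := ((tendsto_errB hq).add (tendsto_errC hq (show (0 : ℝ) ≤ K by positivity))).mul_const
      (Fintype.card F : ℝ)
    have := h1.const_add 1
    simpa [errUp] using this
  have hKpos : 0 < K := by
    rw [← hK]
    have : Finite (F ≃+* F) := inferInstance
    exact Nat.card_pos
  have key : ∀ᶠ n : ℕ in atTop, (numRep F n : ℝ) / comparison F K n =
      (numRep F n : ℝ) * ((n.factorial : ℝ) * Nat.card (F ≃+* F) *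
      ((Fintype.card F : ℝ) - 1) ^ (n - 1)) / Nat.card (Submodule F (Fin n → F)) := by
    refine Eventually.of_forall (fun n => ?_)
    unfold comparison
    rw [sum_gaussBinom, hK]
    have h1 : (0 : ℝ) < ((Fintype.card F : ℝ) - 1) ^ (n - 1) := by
      apply pow_pos; linarith
    have h2 : (0 : ℝ) < Nat.card (Submodule F (Fin n → F)) := by
      have : 0 < Nat.card (Submodule F (Fin n → F)) := Nat.card_pos
      exact_mod_cast this
    have h3 : (0 : ℝ) < (n.factorial : ℝ) := by exact_mod_cast Nat.factorial_pos n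
    have h4 : (0 : ℝ) < (K : ℝ) := by exact_mod_cast hKpos
    field_simp
  refine tendsto_of_tendsto_of_tendsto_of_le_of_le' hlow hup ?_ ?_
  · filter_upwards [key, eventually_ge_atTop 128] with n hn hn2
    rw [hn, le_div_iff₀ (by
      have : 0 < Nat.card (Submodule F (Fin n → F)) := Nat.card_pos
      exact_mod_cast this)]
    exact ratio_ge hn2
  · filter_upwards [key, eventually_ge_atTop 128, tendsto_hy hq] with n hn hn2 hn3
    rw [hn, div_le_iff₀ (by
      have : 0 < Nat.card (Submodule F (Fin n → F)) := Nat.card_pos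
      exact_mod_cast this), ← hK]
    exact ratio_le hn2 hn3

/-- The number of automorphisms of a finite field. -/
theorem card_aut (p k : ℕ) [Fact p.Prime] (hF : Fintype.card F = p ^ k) :
    Nat.card (F ≃+* F) = k := by
  have hp : p.Prime := Fact.out
  have hk : k ≠ 0 := by
    rintro rfl
    have := two_le_card (F := F)
    rw [hF, pow_zero] at this
    omega
  have hchar : CharP F p := by
    have hd : p ∣ Fintype.card F := by rw [hF]; exact dvd_pow_self p hk
    obtain ⟨r, hr⟩ := CharP.exists F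
    have hrp : r.Prime := (CharP.char_is_prime_or_zero F r).resolve_right
      (fun h0 => by
        subst h0
        have : CharZero F := CharP.charP_to_charZero F
        exact (inferInstance : Infinite F).not_finite inferInstance)
    have : Fact r.Prime := ⟨hrp⟩
    obtain ⟨m, hm1, hm2⟩ := FiniteField.card F r
    rw [hm2] at hd
    have := (Nat.prime_dvd_prime_iff_eq hp hrp).mp (hp.dvd_of_dvd_pow hd)
    rw [this]
    exact hr
  let _ : Algebra (ZMod p) F := ZMod.algebra F p
  have h1 : Nat.card (F ≃ₐ[ZMod p] F) = finrank (ZMod p) F := IsGalois.card_aut_eq_finrank (ZMod p) F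
  have h2 : finrank (ZMod p) F = k := by
    have h3 := Module.card_eq_pow_finrank (K := ZMod p) (V := F)
    rw [hF, ZMod.card] at h3
    exact (Nat.pow_right_injective hp.two_le h3).symm
  rw [← h2, ← h1]
  refine Nat.card_congr ⟨fun e => AlgEquiv.ofRingEquiv (f := e) (fun r => ?_),
    fun e => e.toRingEquiv, fun e => ?_, fun e => ?_⟩
  · exact RingHom.congr_fun (RingHom.ext_zmod ((e : F →+* F).comp (algebraMap (ZMod p) F))
      (algebraMap (ZMod p) F)) r
  · ext x; rfl
  · ext x; rfl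

end Pool.Agent.H699.RM
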