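import Pool.Agent.H699.RM.Rand

set_option autoImplicit false
set_option linter.unusedSectionVars false

namespace Pool.Agent.H699.RM

open Module

variable {F : Type} [Field F] [Fintype F]

/-- The error term of the lower bound. -/
noncomputable def errE (q : ℝ) (n : ℕ) : ℝ :=
  q ^ (-(n : ℝ) / 8) + (n : ℝ) ^ 3 * q ^ 3 * (1 - 1 / q ^ 3) ^ ((n : ℝ) / 4)

theorem errE_nonneg {q : ℝ} (hq : 1 ≤ q) (n : ℕ) : 0 ≤ errE q n := by
  unfold errE
  have hq0 : 0 < q := by linarith
  apply add_nonneg (by positivity)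
  apply mul_nonneg (by positivity)
  apply Real.rpow_nonneg
  rw [sub_nonneg, div_le_one (by positivity)]
  exact one_le_pow₀ hq

/-- Not good subspaces of middle dimension. -/
theorem card_not_good_mid {n j : ℕ} (hn : 128 ≤ n) (h1 : (j : ℝ) ≤ 33 * n / 64)
    (h2 : 3 ≤ j) :
    (Nat.card {U : Submodule F (Fin n → F) // finrank F U = j ∧ ¬ Good U} : ℝ) ≤
      4 * errE (Fintype.card F) n *
        Nat.card {U : Submodule F (Fin n → F) // finrank F U = j} := by
  have hq0 := q_pos (F := F)
  have hq1 := one_le_q (F := F)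
  have hq2 : (2 : ℝ) ≤ (Fintype.card F : ℝ) := by exact_mod_cast two_le_card (F := F)
  have hnr : (128 : ℝ) ≤ n := by exact_mod_cast hn
  have hjn : j ≤ n := by
    have : (j : ℝ) ≤ n := by linarith
    exact_mod_cast this
  have hm : n = 3 * n / 4 + (n - 3 * n / 4) := by omega
  refine (card_not_good_le (F := F) hm h2 hjn).trans ?_
  apply mul_le_mul_of_nonneg_right _ (by positivity)
  apply mul_le_mul_of_nonneg_left _ (by norm_num)
  unfold errE
  have hm1 : (3 * n / 4 : ℝ) - 3 / 4 ≤ ((3 * n / 4 : ℕ) : ℝ) := by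
    have h : 3 * n ≤ 4 * (3 * n / 4) + 3 := by omega
    have h' : (3 * n : ℝ) ≤ 4 * ((3 * n / 4 : ℕ) : ℝ) + 3 := by exact_mod_cast h
    linarith
  have hm2 : (n : ℝ) / 4 ≤ ((n - 3 * n / 4 : ℕ) : ℝ) := by
    have h : n ≤ 4 * (n - 3 * n / 4) := by omega
    have h' : (n : ℝ) ≤ 4 * ((n - 3 * n / 4 : ℕ) : ℝ) := by exact_mod_cast h
    linarith
  apply add_le_add
  · rw [← Real.rpow_natCast, ← Real.rpow_natCast, ← Real.rpow_sub hq0]
    apply Real.rpow_le_rpow_of_exponent_le hq1
    linarith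
  · have hb0 : (0 : ℝ) < 1 - 1 / (Fintype.card F : ℝ) ^ 3 := by
      rw [sub_pos, div_lt_one (by positivity)]
      have : (2 : ℝ) ^ 3 ≤ (Fintype.card F : ℝ) ^ 3 := pow_le_pow_left₀ (by norm_num) hq2 3
      linarith
    have hb1 : (1 : ℝ) - 1 / (Fintype.card F : ℝ) ^ 3 ≤ 1 := by
      have : 0 ≤ 1 / (Fintype.card F : ℝ) ^ 3 := by positivity
      linarith
    have hj3 : (j : ℝ) ^ 3 ≤ (n : ℝ) ^ 3 :=
      pow_le_pow_left₀ (by positivity) (by exact_mod_cast hjn) 3
    apply mul_le_mul
    · exact mul_le_mul_of_nonneg_right hj3 (by positivity)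
    · rw [← Real.rpow_natCast]
      exact Real.rpow_le_rpow_of_exponent_ge hb0 hb1 hm2
    · positivity
    · positivity

/-- Most subspaces are good. -/
theorem card_good_ge {n : ℕ} (hn : 128 ≤ n) :
    (Nat.card (Submodule F (Fin n → F)) : ℝ) -
      4 * errE (Fintype.card F) n * Nat.card (Submodule F (Fin n → F)) -
      (n + 1) * (4 * (Fintype.card F : ℝ) ^ ((n : ℝ) ^ 2 / 4 - (n : ℝ) ^ 2 / 4096)) ≤
      (Nat.card {U : Submodule F (Fin n → F) // Good U} : ℝ) := by
  classical
  have hq0 := q_pos (F := F)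
  have hq1 := one_le_q (F := F)
  have hnr : (128 : ℝ) ≤ n := by exact_mod_cast hn
  have hE := errE_nonneg hq1 n
  have e1 : (Nat.card {U : Submodule F (Fin n → F) // Good U} : ℝ) +
      (Nat.card {U : Submodule F (Fin n → F) // ¬ Good U} : ℝ) =
      Nat.card (Submodule F (Fin n → F)) := by
    have : Nat.card {U : Submodule F (Fin n → F) // Good U} +
      Nat.card {U : Submodule F (Fin n → F) // ¬ Good U} =
      Nat.card (Submodule F (Fin n → F)) := by
      rw [← Nat.card_sum, Nat.card_congr (Equiv.sumCompl _)]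
    exact_mod_cast this
  have hfr : finrank F (Fin n → F) = n := by
    rw [Module.finrank_fintype_fun_eq_card, Fintype.card_fin]
  have e2 := card_eq_sum_dim (F := F) (V := Fin n → F) (fun U => ¬ Good U)
  have e3 := card_eq_sum_dim (F := F) (V := Fin n → F) (fun _ => True)
  have e4 : Nat.card {U : Submodule F (Fin n → F) // True} = Nat.card (Submodule F (Fin n → F)) :=
    Nat.card_congr (Equiv.subtypeUnivEquiv (fun _ => trivial))
  rw [e4] at e3
  simp only [and_true] at e3
  rw [hfr] at e2 e3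
  have e5 : ∀ j ∈ Finset.range (n + 1),
      (Nat.card {U : Submodule F (Fin n → F) // finrank F U = j ∧ ¬ Good U} : ℝ) ≤
      4 * errE (Fintype.card F) n *
        Nat.card {U : Submodule F (Fin n → F) // finrank F U = j} +
        4 * (Fintype.card F : ℝ) ^ ((n : ℝ) ^ 2 / 4 - (n : ℝ) ^ 2 / 4096) := by
    intro j _
    by_cases hj : |(n : ℝ) / 2 - j| ≤ n / 64
    · rw [abs_le] at hj
      have h1 : (j : ℝ) ≤ 33 * n / 64 := by linarith [hj.1]
      have h2 : 3 ≤ j := by
        have : (3 : ℝ) ≤ j := by linarith [hj.2]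
        exact_mod_cast this
      have := card_not_good_mid (F := F) hn h1 h2
      have h3 : (0 : ℝ) ≤ 4 * (Fintype.card F : ℝ) ^ ((n : ℝ) ^ 2 / 4 - (n : ℝ) ^ 2 / 4096) := by
        positivity
      linarith
    · push Not at hj
      have h1 : (n : ℝ) ^ 2 / 4096 ≤ ((n : ℝ) / 2 - j) ^ 2 := by
        rw [← sq_abs ((n : ℝ) / 2 - j)]
        have : (n : ℝ) ^ 2 / 4096 = ((n : ℝ) / 64) ^ 2 := by ring
        rw [this]
        exact pow_le_pow_left₀ (by positivity) hj.le 2
      have h2 := card_dim_le_real' (F := F) (V := Fin n → F) j ((n : ℝ) ^ 2 / 4096) (by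
        rw [hfr]; exact h1)
      rw [hfr] at h2
      have h3 : Nat.card {U : Submodule F (Fin n → F) // finrank F U = j ∧ ¬ Good U} ≤
          Nat.card {U : Submodule F (Fin n → F) // finrank F U = j} :=
        card_le_of_imp (fun U hU => hU.1)
      have h4 : (Nat.card {U : Submodule F (Fin n → F) // finrank F U = j ∧ ¬ Good U} : ℝ) ≤
          Nat.card {U : Submodule F (Fin n → F) // finrank F U = j} := by exact_mod_cast h3
      have h5 : 0 ≤ 4 * errE (Fintype.card F) n *
        Nat.card {U : Submodule F (Fin n → F) // finrank F U = j} := by positivity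
      linarith
  have e6 : (Nat.card {U : Submodule F (Fin n → F) // ¬ Good U} : ℝ) ≤
      4 * errE (Fintype.card F) n * Nat.card (Submodule F (Fin n → F)) +
      (n + 1) * (4 * (Fintype.card F : ℝ) ^ ((n : ℝ) ^ 2 / 4 - (n : ℝ) ^ 2 / 4096)) := by
    rw [e2, e3]
    push_cast
    refine (Finset.sum_le_sum e5).trans (le_of_eq ?_)
    rw [Finset.sum_add_distrib, ← Finset.mul_sum, Finset.sum_const, Finset.card_range,
      nsmul_eq_mul]
    push_cast
    rfl
  linarith

end Pool.Agent.H699.RM
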