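import Pool.Agent.H699.RM.Group

set_option autoImplicit false
set_option linter.unusedSectionVars false

namespace Pool.Agent.H699.RM

open Module

variable {F : Type} [Field F] [Fintype F] {n : ℕ}

/-- The coordinates at which the monomial map differs from the scalar `l`. -/
noncomputable def bad (σ : Equiv.Perm (Fin n)) (t : Fin n → Fˣ) (l : F) : Finset (Fin n) := by
  classical exact Finset.univ.filter (fun i => σ i ≠ i ∨ (t i : F) ≠ l)

theorem mem_bad {σ : Equiv.Perm (Fin n)} {t : Fin n → Fˣ} {l : F} {i : Fin n} :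
    i ∈ bad σ t l ↔ σ i ≠ i ∨ (t i : F) ≠ l := by
  classical
  simp [bad]

theorem hlin_mono_apply (σ : Equiv.Perm (Fin n)) (t : Fin n → Fˣ) {τ : F ≃+* F}
    (hτ : ∀ c, τ c = c) (l : F) (v : Fin n → F) (i : Fin n) :
    hlin (mono_semiLin σ t τ) hτ l v i = t i * v (σ i) - l * v i := by
  rw [hlin_apply]
  change (t i : F) * τ (v (σ i)) - l * v i = _
  rw [hτ]

theorem rank_le_bad (σ : Equiv.Perm (Fin n)) (t : Fin n → Fˣ) {τ : F ≃+* F}
    (hτ : ∀ c, τ c = c) (l : F) :
    finrank F (LinearMap.range (hlin (mono_semiLin σ t τ) hτ l)) ≤ (bad σ t l).card := by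
  classical
  set h := hlin (mono_semiLin σ t τ) hτ l
  let π : (Fin n → F) →ₗ[F] (bad σ t l → F) := LinearMap.funLeft F F Subtype.val
  have hinj : Function.Injective (π.domRestrict (LinearMap.range h)) := by
    rw [← LinearMap.ker_eq_bot, LinearMap.ker_eq_bot']
    rintro ⟨w, v, rfl⟩ hw
    apply Subtype.ext
    funext i
    by_cases hi : i ∈ bad σ t l
    · exact congrFun hw ⟨i, hi⟩
    · rw [mem_bad] at hi
      push Not at hi
      change h v i = 0
      rw [hlin_mono_apply, hi.1, hi.2, sub_self]
  have h1 := LinearMap.finrank_le_finrank_of_injective hinj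
  rw [Module.finrank_fintype_fun_eq_card, Fintype.card_coe] at h1
  exact h1

/-- A set of moved points disjoint from its image, of size at least a third. -/
theorem exists_third (σ : Equiv.Perm (Fin n)) :
    ∃ T : Finset (Fin n), (∀ i ∈ T, σ i ≠ i) ∧ (∀ i ∈ T, σ i ∉ T) ∧
      (Finset.univ.filter (fun i => σ i ≠ i)).card ≤ 3 * T.card := by
  classical
  let P : Finset (Fin n) → Prop := fun T => (∀ i ∈ T, σ i ≠ i) ∧ (∀ i ∈ T, σ i ∉ T)
  obtain ⟨T, hT, hmax⟩ := Finset.exists_max_image (Finset.univ.filter P) (fun T => T.card)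
    ⟨∅, by simp [P]⟩
  rw [Finset.mem_filter] at hT
  obtain ⟨-, hT1, hT2⟩ := hT
  refine ⟨T, hT1, hT2, ?_⟩
  have hcov : Finset.univ.filter (fun i => σ i ≠ i) ⊆
      T ∪ (T.image σ ∪ T.image σ.symm) := by
    intro x hx
    rw [Finset.mem_filter] at hx
    by_contra hcon
    simp only [Finset.mem_union, Finset.mem_image, not_or, not_exists, not_and] at hcon
    obtain ⟨c1, c2, c3⟩ := hcon
    have hP : P (insert x T) := by
      constructor
      · intro i hi
        rcases Finset.mem_insert.mp hi with rfl | hi
        · exact hx.2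
        · exact hT1 i hi
      · intro i hi
        rw [Finset.mem_insert]
        rintro (h | h)
        · rcases Finset.mem_insert.mp hi with rfl | hi
          · exact hx.2 h
          · exact c2 i hi h
        · rcases Finset.mem_insert.mp hi with rfl | hi
          · exact c3 (σ i) h (by simp)
          · exact hT2 i hi h
    have := hmax (insert x T) (by rw [Finset.mem_filter]; exact ⟨Finset.mem_univ _, hP⟩)
    simp only [Finset.card_insert_of_notMem c1] at this
    omega
  have h1 := Finset.card_le_card hcov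
  have h2 := Finset.card_union_le T (T.image σ ∪ T.image σ.symm)
  have h3 := Finset.card_union_le (T.image σ) (T.image σ.symm)
  have h4 := Finset.card_image_le (s := T) (f := σ)
  have h5 := Finset.card_image_le (s := T) (f := σ.symm)
  omega

theorem bad_le_rank (σ : Equiv.Perm (Fin n)) (t : Fin n → Fˣ) {τ : F ≃+* F}
    (hτ : ∀ c, τ c = c) (l : F) :
    (bad σ t l).card ≤ 3 * finrank F (LinearMap.range (hlin (mono_semiLin σ t τ) hτ l)) := by
  classical
  set h := hlin (mono_semiLin σ t τ) hτ l with hh
  obtain ⟨T, hT1, hT2, hT3⟩ := exists_third σ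
  let FB : Finset (Fin n) := Finset.univ.filter (fun i => σ i = i ∧ (t i : F) ≠ l)
  have hdis : Disjoint T FB := by
    rw [Finset.disjoint_left]
    intro i hi hi'
    rw [Finset.mem_filter] at hi'
    exact hT1 i hi hi'.2.1
  let T' := T ∪ FB
  have hT'card : T'.card = T.card + FB.card := Finset.card_union_of_disjoint hdis
  have hbad : (bad σ t l).card ≤ (Finset.univ.filter (fun i => σ i ≠ i)).card + FB.card := by
    refine le_trans (Finset.card_le_card ?_) (Finset.card_union_le _ _)
    intro i hi
    rw [mem_bad] at hi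
    rw [Finset.mem_union, Finset.mem_filter, Finset.mem_filter]
    by_cases hc : σ i = i
    · right
      refine ⟨Finset.mem_univ _, hc, ?_⟩
      rcases hi with hi | hi
      · exact absurd hc hi
      · exact hi
    · left
      exact ⟨Finset.mem_univ _, hc⟩
  let π : (Fin n → F) →ₗ[F] (T' → F) := LinearMap.funLeft F F Subtype.val
  have hsurj : Function.Surjective (π ∘ₗ h) := by
    intro y
    let v : Fin n → F := fun k =>
      if hk : σ.symm k ∈ T then y ⟨σ.symm k, Finset.mem_union_left _ hk⟩ / (t (σ.symm k) : F)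
      else if hk' : k ∈ FB then y ⟨k, Finset.mem_union_right _ hk'⟩ / ((t k : F) - l) else 0
    refine ⟨v, ?_⟩
    funext ⟨i, hi⟩
    change h v i = y ⟨i, hi⟩
    rw [hh, hlin_mono_apply]
    rcases Finset.mem_union.mp hi with hiT | hiF
    · have e1 : v (σ i) = y ⟨i, hi⟩ / (t i : F) := by
        have hk : σ.symm (σ i) ∈ T := by simpa using hiT
        simp only [v]
        rw [dif_pos hk]
        congr 2
        · congr 1
          simp
        · simp
      have e2 : v i = 0 := by
        have hk : σ.symm i ∉ T := by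
          intro hk
          have := hT2 _ hk
          simp only [Equiv.apply_symm_apply] at this
          exact this hiT
        have hk' : i ∉ FB := Finset.disjoint_left.mp hdis hiT
        simp only [v]
        rw [dif_neg hk, dif_neg hk']
      rw [e1, e2, mul_zero, sub_zero, mul_div_cancel₀ _ (t i).ne_zero]
    · have hiF' := (Finset.mem_filter.mp hiF).2
      have e1 : v i = y ⟨i, hi⟩ / ((t i : F) - l) := by
        have hk : σ.symm i ∉ T := by
          intro hk
          have h1 : σ.symm i = i := by
            rw [Equiv.symm_apply_eq]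
            exact hiF'.1.symm
          rw [h1] at hk
          exact hT1 i hk hiF'.1
        simp only [v]
        rw [dif_neg hk, dif_pos hiF]
      rw [hiF'.1, e1, ← sub_mul]
      exact mul_div_cancel₀ _ (sub_ne_zero.mpr hiF'.2)
  have hr1 : finrank F (LinearMap.range (π ∘ₗ h)) = T'.card := by
    rw [LinearMap.range_eq_top.mpr hsurj, finrank_top, Module.finrank_fintype_fun_eq_card,
      Fintype.card_coe]
  have hr2 : finrank F (LinearMap.range (π ∘ₗ h)) ≤ finrank F (LinearMap.range h) := by
    rw [LinearMap.range_comp]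
    exact Submodule.finrank_map_le π (LinearMap.range h)
  omega

/-- The number of monomial maps with `s` coordinates different from `l`. -/
theorem card_bad_le (l : F) (s : ℕ) :
    Nat.card {x : Equiv.Perm (Fin n) × (Fin n → Fˣ) // (bad x.1 x.2 l).card = s} ≤
      n ^ s * n ^ s * Fintype.card F ^ s := by
  classical
  let f : {x : Equiv.Perm (Fin n) × (Fin n → Fˣ) // (bad x.1 x.2 l).card = s} →
      (Fin s → Fin n) × (Fin s → Fin n) × (Fin s → F) := fun x =>
    (fun k => (((bad x.1.1 x.1.2 l).equivFinOfCardEq x.2).symm k).1,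
      fun k => x.1.1 (((bad x.1.1 x.1.2 l).equivFinOfCardEq x.2).symm k).1,
      fun k => (x.1.2 (((bad x.1.1 x.1.2 l).equivFinOfCardEq x.2).symm k).1 : F))
  have hf : Function.Injective f := by
    rintro ⟨⟨σ, t⟩, hx⟩ ⟨⟨σ', t'⟩, hx'⟩ h
    simp only [f, Prod.mk.injEq] at h
    obtain ⟨h1, h2, h3⟩ := h
    set a := fun k => (((bad σ t l).equivFinOfCardEq hx).symm k).1 with ha
    set a' := fun k => (((bad σ' t' l).equivFinOfCardEq hx').symm k).1 with ha'
    have haa : ∀ k, a k = a' k := fun k => congrFun h1 k
    have hr : ∀ i, i ∈ bad σ t l ↔ ∃ k, a k = i := by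
      intro i
      constructor
      · intro hi
        exact ⟨(bad σ t l).equivFinOfCardEq hx ⟨i, hi⟩, by simp [ha]⟩
      · rintro ⟨k, rfl⟩
        exact (((bad σ t l).equivFinOfCardEq hx).symm k).2
    have hr' : ∀ i, i ∈ bad σ' t' l ↔ ∃ k, a' k = i := by
      intro i
      constructor
      · intro hi
        exact ⟨(bad σ' t' l).equivFinOfCardEq hx' ⟨i, hi⟩, by simp [ha']⟩
      · rintro ⟨k, rfl⟩
        exact (((bad σ' t' l).equivFinOfCardEq hx').symm k).2
    have hb : ∀ i, i ∈ bad σ t l ↔ i ∈ bad σ' t' l := by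
      intro i
      rw [hr, hr']
      simp only [haa]
    have hboth : ∀ i, σ i = σ' i ∧ t i = t' i := by
      intro i
      by_cases hi : i ∈ bad σ t l
      · obtain ⟨k, rfl⟩ := (hr i).mp hi
        have e2 : σ (a k) = σ' (a' k) := congrFun h2 k
        have e3 : (t (a k) : F) = t' (a' k) := congrFun h3 k
        rw [← haa k] at e2 e3
        exact ⟨e2, Units.ext e3⟩
      · have hi' : i ∉ bad σ' t' l := fun h => hi ((hb i).mpr h)
        rw [mem_bad] at hi hi'
        push Not at hi hi'
        exact ⟨by rw [hi.1, hi'.1], Units.ext (by rw [hi.2, hi'.2])⟩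
    have e1 : σ = σ' := Equiv.ext (fun i => (hboth i).1)
    have e2 : t = t' := funext (fun i => (hboth i).2)
    subst e1 e2
    rfl
  have h1 := Nat.card_le_card_of_injective f hf
  refine h1.trans (le_of_eq ?_)
  rw [Nat.card_prod, Nat.card_prod, Nat.card_eq_fintype_card, Nat.card_eq_fintype_card,
    Fintype.card_fun, Fintype.card_fun, Fintype.card_fin, Fintype.card_fin, mul_assoc]

end Pool.Agent.H699.RM
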