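import Pool.Agent.H699.RM.Bound

set_option autoImplicit false
set_option linter.unusedSectionVars false

namespace Pool.Agent.H699.RM

open Module

variable {F : Type} [Field F] [Fintype F] {n : ℕ}

theorem sum_biUnion_le' {ι α : Type} [DecidableEq α] (s : Finset ι) (t : ι → Finset α)
    (f : α → ℝ) (hf : ∀ a, 0 ≤ f a) :
    ∑ x ∈ s.biUnion t, f x ≤ ∑ i ∈ s, ∑ x ∈ t i, f x := by
  classical
  induction s using Finset.induction_on with
  | empty => simp
  | insert a s ha ih =>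
    rw [Finset.biUnion_insert, Finset.sum_insert ha]
    have h := Finset.sum_union_inter (s₁ := t a) (s₂ := s.biUnion t) (f := f)
    have h2 : 0 ≤ ∑ x ∈ t a ∩ s.biUnion t, f x := Finset.sum_nonneg (fun x _ => hf x)
    linarith

/-- The number of subspaces fixed by a monomial semilinear map. -/
noncomputable def fixC (x : Par F n) : ℕ :=
  Nat.card {U : Submodule F (Fin n → F) // gmap (mono_semiLin x.1 x.2.1 x.2.2) U = U}

/-- The main error terms. -/
noncomputable def errB (q : ℝ) (n : ℕ) : ℝ :=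
  q * (n * (16 * ((n : ℝ) + 1) ^ 2 * ((n : ℝ) ^ 2 * q * q ^ (-(n : ℝ) / 12))))

noncomputable def errC (q K : ℝ) (n : ℕ) : ℝ :=
  (n : ℝ) ^ n * q ^ n * K * (24 * q * ((n : ℝ) + 1) ^ 3 * q ^ (-(n : ℝ) ^ 2 / 16384))

theorem sum_scalar_le (hn : 0 < n) [Fintype (Par F n)] [DecidablePred (fun x : Par F n =>
    (∀ c, x.2.2 c = c) ∧ ∃ l, bad x.1 x.2.1 l = ∅)] :
    ∑ x : Par F n with (∀ c, x.2.2 c = c) ∧ ∃ l, bad x.1 x.2.1 l = ∅, (fixC x : ℝ) ≤
      ((Fintype.card F : ℝ) - 1) * Nat.card (Submodule F (Fin n → F)) := by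
  classical
  have h1 : ∀ x ∈ Finset.univ.filter (fun x : Par F n => (∀ c, x.2.2 c = c) ∧
      ∃ l, bad x.1 x.2.1 l = ∅), (fixC x : ℝ) ≤ Nat.card (Submodule F (Fin n → F)) := by
    intro x _
    unfold fixC
    exact_mod_cast Nat.card_le_card_of_injective _ Subtype.val_injective
  refine (Finset.sum_le_card_nsmul _ _ _ h1).trans ?_
  rw [nsmul_eq_mul]
  apply mul_le_mul_of_nonneg_right _ (by positivity)
  have h2 : (Finset.univ.filter (fun x : Par F n => (∀ c, x.2.2 c = c) ∧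
      ∃ l, bad x.1 x.2.1 l = ∅)).card ≤ Fintype.card Fˣ := by
    rw [← Finset.card_univ]
    apply Finset.card_le_card_of_injOn (fun x => x.2.1 ⟨0, hn⟩) (fun _ _ => Finset.mem_univ _)
    intro x hx y hy hxy
    simp only [Finset.coe_filter, Finset.mem_univ, true_and, Set.mem_setOf_eq] at hx hy
    obtain ⟨hx1, l, hl⟩ := hx
    obtain ⟨hy1, m, hm⟩ := hy
    have hx2 : ∀ i, x.1 i = i ∧ (x.2.1 i : F) = l := by
      intro i
      have : i ∉ bad x.1 x.2.1 l := by rw [hl]; simp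
      rw [mem_bad] at this
      push Not at this
      exact this
    have hy2 : ∀ i, y.1 i = i ∧ (y.2.1 i : F) = m := by
      intro i
      have : i ∉ bad y.1 y.2.1 m := by rw [hm]; simp
      rw [mem_bad] at this
      push Not at this
      exact this
    have hlm : l = m := by
      rw [← (hx2 ⟨0, hn⟩).2, ← (hy2 ⟨0, hn⟩).2]
      exact congrArg Units.val hxy
    obtain ⟨σ, t, τ⟩ := x
    obtain ⟨σ', t', τ'⟩ := y
    simp only at *
    have e1 : σ = σ' := Equiv.ext (fun i => by rw [(hx2 i).1, (hy2 i).1])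
    have e2 : t = t' := funext (fun i => Units.ext (by rw [(hx2 i).2, (hy2 i).2, hlm]))
    have e3 : τ = τ' := RingEquiv.ext (fun c => by rw [hx1, hy1])
    rw [e1, e2, e3]
  rw [Fintype.card_units] at h2
  have h3 : ((Finset.univ.filter (fun x : Par F n => (∀ c, x.2.2 c = c) ∧
      ∃ l, bad x.1 x.2.1 l = ∅)).card : ℝ) ≤ ((Fintype.card F - 1 : ℕ) : ℝ) := by
    exact_mod_cast h2
  rw [Nat.cast_sub (by have := two_le_card (F := F); omega)] at h3
  simpa using h3

theorem sum_medium_le [Fintype (Par F n)] [DecidablePred (fun x : Par F n =>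
    (∀ c, x.2.2 c = c) ∧ ∃ l, 1 ≤ (bad x.1 x.2.1 l).card ∧ 2 * (bad x.1 x.2.1 l).card ≤ n)]
    (hy : (n : ℝ) ^ 2 * (Fintype.card F : ℝ) * (Fintype.card F : ℝ) ^ (-(n : ℝ) / 12) ≤ 1) :
    ∑ x : Par F n with (∀ c, x.2.2 c = c) ∧
      ∃ l, 1 ≤ (bad x.1 x.2.1 l).card ∧ 2 * (bad x.1 x.2.1 l).card ≤ n, (fixC x : ℝ) ≤
      errB (Fintype.card F) n * (Fintype.card F : ℝ) ^ ((n : ℝ) ^ 2 / 4) := by
  classical
  have hq := one_le_q (F := F)
  have hq0 := q_pos (F := F)
  set Q : ℝ := (Fintype.card F : ℝ) with hQ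
  set y : ℝ := (n : ℝ) ^ 2 * Q * Q ^ (-(n : ℝ) / 12) with hyd
  have hy0 : 0 ≤ y := by positivity
  let B : F → ℕ → Finset (Par F n) := fun l s => Finset.univ.filter (fun x =>
    (∀ c, x.2.2 c = c) ∧ (bad x.1 x.2.1 l).card = s ∧ 2 * s ≤ n)
  have hsub : (Finset.univ.filter (fun x : Par F n => (∀ c, x.2.2 c = c) ∧
      ∃ l, 1 ≤ (bad x.1 x.2.1 l).card ∧ 2 * (bad x.1 x.2.1 l).card ≤ n)) ⊆
      Finset.univ.biUnion (fun l : F => (Finset.Icc 1 n).biUnion (fun s => B l s)) := by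
    intro x hx
    rw [Finset.mem_filter] at hx
    obtain ⟨-, h1, l, h2, h3⟩ := hx
    rw [Finset.mem_biUnion]
    refine ⟨l, Finset.mem_univ _, ?_⟩
    rw [Finset.mem_biUnion]
    refine ⟨(bad x.1 x.2.1 l).card, ?_, ?_⟩
    · rw [Finset.mem_Icc]; omega
    · simp only [B, Finset.mem_filter, Finset.mem_univ, true_and]
      exact ⟨h1, h3⟩
  have hB : ∀ (l : F) (s : ℕ), 1 ≤ s →
      ∑ x ∈ B l s, (fixC x : ℝ) ≤ 16 * ((n : ℝ) + 1) ^ 2 * y * Q ^ ((n : ℝ) ^ 2 / 4) := by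
    intro l s hs
    by_cases hsn : 2 * s ≤ n
    swap
    · have : B l s = ∅ := by
        rw [Finset.eq_empty_iff_forall_notMem]
        intro x hx
        simp only [B, Finset.mem_filter, Finset.mem_univ, true_and] at hx
        exact hsn hx.2.2
      rw [this, Finset.sum_empty]
      positivity
    have h1 : ∀ x ∈ B l s, (fixC x : ℝ) ≤
        16 * ((n : ℝ) + 1) ^ 2 * Q ^ ((n : ℝ) ^ 2 / 4 - s * (n : ℝ) / 12) := by
      intro x hx
      simp only [B, Finset.mem_filter, Finset.mem_univ, true_and] at hx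
      obtain ⟨hx1, hx2, hx3⟩ := hx
      have := fix_small x.1 x.2.1 hx1 l (by omega)
      rw [hx2] at this
      exact this
    refine (Finset.sum_le_card_nsmul _ _ _ h1).trans ?_
    rw [nsmul_eq_mul]
    have h2 : (B l s).card ≤ n ^ s * n ^ s * Fintype.card F ^ s := by
      refine le_trans ?_ (card_bad_le (n := n) l s)
      rw [Nat.card_eq_fintype_card, Fintype.card_subtype]
      apply Finset.card_le_card_of_injOn (fun x => (x.1, x.2.1))
      · intro x hx
        simp only [B, Finset.coe_filter, Finset.mem_univ, true_and, Set.mem_setOf_eq] at hx ⊢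
        exact hx.2.1
      · intro x hx x' hx' hxx
        simp only [B, Finset.coe_filter, Finset.mem_univ, true_and, Set.mem_setOf_eq] at hx hx'
        obtain ⟨σ, t, τ⟩ := x
        obtain ⟨σ', t', τ'⟩ := x'
        simp only [Prod.mk.injEq] at hxx hx hx' ⊢
        refine ⟨hxx.1, hxx.2, RingEquiv.ext (fun c => by rw [hx.1, hx'.1])⟩
    have h3 : ((B l s).card : ℝ) ≤ ((n : ℝ) ^ 2 * Q) ^ s := by
      have h2' : ((B l s).card : ℝ) ≤ ((n ^ s * n ^ s * Fintype.card F ^ s : ℕ) : ℝ) := by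
        exact_mod_cast h2
      refine h2'.trans (le_of_eq ?_)
      push_cast
      rw [hQ]
      ring
    have h4 : Q ^ ((n : ℝ) ^ 2 / 4 - s * (n : ℝ) / 12) =
        Q ^ ((n : ℝ) ^ 2 / 4) * (Q ^ (-(n : ℝ) / 12)) ^ s := by
      rw [← Real.rpow_natCast (Q ^ (-(n : ℝ) / 12)) s, ← Real.rpow_mul hq0.le,
        ← Real.rpow_add hq0]
      congr 1
      ring
    have h5 : y ^ s ≤ y := by
      calc y ^ s ≤ y ^ 1 := pow_le_pow_of_le_one hy0 hy hs
        _ = y := pow_one y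
    calc ((B l s).card : ℝ) * (16 * ((n : ℝ) + 1) ^ 2 * Q ^ ((n : ℝ) ^ 2 / 4 - s * (n : ℝ) / 12))
        ≤ ((n : ℝ) ^ 2 * Q) ^ s *
          (16 * ((n : ℝ) + 1) ^ 2 * Q ^ ((n : ℝ) ^ 2 / 4 - s * (n : ℝ) / 12)) := by
          apply mul_le_mul_of_nonneg_right h3 (by positivity)
      _ = 16 * ((n : ℝ) + 1) ^ 2 * y ^ s * Q ^ ((n : ℝ) ^ 2 / 4) := by
          rw [h4, hyd, mul_pow ((n : ℝ) ^ 2 * Q)]; ring
      _ ≤ 16 * ((n : ℝ) + 1) ^ 2 * y * Q ^ ((n : ℝ) ^ 2 / 4) := by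
          apply mul_le_mul_of_nonneg_right _ (by positivity)
          apply mul_le_mul_of_nonneg_left h5 (by positivity)
  calc ∑ x : Par F n with (∀ c, x.2.2 c = c) ∧
      ∃ l, 1 ≤ (bad x.1 x.2.1 l).card ∧ 2 * (bad x.1 x.2.1 l).card ≤ n, (fixC x : ℝ)
      ≤ ∑ x ∈ Finset.univ.biUnion (fun l : F => (Finset.Icc 1 n).biUnion (fun s => B l s)),
        (fixC x : ℝ) :=
        Finset.sum_le_sum_of_subset_of_nonneg hsub (fun _ _ _ => by positivity)
    _ ≤ ∑ l : F, ∑ x ∈ (Finset.Icc 1 n).biUnion (fun s => B l s), (fixC x : ℝ) := by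
        apply sum_biUnion_le'
        intro _
        positivity
    _ ≤ ∑ l : F, ∑ s ∈ Finset.Icc 1 n, ∑ x ∈ B l s, (fixC x : ℝ) := by
        apply Finset.sum_le_sum
        intro l _
        apply sum_biUnion_le'
        intro _
        positivity
    _ ≤ ∑ _l : F, ∑ _s ∈ Finset.Icc 1 n,
        16 * ((n : ℝ) + 1) ^ 2 * y * Q ^ ((n : ℝ) ^ 2 / 4) := by
        apply Finset.sum_le_sum
        intro l _
        apply Finset.sum_le_sum
        intro s hs
        exact hB l s (Finset.mem_Icc.mp hs).1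
    _ = errB Q n * Q ^ ((n : ℝ) ^ 2 / 4) := by
        rw [Finset.sum_const, Finset.sum_const, Finset.card_univ, Nat.card_Icc]
        simp only [nsmul_eq_mul, Nat.add_sub_cancel]
        rw [errB, hyd]
        ring

theorem card_par_le [Fintype (Par F n)] :
    (Fintype.card (Par F n) : ℝ) ≤
      (n : ℝ) ^ n * (Fintype.card F : ℝ) ^ n * Nat.card (F ≃+* F) := by
  classical
  have : Fintype (F ≃+* F) := Fintype.ofFinite _
  have h : Fintype.card (Par F n) ≤ n ^ n * Fintype.card F ^ n * Nat.card (F ≃+* F) := by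
    rw [← Nat.card_eq_fintype_card, Nat.card_prod, Nat.card_prod, Nat.card_eq_fintype_card,
      Fintype.card_perm, Fintype.card_fin, Nat.card_eq_fintype_card (α := Fin n → Fˣ),
      Fintype.card_fun, Fintype.card_fin, Fintype.card_units, ← mul_assoc]
    apply Nat.mul_le_mul_right
    apply Nat.mul_le_mul
    · exact Nat.factorial_le_pow n
    · exact Nat.pow_le_pow_left (Nat.sub_le _ _) _
  exact_mod_cast h

/-- The total Burnside sum. -/
theorem sum_fix_le (hn : 128 ≤ n) [Fintype (Par F n)]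
    (hy : (n : ℝ) ^ 2 * (Fintype.card F : ℝ) * (Fintype.card F : ℝ) ^ (-(n : ℝ) / 12) ≤ 1) :
    ∑ x : Par F n, (fixC x : ℝ) ≤
      ((Fintype.card F : ℝ) - 1) * Nat.card (Submodule F (Fin n → F)) +
      (errB (Fintype.card F) n + errC (Fintype.card F) (Nat.card (F ≃+* F)) n) *
        (Fintype.card F : ℝ) ^ ((n : ℝ) ^ 2 / 4) := by
  classical
  have hq := one_le_q (F := F)
  have hq0 := q_pos (F := F)
  let A : Finset (Par F n) := Finset.univ.filter (fun x => (∀ c, x.2.2 c = c) ∧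
    ∃ l, bad x.1 x.2.1 l = ∅)
  let B : Finset (Par F n) := Finset.univ.filter (fun x => (∀ c, x.2.2 c = c) ∧
      ∃ l, 1 ≤ (bad x.1 x.2.1 l).card ∧ 2 * (bad x.1 x.2.1 l).card ≤ n)
  let C : Finset (Par F n) := Finset.univ.filter (fun x => (∀ c, x.2.2 c = c) →
      ∀ l, n < 2 * (bad x.1 x.2.1 l).card)
  have hcov : (Finset.univ : Finset (Par F n)) ⊆ A ∪ (B ∪ C) := by
    intro x _
    simp only [A, B, C, Finset.mem_union, Finset.mem_filter, Finset.mem_univ, true_and]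
    by_cases h1 : ∀ c, x.2.2 c = c
    · by_cases h2 : ∃ l, bad x.1 x.2.1 l = ∅
      · left; exact ⟨h1, h2⟩
      · right
        by_cases h3 : ∃ l, 2 * (bad x.1 x.2.1 l).card ≤ n
        · left
          obtain ⟨l, hl⟩ := h3
          refine ⟨h1, l, ?_, hl⟩
          rw [Nat.one_le_iff_ne_zero, Ne, Finset.card_eq_zero]
          exact fun h => h2 ⟨l, h⟩
        · right
          push Not at h3
          exact fun _ => h3
    · right; right
      exact fun h => absurd h h1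
  have hA := sum_scalar_le (F := F) (n := n) (by omega)
  have hB := sum_medium_le (F := F) (n := n) hy
  have hC : ∑ x ∈ C, (fixC x : ℝ) ≤ errC (Fintype.card F) (Nat.card (F ≃+* F)) n *
      (Fintype.card F : ℝ) ^ ((n : ℝ) ^ 2 / 4) := by
    have h1 : ∀ x ∈ C, (fixC x : ℝ) ≤ 24 * (Fintype.card F : ℝ) * ((n : ℝ) + 1) ^ 3 *
        (Fintype.card F : ℝ) ^ ((n : ℝ) ^ 2 / 4 - (n : ℝ) ^ 2 / 16384) := by
      intro x hx
      simp only [C, Finset.mem_filter, Finset.mem_univ, true_and] at hx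
      exact fix_large hn x.1 x.2.1 hx
    refine (Finset.sum_le_card_nsmul _ _ _ h1).trans ?_
    rw [nsmul_eq_mul]
    have h2 : (C.card : ℝ) ≤ (n : ℝ) ^ n * (Fintype.card F : ℝ) ^ n * Nat.card (F ≃+* F) := by
      refine le_trans ?_ (card_par_le (F := F) (n := n))
      exact_mod_cast Finset.card_le_univ C
    have h3 : (Fintype.card F : ℝ) ^ ((n : ℝ) ^ 2 / 4 - (n : ℝ) ^ 2 / 16384) =
        (Fintype.card F : ℝ) ^ (-(n : ℝ) ^ 2 / 16384) * (Fintype.card F : ℝ) ^ ((n : ℝ) ^ 2 / 4) := by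
      rw [← Real.rpow_add hq0]
      congr 1
      ring
    rw [h3, errC]
    calc _ ≤ ((n : ℝ) ^ n * (Fintype.card F : ℝ) ^ n * Nat.card (F ≃+* F)) *
          (24 * (Fintype.card F : ℝ) * ((n : ℝ) + 1) ^ 3 *
          ((Fintype.card F : ℝ) ^ (-(n : ℝ) ^ 2 / 16384) *
            (Fintype.card F : ℝ) ^ ((n : ℝ) ^ 2 / 4))) :=
          mul_le_mul_of_nonneg_right h2 (by positivity)
      _ = _ := by ring
  have hnn : ∀ x : Par F n, (0 : ℝ) ≤ fixC x := fun x => by positivity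
  calc ∑ x : Par F n, (fixC x : ℝ) ≤ ∑ x ∈ A ∪ (B ∪ C), (fixC x : ℝ) :=
        Finset.sum_le_sum_of_subset_of_nonneg hcov (fun x _ _ => hnn x)
    _ ≤ ∑ x ∈ A, (fixC x : ℝ) + (∑ x ∈ B, (fixC x : ℝ) + ∑ x ∈ C, (fixC x : ℝ)) := by
        have e1 := Finset.sum_union_inter (s₁ := A) (s₂ := B ∪ C) (f := fun x => (fixC x : ℝ))
        have e2 := Finset.sum_union_inter (s₁ := B) (s₂ := C) (f := fun x => (fixC x : ℝ))
        have e3 : 0 ≤ ∑ x ∈ A ∩ (B ∪ C), (fixC x : ℝ) := Finset.sum_nonneg (fun x _ => hnn x)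
        have e4 : 0 ≤ ∑ x ∈ B ∩ C, (fixC x : ℝ) := Finset.sum_nonneg (fun x _ => hnn x)
        linarith
    _ ≤ _ := by
        rw [add_mul]
        have hA' : ∑ x ∈ A, (fixC x : ℝ) ≤
            ((Fintype.card F : ℝ) - 1) * Nat.card (Submodule F (Fin n → F)) := by
          convert hA
        have hB' : ∑ x ∈ B, (fixC x : ℝ) ≤
            errB (Fintype.card F) n * (Fintype.card F : ℝ) ^ ((n : ℝ) ^ 2 / 4) := by
          convert hB
        linarith

end Pool.Agent.H699.RM
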