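import Pool.Agent.H699.RM.Fiber
import Pool.Agent.H699.RM.Upper

set_option autoImplicit false
set_option linter.unusedSectionVars false

namespace Pool.Agent.H699.RM

open Module

variable {F : Type} [Field F] [Fintype F]

/-- Rich lists of columns. -/
def RichCols {n j : ℕ} (C : Fin n → Fin j → F) : Prop :=
  ∃ (b : Fin j → Fin n) (Φ : (Fin j → F) ≃ₗ[F] (Fin j → F)),
    (∀ a, Φ (C (b a)) = Pi.single a 1) ∧
    ∀ a b' e : Fin j, a ≠ b' → a ≠ e → b' ≠ e → ∀ x y z : F,
      ∃ c, Φ (C c) a = x ∧ Φ (C c) b' = y ∧ Φ (C c) e = z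

theorem good_of_richCols {n j : ℕ} (hj : 3 ≤ j) (s : Fin j → Fin n → F)
    (h : RichCols (fun c a => s a c)) : Good (Submodule.span F (Set.range s)) := by
  classical
  obtain ⟨b, Φ, hb, hr⟩ := h
  have hdec : ∀ (Ψ : (Fin j → F) ≃ₗ[F] (Fin j → F)) (v : Fin j → F) (a : Fin j),
      Ψ v a = ∑ a', v a' * Ψ (Pi.single a' 1) a := by
    intro Ψ v a
    have h1 : v = ∑ a', v a' • (Pi.single a' 1 : Fin j → F) := by
      funext k
      simp [Finset.sum_apply, Pi.single_apply]
    conv_lhs => rw [h1]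
    rw [map_sum, Finset.sum_apply]
    apply Finset.sum_congr rfl
    intro a' _
    rw [map_smul, Pi.smul_apply, smul_eq_mul]
  refine ⟨j, b, fun a c => Φ (fun a' => s a' c) a, hj, ⟨?_, ?_⟩, ?_⟩
  · apply le_antisymm
    · rw [Submodule.span_le]
      rintro _ ⟨a, rfl⟩
      have h1 : s a = ∑ a', (Φ.symm (Pi.single a' 1) a) •
          (fun c => Φ (fun a' => s a' c) a' : Fin n → F) := by
        funext c
        rw [Finset.sum_apply]
        have h2 := hdec Φ.symm (Φ (fun a' => s a' c)) a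
        rw [LinearEquiv.symm_apply_apply] at h2
        rw [h2]
        apply Finset.sum_congr rfl
        intro a' _
        rw [Pi.smul_apply, smul_eq_mul, mul_comm]
      rw [h1]
      apply Submodule.sum_mem
      intro a' _
      apply Submodule.smul_mem
      exact Submodule.subset_span ⟨a', rfl⟩
    · rw [Submodule.span_le]
      rintro _ ⟨a, rfl⟩
      have h1 : (fun c => Φ (fun a' => s a' c) a : Fin n → F) =
          ∑ a', (Φ (Pi.single a' 1) a) • s a' := by
        funext c
        rw [Finset.sum_apply, hdec Φ (fun a' => s a' c) a]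
        apply Finset.sum_congr rfl
        intro a' _
        rw [Pi.smul_apply, smul_eq_mul, mul_comm]
      change (fun c => Φ (fun a' => s a' c) a : Fin n → F) ∈ Submodule.span F (Set.range s)
      rw [h1]
      apply Submodule.sum_mem
      intro a' _
      apply Submodule.smul_mem
      exact Submodule.subset_span ⟨a', rfl⟩
  · intro a a'
    have := congrFun (hb a') a
    rw [Pi.single_apply] at this
    exact this
  · intro a b' e h1 h2 h3 x y z
    exact hr a b' e h1 h2 h3 x y z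

/-- Coordinates from a spanning list. -/
theorem exists_coord {m j : ℕ} (P : Fin m → Fin j → F)
    (hP : Submodule.span F (Set.range P) = ⊤) :
    ∃ (b : Fin j → Fin m) (Φ : (Fin j → F) ≃ₗ[F] (Fin j → F)),
      ∀ a, Φ (P (b a)) = Pi.single a 1 := by
  classical
  obtain ⟨f, hf1, hf2, hf3⟩ := Submodule.exists_fun_fin_finrank_span_eq F (Set.range P)
  have hfr : finrank F (Submodule.span F (Set.range P)) = j := by
    rw [hP, finrank_top, Module.finrank_fintype_fun_eq_card, Fintype.card_fin]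
  let g : Fin j → Fin j → F := fun a => f (Fin.cast hfr.symm a)
  have hg3 : LinearIndependent F g := hf3.comp _ (Fin.cast_injective _)
  have hg1 : ∀ a, ∃ c, P c = g a := fun a => hf1 _
  choose b hb using hg1
  have hspan : ⊤ ≤ Submodule.span F (Set.range g) := by
    rw [← hP, ← hf2]
    apply Submodule.span_mono
    rintro _ ⟨i, rfl⟩
    exact ⟨Fin.cast hfr i, by simp [g]⟩
  let B := Basis.mk hg3 hspan
  refine ⟨b, B.equivFun, fun a => ?_⟩
  rw [hb]
  have : g a = B a := by simp [B]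
  funext k
  rw [this, Basis.equivFun_self, Pi.single_apply]
  simp [eq_comm]

/-- The number of non-spanning lists. -/
theorem card_nonspan_le (m j : ℕ) :
    Nat.card {P : Fin m → Fin j → F // Submodule.span F (Set.range P) ≠ ⊤} * Fintype.card F ^ m ≤
      Fintype.card F ^ j * (Fintype.card F ^ j) ^ m := by
  classical
  let D := Module.Dual F (Fin j → F)
  have : Finite D := Module.finite_of_finite F
  have : Fintype D := Fintype.ofFinite D
  let Y := Σ f : {f : D // f ≠ 0}, (Fin m → LinearMap.ker f.1)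
  have h1 : ∀ P : {P : Fin m → Fin j → F // Submodule.span F (Set.range P) ≠ ⊤},
      ∃ y : Y, ∀ c, ((y.2 c : Fin j → F)) = P.1 c := by
    rintro ⟨P, hP⟩
    obtain ⟨f, hf0, hf⟩ := Submodule.exists_le_ker_of_lt_top _ (lt_top_iff_ne_top.mpr hP)
    exact ⟨⟨⟨f, hf0⟩, fun c => ⟨P c, hf (Submodule.subset_span ⟨c, rfl⟩)⟩⟩, fun c => rfl⟩
  choose y hy using h1
  have h2 : Nat.card {P : Fin m → Fin j → F // Submodule.span F (Set.range P) ≠ ⊤} ≤ Nat.card Y := by
    apply Nat.card_le_card_of_injective y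
    intro P P' h
    apply Subtype.ext
    funext c
    rw [← hy P c, ← hy P' c, h]
  have h3 : Nat.card Y * Fintype.card F ^ m ≤ Fintype.card F ^ j * (Fintype.card F ^ j) ^ m := by
    rw [Nat.card_sigma, Finset.sum_mul]
    have h4 : ∀ f : {f : D // f ≠ 0}, Nat.card (Fin m → LinearMap.ker f.1) * Fintype.card F ^ m =
        (Fintype.card F ^ j) ^ m := by
      intro f
      rw [Nat.card_eq_fintype_card, Fintype.card_fun, Fintype.card_fin,
        Module.card_eq_pow_finrank (K := F) (V := LinearMap.ker f.1), ← mul_pow, ← pow_succ]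
      congr 2
      have h5 := LinearMap.finrank_range_add_finrank_ker f.1
      rw [Module.finrank_fintype_fun_eq_card, Fintype.card_fin] at h5
      have h6 : finrank F (LinearMap.range f.1) = 1 := by
        rw [LinearMap.range_eq_top.mpr (LinearMap.surjective_of_ne_zero f.2), finrank_top,
          finrank_self]
      omega
    rw [Finset.sum_congr rfl (fun f _ => h4 f), Finset.sum_const, smul_eq_mul, Finset.card_univ]
    apply Nat.mul_le_mul_right
    calc Fintype.card {f : D // f ≠ 0} ≤ Fintype.card D := Fintype.card_subtype_le _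
      _ = Fintype.card F ^ j := by
        rw [Module.card_eq_pow_finrank (K := F) (V := D), Subspace.dual_finrank_eq,
          Module.finrank_fintype_fun_eq_card, Fintype.card_fin]
  exact (Nat.mul_le_mul_right _ h2).trans h3

/-- The number of vectors with three prescribed coordinates. -/
theorem card_hit {j : ℕ} (a b e : Fin j) (hab : a ≠ b) (hae : a ≠ e) (hbe : b ≠ e) (x y z : F) :
    Nat.card {v : Fin j → F // v a = x ∧ v b = y ∧ v e = z} * Fintype.card F ^ 3 =
      Fintype.card F ^ j := by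
  classical
  let S : Fin j → Finset F := fun i =>
    if i = a then {x} else if i = b then {y} else if i = e then {z} else Finset.univ
  have h1 : Nat.card {v : Fin j → F // v a = x ∧ v b = y ∧ v e = z} =
      (Fintype.piFinset S).card := by
    rw [Nat.card_eq_fintype_card, Fintype.card_subtype]
    congr 1
    ext v
    rw [Finset.mem_filter, Fintype.mem_piFinset]
    constructor
    · rintro ⟨-, h1, h2, h3⟩ i
      simp only [S]
      split_ifs with c1 c2 c3
      · rw [c1, h1]; simp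
      · rw [c2, h2]; simp
      · rw [c3, h3]; simp
      · simp
    · intro h
      refine ⟨Finset.mem_univ _, ?_, ?_, ?_⟩
      · have := h a
        simpa [S] using this
      · have := h b
        simpa [S, hab.symm] using this
      · have := h e
        simpa [S, hae.symm, hbe.symm] using this
  rw [h1, Fintype.card_piFinset]
  have h2 : ∀ i, (S i).card = if i ∈ ({a, b, e} : Finset (Fin j)) then 1 else Fintype.card F := by
    intro i
    simp only [S, Finset.mem_insert, Finset.mem_singleton]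
    by_cases c1 : i = a
    · subst c1; simp
    · by_cases c2 : i = b
      · subst c2; simp [c1]
      · by_cases c3 : i = e
        · subst c3; simp [c1, c2]
        · simp [c1, c2, c3, Finset.card_univ]
  rw [Finset.prod_congr rfl (fun i _ => h2 i)]
  have h3 : (3 : ℕ) = ({a, b, e} : Finset (Fin j)).card := by
    rw [Finset.card_insert_of_notMem, Finset.card_insert_of_notMem, Finset.card_singleton]
    · simpa using hbe
    · simp [hab, hae]
  have h4 : Fintype.card F ^ 3 = ∏ i : Fin j,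
      if i ∈ ({a, b, e} : Finset (Fin j)) then Fintype.card F else 1 := by
    rw [Finset.prod_ite_mem, Finset.univ_inter, Finset.prod_const, ← h3]
  rw [h4, ← Finset.prod_mul_distrib]
  have h5 : ∀ i : Fin j, ((if i ∈ ({a, b, e} : Finset (Fin j)) then 1 else Fintype.card F) *
      if i ∈ ({a, b, e} : Finset (Fin j)) then Fintype.card F else 1) = Fintype.card F := by
    intro i
    split_ifs <;> simp
  rw [Finset.prod_congr rfl (fun i _ => h5 i), Finset.prod_const, Finset.card_univ,
    Fintype.card_fin]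

/-- Lists failing the richness condition for given coordinates. -/
def BadR {m j : ℕ} (Φ : (Fin j → F) ≃ₗ[F] (Fin j → F)) (R : Fin m → Fin j → F) : Prop :=
  ∃ a b e : Fin j, a ≠ b ∧ a ≠ e ∧ b ≠ e ∧ ∃ x y z : F,
    ∀ c, ¬ (Φ (R c) a = x ∧ Φ (R c) b = y ∧ Φ (R c) e = z)

theorem card_badR_le {m j : ℕ} (Φ : (Fin j → F) ≃ₗ[F] (Fin j → F)) :
    (Nat.card {R : Fin m → Fin j → F // BadR Φ R} : ℝ) ≤
      (j : ℝ) ^ 3 * (Fintype.card F : ℝ) ^ 3 * ((Fintype.card F : ℝ) ^ (j * m) *
        (1 - 1 / (Fintype.card F : ℝ) ^ 3) ^ m) := by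
  classical
  have hq0 := q_pos (F := F)
  have hq1 := one_le_q (F := F)
  let I := {t : Fin j × Fin j × Fin j // t.1 ≠ t.2.1 ∧ t.1 ≠ t.2.2 ∧ t.2.1 ≠ t.2.2} × (F × F × F)
  let Y := Σ i : I, (Fin m → {v : Fin j → F //
    ¬ (Φ v i.1.1.1 = i.2.1 ∧ Φ v i.1.1.2.1 = i.2.2.1 ∧ Φ v i.1.1.2.2 = i.2.2.2)})
  have h1 : ∀ R : {R : Fin m → Fin j → F // BadR Φ R}, ∃ y : Y, ∀ c, (y.2 c).1 = R.1 c := by
    rintro ⟨R, a, b, e, hab, hae, hbe, x, y, z, h⟩
    exact ⟨⟨(⟨(a, b, e), hab, hae, hbe⟩, (x, y, z)), fun c => ⟨R c, h c⟩⟩, fun c => rfl⟩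
  choose f hf using h1
  have h2 : Nat.card {R : Fin m → Fin j → F // BadR Φ R} ≤ Nat.card Y := by
    apply Nat.card_le_card_of_injective f
    intro R R' h
    apply Subtype.ext
    funext c
    rw [← hf R c, ← hf R' c, h]
  have h3 : ∀ i : I, (Nat.card (Fin m → {v : Fin j → F //
      ¬ (Φ v i.1.1.1 = i.2.1 ∧ Φ v i.1.1.2.1 = i.2.2.1 ∧ Φ v i.1.1.2.2 = i.2.2.2)}) : ℝ) =
      (Fintype.card F : ℝ) ^ (j * m) * (1 - 1 / (Fintype.card F : ℝ) ^ 3) ^ m := by
    rintro ⟨⟨⟨a, b, e⟩, hab, hae, hbe⟩, ⟨x, y, z⟩⟩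
    simp only
    have e1 := card_hit (F := F) a b e hab hae hbe x y z
    have e2 : Nat.card {v : Fin j → F // ¬ (Φ v a = x ∧ Φ v b = y ∧ Φ v e = z)} =
        Nat.card {v : Fin j → F // ¬ (v a = x ∧ v b = y ∧ v e = z)} := by
      apply Nat.card_congr
      exact Φ.toEquiv.subtypeEquiv (fun v => Iff.rfl)
    have e3 : Nat.card {v : Fin j → F // v a = x ∧ v b = y ∧ v e = z} +
        Nat.card {v : Fin j → F // ¬ (v a = x ∧ v b = y ∧ v e = z)} = Fintype.card F ^ j := by
      rw [← Nat.card_sum, Nat.card_congr (Equiv.sumCompl _), Nat.card_eq_fintype_card,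
        Fintype.card_fun, Fintype.card_fin]
    rw [Nat.card_fun, e2, Nat.card_eq_fintype_card (α := Fin m), Fintype.card_fin, Nat.cast_pow,
      pow_mul, ← mul_pow]
    congr 1
    set A := Nat.card {v : Fin j → F // v a = x ∧ v b = y ∧ v e = z}
    set B := Nat.card {v : Fin j → F // ¬ (v a = x ∧ v b = y ∧ v e = z)}
    have e4 : (A : ℝ) * (Fintype.card F : ℝ) ^ 3 = (Fintype.card F : ℝ) ^ j := by exact_mod_cast e1
    have e5 : (A : ℝ) + B = (Fintype.card F : ℝ) ^ j := by exact_mod_cast e3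
    have hq3 : (0 : ℝ) < (Fintype.card F : ℝ) ^ 3 := by positivity
    have e6 : (A : ℝ) = (Fintype.card F : ℝ) ^ j / (Fintype.card F : ℝ) ^ 3 := by
      rw [← e4]; field_simp
    rw [mul_sub, mul_one, mul_one_div, ← e6]
    linarith
  have h4 : (Nat.card Y : ℝ) = Fintype.card I * ((Fintype.card F : ℝ) ^ (j * m) *
      (1 - 1 / (Fintype.card F : ℝ) ^ 3) ^ m) := by
    rw [Nat.card_sigma]
    push_cast
    rw [Finset.sum_congr rfl (fun i _ => h3 i), Finset.sum_const, nsmul_eq_mul, Finset.card_univ]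
  have h5 : (Fintype.card I : ℝ) ≤ (j : ℝ) ^ 3 * (Fintype.card F : ℝ) ^ 3 := by
    have : Fintype.card I ≤ j ^ 3 * Fintype.card F ^ 3 := by
      rw [Fintype.card_prod]
      apply Nat.mul_le_mul
      · refine (Fintype.card_subtype_le _).trans (le_of_eq ?_)
        simp
        ring
      · simp only [Fintype.card_prod]
        apply le_of_eq
        ring
    exact_mod_cast this
  have h6 : (0 : ℝ) ≤ (Fintype.card F : ℝ) ^ (j * m) *
      (1 - 1 / (Fintype.card F : ℝ) ^ 3) ^ m := by
    apply mul_nonneg (by positivity)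
    apply pow_nonneg
    rw [sub_nonneg, div_le_one (by positivity)]
    exact one_le_pow₀ hq1
  calc (Nat.card {R : Fin m → Fin j → F // BadR Φ R} : ℝ) ≤ (Nat.card Y : ℝ) := by
        exact_mod_cast h2
    _ = _ := h4
    _ ≤ _ := mul_le_mul_of_nonneg_right h5 h6

/-- The number of lists of columns that are not rich. -/
theorem card_notRich_le {m1 m2 j : ℕ} :
    (Nat.card {C : Fin (m1 + m2) → Fin j → F // ¬ RichCols C} : ℝ) ≤
      (Fintype.card F : ℝ) ^ (j * (m1 + m2)) *
        ((Fintype.card F : ℝ) ^ j / (Fintype.card F : ℝ) ^ m1 +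
          (j : ℝ) ^ 3 * (Fintype.card F : ℝ) ^ 3 * (1 - 1 / (Fintype.card F : ℝ) ^ 3) ^ m2) := by
  classical
  have hq0 := q_pos (F := F)
  have hq1 := one_le_q (F := F)
  have hch : ∀ P : Fin m1 → Fin j → F, ∃ Φ : (Fin j → F) ≃ₗ[F] (Fin j → F),
      Submodule.span F (Set.range P) = ⊤ → ∃ b : Fin j → Fin m1, ∀ a, Φ (P (b a)) = Pi.single a 1 := by
    intro P
    by_cases h : Submodule.span F (Set.range P) = ⊤
    · obtain ⟨b, Φ, h1⟩ := exists_coord P h
      exact ⟨Φ, fun _ => ⟨b, h1⟩⟩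
    · exact ⟨LinearEquiv.refl F _, fun h' => absurd h' h⟩
  choose Φ hΦ using hch
  let A := {P : Fin m1 → Fin j → F // Submodule.span F (Set.range P) ≠ ⊤} × (Fin m2 → Fin j → F)
  let B := Σ P : Fin m1 → Fin j → F, {R : Fin m2 → Fin j → F // BadR (Φ P) R}
  have h1 : ∀ C : {C : Fin (m1 + m2) → Fin j → F // ¬ RichCols C}, ∃ y : A ⊕ B,
      (∀ c, C.1 (Fin.castAdd m2 c) = Sum.elim (fun y => y.1.1 c) (fun y => y.1 c) y) ∧
      (∀ c, C.1 (Fin.natAdd m1 c) = Sum.elim (fun y => y.2 c) (fun y => y.2.1 c) y) := by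
    rintro ⟨C, hC⟩
    by_cases hs : Submodule.span F (Set.range fun c => C (Fin.castAdd m2 c)) = ⊤
    · have hbad : BadR (Φ (fun c => C (Fin.castAdd m2 c))) (fun c => C (Fin.natAdd m1 c)) := by
        by_contra hnb
        apply hC
        obtain ⟨b, hb⟩ := hΦ _ hs
        refine ⟨fun a => Fin.castAdd m2 (b a), Φ (fun c => C (Fin.castAdd m2 c)), hb, ?_⟩
        intro a b' e h1 h2 h3 x y z
        by_contra hno
        apply hnb
        refine ⟨a, b', e, h1, h2, h3, x, y, z, fun c hc => hno ⟨Fin.natAdd m1 c, hc⟩⟩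
      exact ⟨Sum.inr ⟨fun c => C (Fin.castAdd m2 c), ⟨fun c => C (Fin.natAdd m1 c), hbad⟩⟩,
        fun c => rfl, fun c => rfl⟩
    · exact ⟨Sum.inl ⟨⟨fun c => C (Fin.castAdd m2 c), hs⟩, fun c => C (Fin.natAdd m1 c)⟩,
        fun c => rfl, fun c => rfl⟩
  choose f hf1 hf2 using h1
  have h2 : Nat.card {C : Fin (m1 + m2) → Fin j → F // ¬ RichCols C} ≤ Nat.card (A ⊕ B) := by
    apply Nat.card_le_card_of_injective f
    intro C C' h
    apply Subtype.ext
    funext c
    refine Fin.addCases (fun c => ?_) (fun c => ?_) c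
    · rw [hf1 C c, hf1 C' c, h]
    · rw [hf2 C c, hf2 C' c, h]
  have h3 : (Nat.card A : ℝ) ≤ (Fintype.card F : ℝ) ^ (j * (m1 + m2)) *
      ((Fintype.card F : ℝ) ^ j / (Fintype.card F : ℝ) ^ m1) := by
    rw [Nat.card_prod]
    have e1 := card_nonspan_le (F := F) m1 j
    have e2 : (Nat.card {P : Fin m1 → Fin j → F // Submodule.span F (Set.range P) ≠ ⊤} : ℝ) *
        (Fintype.card F : ℝ) ^ m1 ≤
        (Fintype.card F : ℝ) ^ j * ((Fintype.card F : ℝ) ^ j) ^ m1 := by exact_mod_cast e1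
    have e3 : (Nat.card (Fin m2 → Fin j → F) : ℝ) = (Fintype.card F : ℝ) ^ (j * m2) := by
      rw [Nat.card_eq_fintype_card, Fintype.card_fun, Fintype.card_fun, Fintype.card_fin,
        Fintype.card_fin]
      push_cast
      rw [pow_mul]
    push_cast
    rw [e3]
    have e4 : (Nat.card {P : Fin m1 → Fin j → F // Submodule.span F (Set.range P) ≠ ⊤} : ℝ) ≤
        (Fintype.card F : ℝ) ^ j * ((Fintype.card F : ℝ) ^ j) ^ m1 / (Fintype.card F : ℝ) ^ m1 := by
      rw [le_div_iff₀ (by positivity)]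
      exact e2
    refine (mul_le_mul_of_nonneg_right e4 (by positivity)).trans (le_of_eq ?_)
    rw [mul_add, pow_add, pow_mul, pow_mul]
    ring
  have h4 : (Nat.card B : ℝ) ≤ (Fintype.card F : ℝ) ^ (j * (m1 + m2)) *
      ((j : ℝ) ^ 3 * (Fintype.card F : ℝ) ^ 3 * (1 - 1 / (Fintype.card F : ℝ) ^ 3) ^ m2) := by
    rw [Nat.card_sigma]
    push_cast
    refine (Finset.sum_le_card_nsmul _ _ _ (fun P _ => card_badR_le (Φ P))).trans (le_of_eq ?_)
    rw [nsmul_eq_mul, Finset.card_univ, Fintype.card_fun, Fintype.card_fun, Fintype.card_fin,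
      Fintype.card_fin]
    push_cast
    rw [mul_add, pow_add, pow_mul _ j m1]
    ring
  have h5 : (Nat.card (A ⊕ B) : ℝ) = Nat.card A + Nat.card B := by
    rw [Nat.card_sum]
    push_cast
    rfl
  calc (Nat.card {C : Fin (m1 + m2) → Fin j → F // ¬ RichCols C} : ℝ) ≤ (Nat.card (A ⊕ B) : ℝ) := by
        exact_mod_cast h2
    _ = Nat.card A + Nat.card B := h5
    _ ≤ _ := add_le_add h3 h4
    _ = _ := by ring

/-- The number of subspaces of dimension `j` that are not good. -/
theorem card_not_good_le {n m1 m2 j : ℕ} (hn : n = m1 + m2) (hj : 3 ≤ j) (hjn : j ≤ n) :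
    (Nat.card {U : Submodule F (Fin n → F) // finrank F U = j ∧ ¬ Good U} : ℝ) ≤
      4 * ((Fintype.card F : ℝ) ^ j / (Fintype.card F : ℝ) ^ m1 +
          (j : ℝ) ^ 3 * (Fintype.card F : ℝ) ^ 3 * (1 - 1 / (Fintype.card F : ℝ) ^ 3) ^ m2) *
        Nat.card {U : Submodule F (Fin n → F) // finrank F U = j} := by
  classical
  subst hn
  have hq0 := q_pos (F := F)
  have hq1 := one_le_q (F := F)
  set n := m1 + m2 with hn
  set ε : ℝ := ((Fintype.card F : ℝ) ^ j / (Fintype.card F : ℝ) ^ m1 +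
          (j : ℝ) ^ 3 * (Fintype.card F : ℝ) ^ 3 * (1 - 1 / (Fintype.card F : ℝ) ^ 3) ^ m2) with hε
  have hε0 : 0 ≤ ε := by
    apply add_nonneg (by positivity)
    apply mul_nonneg (by positivity)
    apply pow_nonneg
    rw [sub_nonneg, div_le_one (by positivity)]
    exact one_le_pow₀ hq1
  have h1 := card_mul_le (F := F) (V := Fin n → F) (j := j) (fun U => ¬ Good U)
    (fun s => ¬ RichCols (fun c a => s a c)) (fun s _ hU hr => hU (good_of_richCols hj s hr))
  have h2 : Nat.card {s : Fin j → Fin n → F // ¬ RichCols (fun c a => s a c)} =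
      Nat.card {C : Fin n → Fin j → F // ¬ RichCols C} := by
    apply Nat.card_congr
    exact (Equiv.piComm (fun _ _ => F)).subtypeEquiv (fun s => Iff.rfl)
  rw [h2] at h1
  have h3 := card_notRich_le (F := F) (m1 := m1) (m2 := m2) (j := j)
  rw [← hn, ← hε] at h3
  have h4 := le_glc (two_le_card (F := F)) j
  have h5 := le_card_dim (F := F) (V := Fin n → F) j (by
    rw [Module.finrank_fintype_fun_eq_card, Fintype.card_fin]; exact hjn)
  rw [Module.finrank_fintype_fun_eq_card, Fintype.card_fin] at h5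
  set x := Nat.card {U : Submodule F (Fin n → F) // finrank F U = j ∧ ¬ Good U}
  set y := Nat.card {U : Submodule F (Fin n → F) // finrank F U = j}
  have h1' : (x : ℝ) * (glc (Fintype.card F) j : ℝ) ≤ (Fintype.card F : ℝ) ^ (j * n) * ε := by
    refine le_trans ?_ h3
    exact_mod_cast h1
  have h4' : (Fintype.card F : ℝ) ^ (j * j) ≤ 4 * (glc (Fintype.card F) j : ℝ) := by
    exact_mod_cast h4
  have h5' : (Fintype.card F : ℝ) ^ (j * (n - j)) ≤ (y : ℝ) := by exact_mod_cast h5
  have h6 : (Fintype.card F : ℝ) ^ (j * n) =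
      (Fintype.card F : ℝ) ^ (j * (n - j)) * (Fintype.card F : ℝ) ^ (j * j) := by
    rw [← pow_add, ← mul_add, Nat.sub_add_cancel hjn]
  have h7 : (x : ℝ) * (Fintype.card F : ℝ) ^ (j * j) ≤
      (4 * ε * (y : ℝ)) * (Fintype.card F : ℝ) ^ (j * j) := by
    calc (x : ℝ) * (Fintype.card F : ℝ) ^ (j * j) ≤ x * (4 * (glc (Fintype.card F) j : ℝ)) :=
          mul_le_mul_of_nonneg_left h4' (by positivity)
      _ = 4 * (x * (glc (Fintype.card F) j : ℝ)) := by ring
      _ ≤ 4 * ((Fintype.card F : ℝ) ^ (j * n) * ε) := by linarith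
      _ = (4 * ε * (Fintype.card F : ℝ) ^ (j * (n - j))) * (Fintype.card F : ℝ) ^ (j * j) := by
        rw [h6]; ring
      _ ≤ _ := by
        apply mul_le_mul_of_nonneg_right _ (by positivity)
        apply mul_le_mul_of_nonneg_left h5' (by positivity)
  exact le_of_mul_le_mul_right h7 (by positivity)

end Pool.Agent.H699.RM
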