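import Pool.Agent.H699.RM.Mat

set_option autoImplicit false
set_option linter.unusedSectionVars false

namespace Pool.Agent.H699.RM

open Module

variable {F : Type} [Field F] [Fintype F] {n j : ℕ}

/-- `A` is the standard matrix of `U` with respect to the coordinates `b`. -/
def StdForm (U : Submodule F (Fin n → F)) (b : Fin j → Fin n) (A : Matrix (Fin j) (Fin n) F) :
    Prop :=
  U = Submodule.span F (Set.range A) ∧ ∀ a a', A a (b a') = if a = a' then 1 else 0

theorem orth_iff {U : Submodule F (Fin n → F)} {b : Fin j → Fin n} {A : Matrix (Fin j) (Fin n) F}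
    (h : StdForm U b A) (c : Fin n → F) :
    (∀ u ∈ U, ∑ i, c i * u i = 0) ↔ ∀ a, ∑ i, c i * A a i = 0 := by
  constructor
  · intro hc a
    apply hc
    rw [h.1]
    exact Submodule.subset_span ⟨a, rfl⟩
  · intro hc u hu
    rw [h.1] at hu
    induction hu using Submodule.span_induction with
    | mem x hx =>
      obtain ⟨a, rfl⟩ := hx
      exact hc a
    | zero => simp
    | add x y _ _ hx hy =>
      simp only [Pi.add_apply, mul_add, Finset.sum_add_distrib, hx, hy, add_zero]
    | smul r x _ hx =>
      have : ∑ i, c i * (r • x) i = r * ∑ i, c i * x i := by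
        rw [Finset.mul_sum]
        apply Finset.sum_congr rfl
        intro i _
        simp only [Pi.smul_apply, smul_eq_mul]
        ring
      rw [this, hx, mul_zero]

theorem b_inj {U : Submodule F (Fin n → F)} {b : Fin j → Fin n} {A : Matrix (Fin j) (Fin n) F}
    (h : StdForm U b A) : Function.Injective b := by
  intro a a' haa
  have h1 := h.2 a a
  have h2 := h.2 a a'
  rw [haa] at h1
  rw [h1] at h2
  by_contra hne
  simp [hne] at h2

/-- The sum of a vector supported on the basis coordinates against a row. -/
theorem sum_range_b {U : Submodule F (Fin n → F)} {b : Fin j → Fin n}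
    {A : Matrix (Fin j) (Fin n) F} (h : StdForm U b A) (c : Fin n → F)
    (hc : ∀ i, i ∉ Set.range b → c i = 0) (a : Fin j) : ∑ i, c i * A a i = c (b a) := by
  classical
  rw [Finset.sum_eq_single (b a)]
  · rw [h.2, if_pos rfl, mul_one]
  · intro i _ hi
    by_cases hr : i ∈ Set.range b
    · obtain ⟨a', rfl⟩ := hr
      rw [h.2, if_neg (fun e => hi (by rw [e])), mul_zero]
    · rw [hc i hr, zero_mul]
  · intro h'
    exact absurd (Finset.mem_univ _) h'

theorem indU_range {U : Submodule F (Fin n → F)} {b : Fin j → Fin n}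
    {A : Matrix (Fin j) (Fin n) F} (h : StdForm U b A) : IndU U (Set.range b) := by
  intro c hc hu
  rw [orth_iff h] at hu
  funext i
  by_cases hi : i ∈ Set.range b
  · obtain ⟨a, rfl⟩ := hi
    rw [← sum_range_b h c hc a, hu a]
    rfl
  · exact hc i hi

/-- A subspace with the same matroid has a standard matrix for the same coordinates. -/
theorem exists_std {U U' : Submodule F (Fin n → F)} {b : Fin j → Fin n}
    {A : Matrix (Fin j) (Fin n) F} (h : StdForm U b A) (hI : ∀ I, IndU U I ↔ IndU U' I) :
    ∃ A' : Matrix (Fin j) (Fin n) F, StdForm U' b A' := by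
  classical
  have hb := b_inj h
  have hR : IndU U' (Set.range b) := (hI _).mp (indU_range h)
  -- dependence on the other coordinates
  have hdep : ∀ c0, c0 ∉ Set.range b → ∃ c : Fin n → F, c c0 ≠ 0 ∧
      (∀ i, i ∉ Set.range b → i ≠ c0 → c i = 0) ∧ ∀ u ∈ U', ∑ i, c i * u i = 0 := by
    intro c0 hc0
    have hnot : ¬ IndU U (Set.range b ∪ {c0}) := by
      intro hind
      have h1 := hind (fun i => (if i = c0 then 1 else 0) - ∑ a, if i = b a then A a c0 else 0) (by
        intro i hi
        rw [Set.mem_union, not_or] at hi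
        have e1 : i ≠ c0 := hi.2
        have e2 : ∀ a, i ≠ b a := fun a e => hi.1 ⟨a, e.symm⟩
        simp [e1, e2]) (by
        rw [orth_iff h]
        intro a
        simp only [sub_mul, Finset.sum_sub_distrib, Finset.sum_mul, ite_mul, one_mul, zero_mul]
        rw [Finset.sum_comm]
        simp [h.2])
      have h2 := congrFun h1 c0
      have e2 : ∀ a, c0 ≠ b a := fun a e => hc0 ⟨a, e.symm⟩
      simp [e2] at h2
    rw [hI] at hnot
    unfold IndU at hnot
    push Not at hnot
    obtain ⟨c, hc1, hc2, hc3⟩ := hnot
    refine ⟨c, ?_, ?_, hc2⟩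
    · intro h0
      apply hc3
      apply hR c _ hc2
      intro i hi
      by_cases hic : i = c0
      · rw [hic, h0]
      · exact hc1 i (by rw [Set.mem_union, not_or]; exact ⟨hi, hic⟩)
    · intro i hi hic
      exact hc1 i (by rw [Set.mem_union, not_or]; exact ⟨hi, hic⟩)
  have hinj : ∀ u ∈ U', (∀ a, u (b a) = 0) → u = 0 := by
    intro u hu hub
    funext i
    by_cases hi : i ∈ Set.range b
    · obtain ⟨a, rfl⟩ := hi
      exact hub a
    · obtain ⟨c, hc1, hc2, hc3⟩ := hdep i hi
      have h1 := hc3 u hu
      rw [Finset.sum_eq_single i] at h1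
      · exact (mul_eq_zero.mp h1).resolve_left hc1
      · intro k _ hk
        by_cases hkr : k ∈ Set.range b
        · obtain ⟨a, rfl⟩ := hkr
          rw [hub, mul_zero]
        · rw [hc2 k hkr hk, zero_mul]
      · intro h'
        exact absurd (Finset.mem_univ _) h'
  let ev : U' →ₗ[F] (Fin j → F) := (LinearMap.funLeft F F b) ∘ₗ U'.subtype
  have hsurj : LinearMap.range ev = ⊤ := by
    by_contra hne
    obtain ⟨f, hf0, hf⟩ := Submodule.exists_le_ker_of_lt_top _ (lt_top_iff_ne_top.mpr hne)
    apply hf0
    let c : Fin n → F := fun i => ∑ a, if i = b a then f (Pi.single a 1) else 0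
    have hc : c = 0 := by
      apply hR c
      · intro i hi
        have e2 : ∀ a, i ≠ b a := fun a e => hi ⟨a, e.symm⟩
        simp [c, e2]
      · intro u hu
        have h1 : f (ev ⟨u, hu⟩) = 0 := hf ⟨_, rfl⟩
        rw [← h1]
        have h2 : ev ⟨u, hu⟩ = ∑ a, u (b a) • (Pi.single a 1 : Fin j → F) := by
          funext a
          simp [ev, LinearMap.funLeft, Finset.sum_apply, Pi.single_apply]
        rw [h2, map_sum]
        simp only [c, Finset.sum_mul, ite_mul, zero_mul]
        rw [Finset.sum_comm]
        simp [mul_comm]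
    apply LinearMap.pi_ext'
    intro a
    ext
    have h3 := congrFun hc (b a)
    have h4 : c (b a) = f (Pi.single a 1) := by
      simp only [c]
      rw [Finset.sum_eq_single a]
      · simp
      · intro a' _ ha'
        rw [if_neg]
        intro e
        exact ha' (hb e).symm
      · intro h'
        exact absurd (Finset.mem_univ _) h'
    rw [h4] at h3
    simpa using h3
  have hex : ∀ a : Fin j, ∃ u : U', ev u = Pi.single a 1 := by
    intro a
    have : (Pi.single a 1 : Fin j → F) ∈ LinearMap.range ev := by rw [hsurj]; trivial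
    exact this
  choose w hw using hex
  refine ⟨fun a i => (w a : Fin n → F) i, ?_, ?_⟩
  · apply le_antisymm
    · intro u hu
      have h1 : u = ∑ a, u (b a) • (w a : Fin n → F) := by
        have h2 : u - ∑ a, u (b a) • (w a : Fin n → F) = 0 := by
          apply hinj
          · apply U'.sub_mem hu
            apply U'.sum_mem
            intro a _
            exact U'.smul_mem _ (w a).2
          · intro a
            have h3 : ∀ a', (w a' : Fin n → F) (b a) = if a = a' then 1 else 0 := by
              intro a'
              have := congrFun (hw a') a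
              rw [Pi.single_apply] at this
              exact this
            simp [Finset.sum_apply, h3]
        exact sub_eq_zero.mp h2
      rw [h1]
      apply Submodule.sum_mem
      intro a _
      apply Submodule.smul_mem
      exact Submodule.subset_span ⟨a, rfl⟩
    · rw [Submodule.span_le]
      rintro _ ⟨a, rfl⟩
      exact (w a).2
  · intro a a'
    have := congrFun (hw a) a'
    rw [Pi.single_apply] at this
    simp only [eq_comm (a := a) (b := a')]
    exact this

/-- Nonvanishing minors give independent sets. -/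
theorem minor_ne {U : Submodule F (Fin n → F)} {b : Fin j → Fin n}
    {A : Matrix (Fin j) (Fin n) F} (h : StdForm U b A) {k : ℕ} (κ : Fin k → Fin j)
    (γ : Fin k → Fin n) (hdet : (A.submatrix κ γ).det ≠ 0) :
    Function.Injective γ ∧ (∀ l, γ l ∉ b '' (Set.range κ)ᶜ) ∧
      IndU U (b '' (Set.range κ)ᶜ ∪ Set.range γ) := by
  classical
  have hγ : Function.Injective γ := by
    intro l l' hll
    by_contra hne
    exact hdet (Matrix.det_zero_of_column_eq hne (fun i => by simp [Matrix.submatrix_apply, hll]))
  have hav : ∀ l, γ l ∉ b '' (Set.range κ)ᶜ := by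
    rintro l ⟨a, ha, hal⟩
    apply hdet
    apply Matrix.det_eq_zero_of_column_eq_zero l
    intro i
    rw [Matrix.submatrix_apply, ← hal, h.2, if_neg]
    rintro rfl
    exact ha ⟨i, rfl⟩
  refine ⟨hγ, hav, ?_⟩
  intro c hc hu
  rw [orth_iff h] at hu
  have h1 : (A.submatrix κ γ).mulVec (fun l => c (γ l)) = 0 := by
    funext m
    rw [Matrix.mulVec, dotProduct]
    have h2 := hu (κ m)
    have h3 : ∑ i, c i * A (κ m) i = ∑ i ∈ Finset.univ.image γ, c i * A (κ m) i := by
      symm
      apply Finset.sum_subset (Finset.subset_univ _)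
      intro i _ hi
      by_cases hib : i ∈ b '' (Set.range κ)ᶜ
      · obtain ⟨a, ha, rfl⟩ := hib
        rw [h.2, if_neg, mul_zero]
        rintro rfl
        exact ha ⟨m, rfl⟩
      · rw [hc i, zero_mul]
        rw [Set.mem_union, not_or]
        refine ⟨hib, ?_⟩
        rintro ⟨l, rfl⟩
        exact hi (Finset.mem_image_of_mem γ (Finset.mem_univ l))
    rw [h3, Finset.sum_image (fun x _ y _ e => hγ e)] at h2
    rw [Pi.zero_apply, ← h2]
    apply Finset.sum_congr rfl
    intro l _
    rw [Matrix.submatrix_apply, mul_comm]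
  have h4 : (fun l => c (γ l)) = 0 := by
    by_contra hne
    exact hdet (Matrix.exists_mulVec_eq_zero_iff.mp ⟨_, hne, h1⟩)
  have h5 : ∀ i, i ∉ Set.range b → c i = 0 := by
    intro i hi
    by_cases hiγ : i ∈ Set.range γ
    · obtain ⟨l, rfl⟩ := hiγ
      exact congrFun h4 l
    · apply hc
      rw [Set.mem_union, not_or]
      refine ⟨?_, hiγ⟩
      rintro ⟨a, -, rfl⟩
      exact hi ⟨a, rfl⟩
  funext i
  by_cases hi : i ∈ Set.range b
  · obtain ⟨a, rfl⟩ := hi
    rw [← sum_range_b h c h5 a, hu a]
    rfl
  · exact h5 i hi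

theorem minor_ne_of {U : Submodule F (Fin n → F)} {b : Fin j → Fin n}
    {A : Matrix (Fin j) (Fin n) F} (h : StdForm U b A) {k : ℕ} (κ : Fin k → Fin j)
    (γ : Fin k → Fin n) (hγ : Function.Injective γ) (hav : ∀ l, γ l ∉ b '' (Set.range κ)ᶜ)
    (hind : IndU U (b '' (Set.range κ)ᶜ ∪ Set.range γ)) : (A.submatrix κ γ).det ≠ 0 := by
  classical
  intro hdet
  obtain ⟨y, hy0, hy⟩ := Matrix.exists_mulVec_eq_zero_iff.mpr hdet
  apply hy0
  let c : Fin n → F := fun i => (∑ l, if i = γ l then y l else 0) -
    ∑ a, if i = b a ∧ a ∉ Set.range κ then ∑ l, y l * A a (γ l) else 0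
  have hc : c = 0 := by
    apply hind c
    · intro i hi
      rw [Set.mem_union, not_or] at hi
      have e1 : ∀ l, i ≠ γ l := fun l e => hi.2 ⟨l, e.symm⟩
      have e2 : ∀ a, ¬ (i = b a ∧ a ∉ Set.range κ) := fun a e => hi.1 ⟨a, e.2, e.1.symm⟩
      simp only [c]
      rw [Finset.sum_eq_zero (fun l _ => if_neg (e1 l)),
        Finset.sum_eq_zero (fun a _ => if_neg (e2 a)), sub_zero]
    · rw [orth_iff h]
      intro a
      have e1 : ∑ i, (∑ l, if i = γ l then y l else 0) * A a i = ∑ l, y l * A a (γ l) := by
        simp only [Finset.sum_mul, ite_mul, zero_mul]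
        rw [Finset.sum_comm]
        simp
      have e2 : ∑ i, (∑ a', if i = b a' ∧ a' ∉ Set.range κ then ∑ l, y l * A a' (γ l) else 0) *
          A a i = if a ∉ Set.range κ then ∑ l, y l * A a (γ l) else 0 := by
        simp only [Finset.sum_mul, ite_mul, zero_mul]
        rw [Finset.sum_comm]
        rw [Finset.sum_eq_single a]
        · by_cases ha : a ∉ Set.range κ
          · rw [if_pos ha]
            rw [Finset.sum_eq_single (b a)]
            · rw [if_pos ⟨rfl, ha⟩, h.2, if_pos rfl]
              simp
            · intro i _ hi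
              rw [if_neg (fun e => hi e.1)]
            · intro h'
              exact absurd (Finset.mem_univ _) h'
          · rw [if_neg ha]
            apply Finset.sum_eq_zero
            intro i _
            rw [if_neg (fun e => ha e.2)]
        · intro a' _ ha'
          apply Finset.sum_eq_zero
          intro i _
          by_cases hi : i = b a' ∧ a' ∉ Set.range κ
          · rw [if_pos hi, hi.1, h.2, if_neg (Ne.symm ha')]
            simp
          · rw [if_neg hi]
        · intro h'
          exact absurd (Finset.mem_univ _) h'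
      simp only [c, sub_mul, Finset.sum_sub_distrib]
      rw [e1, e2]
      by_cases ha : a ∉ Set.range κ
      · rw [if_pos ha, sub_self]
      · rw [if_neg ha, sub_zero]
        rw [not_not] at ha
        obtain ⟨m, rfl⟩ := ha
        have := congrFun hy m
        rw [Matrix.mulVec, dotProduct] at this
        simp only [Matrix.submatrix_apply, Pi.zero_apply] at this
        rw [← this]
        apply Finset.sum_congr rfl
        intro l _
        ring
  funext l
  have h1 := congrFun hc (γ l)
  simp only [c] at h1
  rw [Finset.sum_eq_single l] at h1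
  · rw [if_pos rfl, Finset.sum_eq_zero, sub_zero] at h1
    · exact h1
    · intro a _
      rw [if_neg]
      rintro ⟨e1, e2⟩
      exact hav l ⟨a, e2, e1.symm⟩
  · intro l' _ hl'
    rw [if_neg]
    intro e
    exact hl' (hγ e).symm
  · intro h'
    exact absurd (Finset.mem_univ _) h'

/-- Subspaces with the same matroid have the same vanishing minors. -/
theorem minor_iff {U U' : Submodule F (Fin n → F)} {b : Fin j → Fin n}
    {A A' : Matrix (Fin j) (Fin n) F} (h : StdForm U b A) (h' : StdForm U' b A')
    (hI : ∀ I, IndU U I ↔ IndU U' I) {k : ℕ} (κ : Fin k → Fin j) (γ : Fin k → Fin n) :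
    (A.submatrix κ γ).det = 0 ↔ (A'.submatrix κ γ).det = 0 := by
  constructor
  · intro h0
    by_contra hne
    obtain ⟨h1, h2, h3⟩ := minor_ne h' κ γ hne
    exact minor_ne_of h κ γ h1 h2 ((hI _).mpr h3) h0
  · intro h0
    by_contra hne
    obtain ⟨h1, h2, h3⟩ := minor_ne h κ γ hne
    exact minor_ne_of h' κ γ h1 h2 ((hI _).mp h3) h0

end Pool.Agent.H699.RM
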